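import Pool.Agent.Q45.ML.Lat

/-! The lattice of algebraic integers in `ℂ^{Hom(E, ℂ)}`. -/

set_option autoImplicit false

namespace Pool.Agent.Q45.ML

open Filter Topology Asymptotics Polynomial NumberField

theorem lattice_eq (E : Type) [Field E] [NumberField E] :
    (Set.range fun (a : 𝓞 E) (τ : E →+* ℂ) => τ a) =
      (canonicalEmbedding.integerLattice E : Set ((E →+* ℂ) → ℂ)) := by
  ext x
  constructor
  · rintro ⟨a, rfl⟩
    exact ⟨(a : E), ⟨a, rfl⟩, rfl⟩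
  · rintro ⟨_, ⟨a, rfl⟩, rfl⟩
    exact ⟨a, rfl⟩

theorem closed_lattice (E : Type) [Field E] [NumberField E] :
    IsClosed (Set.range fun (a : 𝓞 E) (τ : E →+* ℂ) => τ a) := by
  rw [lattice_eq]
  set K : Set ((E →+* ℂ) → ℂ) := (canonicalEmbedding.integerLattice E : Set ((E →+* ℂ) → ℂ)) with hK
  refine isClosed_of_closure_subset fun x hx => ?_
  have hA := canonicalEmbedding.integerLattice.inter_ball_finite E (‖x‖ + 1)
  by_contra hxK
  have hxA : x ∈ (K ∩ Metric.closedBall 0 (‖x‖ + 1))ᶜ := fun h => hxK h.1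
  obtain ⟨ε, hε, hball⟩ := Metric.isOpen_iff.1 hA.isClosed.isOpen_compl x hxA
  obtain ⟨y, hy, hd⟩ := Metric.mem_closure_iff.1 hx (min ε 1) (lt_min hε one_pos)
  refine hball (a := y) ?_ ⟨hy, ?_⟩
  · rw [Metric.mem_ball, dist_comm]
    exact hd.trans_le (min_le_left _ _)
  · rw [Metric.mem_closedBall, dist_zero_right]
    have h1 : dist x y < 1 := hd.trans_le (min_le_right _ _)
    have h2 : ‖y‖ ≤ ‖x‖ + ‖y - x‖ := by
      have := norm_add_le x (y - x)
      simpa using this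
    rw [dist_comm, dist_eq_norm] at h1
    linarith

theorem eval_prod' {n : ℕ} {E : Type} [Field E] {Q : E[X]} {τ : E →+* ℂ} {β : Fin n → ℂ}
    (h : Q.map τ = ∏ j, (1 - C (β j) * X)) (x : ℂ) : eval₂ τ x Q = ∏ j, (1 - β j * x) := by
  rw [eval₂_eq_eval_map, h, eval_prod]
  simp

/-- a positive integer multiple of an algebraic number is an algebraic integer -/
theorem clear_denominator {E : Type} [Field E] [NumberField E] (e : E) :
    ∃ D : ℕ, 0 < D ∧ ∃ a : 𝓞 E, (D : E) * e = a := by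
  have h1 : IsAlgebraic ℤ e := (IsFractionRing.isAlgebraic_iff ℤ ℚ E).2
    (Algebra.IsAlgebraic.isAlgebraic e)
  obtain ⟨y, hy, hi⟩ := h1.exists_integral_multiple
  refine ⟨y.natAbs, Int.natAbs_pos.2 hy, ?_⟩
  have h2 : IsIntegral ℤ ((y.natAbs : E) * e) := by
    have e1 : (y.natAbs : E) = ((y.natAbs : ℤ) : E) := (Int.cast_natCast _).symm
    rcases Int.natAbs_eq y with h | h
    · rw [e1, ← h]
      simpa [zsmul_eq_mul] using hi
    · have h3 : ((y.natAbs : ℤ) : E) * e = -(y • e) := by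
        rw [zsmul_eq_mul]
        have h4 : (y : E) = -((y.natAbs : ℤ) : E) := by
          conv_lhs => rw [h]
          push_cast
          rfl
        rw [h4]
        ring
      rw [e1, h3]
      exact hi.neg
  exact ⟨⟨_, h2⟩, rfl⟩

/-- membership in `E · Ω` is detected by the distance from the lattice -/
theorem relation_iff (E : Type) [Field E] [NumberField E] {f : (E →+* ℂ) → ℝ → ℂ} {V Ω : (E →+* ℂ) → ℂ}
    (hΩ : ∀ τ, Ω τ ≠ 0) (hf : ∀ τ, Tendsto (f τ) atTop (𝓝 (V τ))) :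
    (∃ e : E, ∀ τ : E →+* ℂ, V τ = τ e * Ω τ) ↔ ∃ D : ℕ, 0 < D ∧
      ∃ t : ℕ → ℝ, Tendsto t atTop atTop ∧ Tendsto
        (fun i => Metric.infDist (fun τ => (D : ℂ) * (f τ (t i) / Ω τ))
          (Set.range fun (a : 𝓞 E) (τ : E →+* ℂ) => τ a)) atTop (𝓝 0) := by
  have hlim : ∀ D : ℕ, Tendsto (fun T : ℝ => fun τ : E →+* ℂ =>
      (D : ℂ) * (f τ T / Ω τ)) atTop (𝓝 fun τ => D * (V τ / Ω τ)) :=
    fun D => tendsto_pi_nhds.2 fun τ => ((hf τ).div_const _).const_mul _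
  have hiff : ∀ D : ℕ, 0 < D → ((∃ a : 𝓞 E, ∀ τ : E →+* ℂ, (D : ℂ) * (V τ / Ω τ) = τ a) ↔
      ∃ t : ℕ → ℝ, Tendsto t atTop atTop ∧ Tendsto
        (fun i => Metric.infDist (fun τ => (D : ℂ) * (f τ (t i) / Ω τ))
          (Set.range fun (a : 𝓞 E) (τ : E →+* ℂ) => τ a)) atTop (𝓝 0)) := by
    intro D _
    have h1 := closed_tfae (closed_lattice E) (Set.range_nonempty _) (hlim D)
    have e : ((fun τ : E →+* ℂ => (D : ℂ) * (V τ / Ω τ)) ∈
        Set.range fun (a : 𝓞 E) (τ : E →+* ℂ) => τ a) ↔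
        ∃ a : 𝓞 E, ∀ τ : E →+* ℂ, (D : ℂ) * (V τ / Ω τ) = τ a := by
      constructor
      · rintro ⟨a, ha⟩
        exact ⟨a, fun τ => (congrFun ha τ).symm⟩
      · rintro ⟨a, ha⟩
        exact ⟨a, funext fun τ => (ha τ).symm⟩
    rw [e] at h1
    exact h1.out 0 2
  constructor
  · rintro ⟨e, he⟩
    obtain ⟨D, hD, a, ha⟩ := clear_denominator e
    refine ⟨D, hD, ?_⟩
    refine (hiff D hD).1 ⟨a, fun τ => ?_⟩
    rw [he τ, mul_div_cancel_right₀ _ (hΩ τ), ← ha, map_mul, map_natCast]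
  · rintro ⟨D, hD, ht⟩
    obtain ⟨a, ha⟩ := (hiff D hD).2 ht
    refine ⟨(a : E) / D, fun τ => ?_⟩
    have hDc : (D : ℂ) ≠ 0 := by exact_mod_cast hD.ne'
    have h1 := ha τ
    have h2 := hΩ τ
    rw [map_div₀, map_natCast]
    field_simp at h1 ⊢
    linear_combination h1

end Pool.Agent.Q45.ML
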