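import Pool.Agent.Q45.ML.Conseq

/-!
# The rotated law for complex coefficients

If `F(s) = exp ∑ c_i e^{-s lam_i}` with complex `c_i = a_i + i b_i`, then `F e^{-f/2}` and `e^{-if/2}`, where
`f` is the logarithm of `F(s) / conj F(conj s)` near the real segment (an analytic function without zeros
there), continue the exponentials of the series of the `a_i` and the `b_i`.
-/

set_option autoImplicit false

namespace Pool.Agent.Q45.ML

open Filter Topology Set Asymptotics ComplexConjugate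
open Pool.Agent.W189.ML Pool.Agent.W189.LC Pool.Agent.W187.UR

/-- the reflected function `conj F(conj s)` -/
noncomputable def refl (F : ℂ → ℂ) (s : ℂ) : ℂ := conj (F (conj s))

theorem refl_analytic {g : ℂ → ℂ} {x : ℝ} (hg : AnalyticAt ℂ g (x : ℂ)) :
    AnalyticAt ℂ (refl g) (x : ℂ) := by
  rw [Complex.analyticAt_iff_eventually_differentiableAt] at hg ⊢
  have hc : Tendsto (fun z : ℂ => conj z) (𝓝 (x : ℂ)) (𝓝 (x : ℂ)) := by
    have := (Complex.continuous_conj.tendsto (x : ℂ))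
    simpa using this
  filter_upwards [hc.eventually hg] with z hz
  have h := hz.star_star
  have e1 : star ((starRingEnd ℂ) z) = z := by
    change star (star z) = z
    exact star_star z
  rw [e1] at h
  exact h

theorem conj_punct (x : ℝ) : Tendsto (fun z : ℂ => conj z) (𝓝[≠] (x : ℂ)) (𝓝[≠] (x : ℂ)) := by
  rw [tendsto_nhdsWithin_iff]
  constructor
  · have := (Complex.continuous_conj.tendsto (x : ℂ)).mono_left
      (nhdsWithin_le_nhds (s := {(x : ℂ)}ᶜ))
    simpa using this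
  · filter_upwards [self_mem_nhdsWithin] with z hz
    intro h
    apply hz
    have h2 : conj z = (x : ℂ) := h
    have h3 := congrArg conj h2
    rwa [Complex.conj_conj, Complex.conj_ofReal] at h3

/-- at a real point of finite order -/
theorem refl_local {F : ℂ → ℂ} {x : ℝ} (hF : MeromorphicAt F (x : ℂ))
    (ht : meromorphicOrderAt F (x : ℂ) ≠ ⊤) :
    MeromorphicAt (refl F) (x : ℂ) ∧ ∃ q : ℂ → ℂ, AnalyticAt ℂ q (x : ℂ) ∧ ‖q (x : ℂ)‖ = 1 ∧
      (fun s => F s / refl F s) =ᶠ[𝓝[≠] (x : ℂ)] q := by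
  obtain ⟨g, hg, hg0, hgF⟩ := (meromorphicOrderAt_ne_top_iff hF).1 ht
  set n := (meromorphicOrderAt F (x : ℂ)).untop₀ with hn
  have hr : refl F =ᶠ[𝓝[≠] (x : ℂ)] fun s => (s - x) ^ n • refl g s := by
    filter_upwards [(conj_punct x).eventually hgF] with s hs
    unfold refl
    rw [hs, smul_eq_mul, smul_eq_mul, map_mul, map_zpow₀, map_sub, Complex.conj_conj,
      Complex.conj_ofReal]
  have hrg := refl_analytic hg
  have hrx : refl g (x : ℂ) = conj (g (x : ℂ)) := by
    unfold refl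
    rw [Complex.conj_ofReal]
  have hrg0 : refl g (x : ℂ) ≠ 0 := by
    rw [hrx]
    exact (map_ne_zero _).2 hg0
  refine ⟨?_, fun s => g s / refl g s, hg.div hrg hrg0, ?_, ?_⟩
  · refine MeromorphicAt.congr ?_ hr.symm
    have h1 : MeromorphicAt (fun s : ℂ => (s - (x : ℂ)) ^ n) (x : ℂ) := by fun_prop
    exact h1.smul hrg.meromorphicAt
  · rw [norm_div, hrx, RCLike.norm_conj, div_self (norm_ne_zero_iff.2 hg0)]
  · filter_upwards [hgF, hr, self_mem_nhdsWithin] with s h1 h2 h3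
    rw [h1, h2, smul_eq_mul, smul_eq_mul, mul_div_mul_left]
    exact zpow_ne_zero _ (sub_ne_zero.2 h3)

/-- A continuous logarithm of a differentiable function is differentiable. -/
theorem log_diff {f Q : ℂ → ℂ} {V : Set ℂ} (hV : IsOpen V) (hf : ContinuousOn f V)
    (hfQ : EqOn (Complex.exp ∘ f) Q V) (hQ : ∀ z ∈ V, DifferentiableAt ℂ Q z) :
    ∀ z ∈ V, DifferentiableAt ℂ f z := by
  intro z hz
  have hfc : ContinuousAt f z := hf.continuousAt (hV.mem_nhds hz)
  have hQz : Q z ≠ 0 := by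
    rw [← hfQ hz]
    exact Complex.exp_ne_zero _
  have hev : f =ᶠ[𝓝 z] fun w => f z + Complex.log (Q w / Q z) := by
    have h1 : ∀ᶠ w in 𝓝 z, ‖f w - f z‖ < 1 := by
      have h2 : Tendsto (fun w => ‖f w - f z‖) (𝓝 z) (𝓝 0) := by
        have h3 : Tendsto f (𝓝 z) (𝓝 (f z)) := hfc
        have h4 := (h3.sub_const (f z)).norm
        simpa using h4
      exact h2.eventually (gt_mem_nhds one_pos)
    filter_upwards [h1, hV.mem_nhds hz] with w hw hwV
    have h2 : Q w / Q z = Complex.exp (f w - f z) := by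
      rw [← hfQ hwV, ← hfQ hz, Complex.exp_sub]
      rfl
    have h3 : |(f w - f z).im| < 1 := (Complex.abs_im_le_norm _).trans_lt hw
    rw [abs_lt] at h3
    have hpi := Real.pi_gt_three
    rw [h2, Complex.log_exp (by linarith) (by linarith)]
    ring
  refine DifferentiableAt.congr_of_eventuallyEq ?_ hev
  refine (differentiableAt_const _).add ?_
  refine DifferentiableAt.clog ((hQ z hz).div_const _) ?_
  rw [div_self hQz]
  exact Complex.one_mem_slitPlane

/-- `F` continues `exp ∑ c_i e^{-s lam_i}`, complex `c_i`, meromorphically along `[s₀, σ₀]`. -/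
structure ContC {ι : Type} (lam : ι → ℝ) (c : ι → ℂ) (s₀ σ₀ : ℝ) (F : ℂ → ℂ) : Prop where
  lt : s₀ < σ₀
  nonneg : ∀ i, 0 ≤ lam i
  sum : ∀ σ : ℝ, σ₀ < σ → Summable fun i => ‖c i‖ * Real.exp (-(σ * lam i))
  mero : ∀ x : ℝ, s₀ ≤ x → x ≤ σ₀ → MeromorphicAt F (x : ℂ)
  eq : ∀ s : ℂ, σ₀ < s.re → F s = Complex.exp (∑' i, c i * Complex.exp (-(s * lam i)))

/-- the rotated mean, complex coefficients -/
noncomputable def rotC {ι : Type} (lam : ι → ℝ) (c : ι → ℂ) (s₀ γ T : ℝ) : ℂ :=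
  ∑' i, c i * Complex.exp (-(s₀ * lam i)) *
    (Complex.exp ((γ * (lam i / T) : ℝ) * Complex.I) / (Real.Gamma (1 + lam i / T) : ℂ))

section

variable {ι : Type} {lam : ι → ℝ} {c : ι → ℂ} {s₀ σ₀ : ℝ} {F : ℂ → ℂ}

theorem summ_cplx (h : ContC lam c s₀ σ₀ F) {b : ι → ℝ} (hb : ∀ i, |b i| ≤ ‖c i‖) {s : ℂ}
    (hs : σ₀ < s.re) : Summable fun i => (b i : ℂ) * Complex.exp (-(s * lam i)) := by
  refine Summable.of_norm_bounded (h.sum s.re hs) fun i => ?_
  rw [norm_mul, Complex.norm_real, Real.norm_eq_abs, Complex.norm_exp]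
  have h1 : (-(s * (lam i : ℂ))).re = -(s.re * lam i) := by
    rw [Complex.neg_re, Complex.re_mul_ofReal]
  rw [h1]
  exact mul_le_mul_of_nonneg_right (hb i) (Real.exp_pos _).le

theorem ContC.split (h : ContC lam c s₀ σ₀ F) {s : ℂ} (hs : σ₀ < s.re) :
    ∑' i, c i * Complex.exp (-(s * lam i)) =
      ∑' i, ((c i).re : ℂ) * Complex.exp (-(s * lam i)) +
      Complex.I * ∑' i, ((c i).im : ℂ) * Complex.exp (-(s * lam i)) := by
  rw [← tsum_mul_left, ← Summable.tsum_add (summ_cplx h (fun i => Complex.abs_re_le_norm _) hs)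
    ((summ_cplx h (fun i => Complex.abs_im_le_norm _) hs).mul_left _)]
  refine tsum_congr fun i => ?_
  nth_rewrite 1 [← Complex.re_add_im (c i)]
  ring

theorem ContC.right (h : ContC lam c s₀ σ₀ F) {s : ℂ} (hs : σ₀ < s.re) :
    F s / refl F s =
      Complex.exp (2 * Complex.I * ∑' i, ((c i).im : ℂ) * Complex.exp (-(s * lam i))) := by
  have hs' : σ₀ < (conj s).re := by rwa [Complex.conj_re]
  unfold refl
  rw [h.eq s hs, h.eq _ hs', ← Complex.exp_conj, ← Complex.exp_sub, h.split hs, h.split hs']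
  congr 1
  have e1 : ∀ b : ι → ℝ, conj (∑' i, (b i : ℂ) * Complex.exp (-(conj s * lam i))) =
      ∑' i, (b i : ℂ) * Complex.exp (-(s * lam i)) := by
    intro b
    rw [Complex.conj_tsum]
    refine tsum_congr fun i => ?_
    rw [map_mul, Complex.conj_ofReal, ← Complex.exp_conj, map_neg, map_mul, Complex.conj_conj,
      Complex.conj_ofReal]
  rw [map_add, map_mul, Complex.conj_I, e1, e1]
  ring

/-- the series of the imaginary parts is differentiable -/
theorem ser_diff (h : ContC lam c s₀ σ₀ F) {b : ι → ℝ} (hb : ∀ i, |b i| ≤ ‖c i‖) {s : ℂ}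
    (hs : σ₀ < s.re) : AnalyticAt ℂ (fun s : ℂ => ∑' i, (b i : ℂ) * Complex.exp (-(s * lam i))) s := by
  set σ : ℝ := (σ₀ + s.re) / 2 with hσ
  have hσ1 : σ₀ < σ := by rw [hσ]; linarith
  have hσw : σ < s.re := by rw [hσ]; linarith
  have hopen : IsOpen {z : ℂ | σ < z.re} := isOpen_lt continuous_const Complex.continuous_re
  have h1 : DifferentiableOn ℂ (fun s : ℂ => ∑' i, (b i : ℂ) * Complex.exp (-(s * lam i)))
      {z : ℂ | σ < z.re} := by
    refine Complex.differentiableOn_tsum_of_summable_norm (h.sum σ hσ1) (fun i => ?_) hopen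
      (fun i z hz => ?_)
    · exact Differentiable.differentiableOn (by fun_prop)
    · rw [norm_mul, Complex.norm_real, Real.norm_eq_abs, Complex.norm_exp]
      refine mul_le_mul (hb i) ?_ (Real.exp_pos _).le (norm_nonneg _)
      apply Real.exp_le_exp.2
      have h2 : (-(z * (lam i : ℂ))).re = -(z.re * lam i) := by
        rw [Complex.neg_re, Complex.re_mul_ofReal]
      rw [h2]
      have hz' : σ < z.re := hz
      have := h.nonneg i
      nlinarith
  exact h1.analyticAt (hopen.mem_nhds hσw)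

/-- the orders are finite on the segment -/
theorem ContC.order_ne_top (h : ContC lam c s₀ σ₀ F) {x : ℝ} (hx : s₀ ≤ x) (hx1 : x ≤ σ₀) :
    meromorphicOrderAt F (x : ℂ) ≠ ⊤ := by
  set U : Set ℂ := (fun x : ℝ => (x : ℂ)) '' Icc s₀ (σ₀ + 1) with hU
  have hright : ∀ s : ℂ, σ₀ < s.re → AnalyticAt ℂ F s ∧ F s ≠ 0 := by
    intro s hs
    have hopen : IsOpen {z : ℂ | σ₀ < z.re} := isOpen_lt continuous_const Complex.continuous_re
    constructor
    · have h1 := (ser_diff h (b := fun i => (c i).re) (fun i => Complex.abs_re_le_norm _) hs).add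
        ((analyticAt_const (v := Complex.I)).mul
          (ser_diff h (b := fun i => (c i).im) (fun i => Complex.abs_im_le_norm _) hs))
      refine h1.cexp.congr ?_
      filter_upwards [hopen.mem_nhds hs] with z hz
      rw [h.eq z hz, h.split hz]
      rfl
    · rw [h.eq s hs]
      exact Complex.exp_ne_zero _
  have hm : MeromorphicOn F U := by
    rintro _ ⟨y, hy, rfl⟩
    by_cases hy1 : y ≤ σ₀
    · exact h.mero y hy.1 hy1
    · push Not at hy1
      exact (hright y (by simpa using hy1)).1.meromorphicAt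
  have hc : IsPreconnected U :=
    isPreconnected_Icc.image _ (Continuous.continuousOn (by fun_prop))
  refine hm.meromorphicOrderAt_ne_top_of_isPreconnected hc (x := ((σ₀ + 1 : ℝ) : ℂ))
    ⟨σ₀ + 1, ⟨by linarith, le_rfl⟩, rfl⟩ ⟨x, ⟨hx, by linarith⟩, rfl⟩ ?_
  have h1 := hright ((σ₀ + 1 : ℝ) : ℂ) (by rw [Complex.ofReal_re]; linarith)
  rw [h1.1.meromorphicOrderAt_eq, h1.1.analyticOrderAt_eq_zero.2 h1.2]
  exact WithTop.zero_ne_top

/-- **The logarithm of `F(s) / conj F(conj s)` near the real segment.** -/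
theorem ContC.exists_log (h : ContC lam c s₀ σ₀ F) :
    ∃ (V : Set ℂ) (f : ℂ → ℂ), IsOpen V ∧ (∀ x : ℝ, s₀ ≤ x → x ≤ σ₀ → (x : ℂ) ∈ V) ∧
      (∀ z ∈ V, AnalyticAt ℂ f z) ∧ (∀ x : ℝ, s₀ ≤ x → x ≤ σ₀ → (f (x : ℂ)).re = 0) ∧
      ∀ z ∈ V, σ₀ < z.re →
        f z = 2 * Complex.I * ∑' i, ((c i).im : ℂ) * Complex.exp (-(z * lam i)) := by
  set H : ℂ → ℂ := fun s => F s / refl F s with hH
  have hopen : IsOpen {z : ℂ | σ₀ < z.re} := isOpen_lt continuous_const Complex.continuous_re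
  have hHr : ∀ s : ℂ, σ₀ < s.re → AnalyticAt ℂ H s := by
    intro s hs
    have h1 := (analyticAt_const (v := 2 * Complex.I) (x := s)).mul
      (ser_diff h (b := fun i => (c i).im) (fun i => Complex.abs_im_le_norm _) hs)
    refine h1.cexp.congr ?_
    filter_upwards [hopen.mem_nhds hs] with z hz
    exact (h.right hz).symm
  have hloc : ∀ x : ℝ, s₀ ≤ x → x ≤ σ₀ + 1 → MeromorphicAt H (x : ℂ) ∧
      ∃ q : ℂ → ℂ, AnalyticAt ℂ q (x : ℂ) ∧ (q (x : ℂ) ≠ 0) ∧ (x ≤ σ₀ → ‖q (x : ℂ)‖ = 1) ∧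
        H =ᶠ[𝓝[≠] (x : ℂ)] q := by
    intro x hx hx1
    by_cases hx2 : x ≤ σ₀
    · obtain ⟨h1, q, hq, hq1, hq2⟩ := refl_local (h.mero x hx hx2) (h.order_ne_top hx hx2)
      refine ⟨(h.mero x hx hx2).div h1, q, hq, ?_, fun _ => hq1, hq2⟩
      intro h0
      rw [h0, norm_zero] at hq1
      exact zero_ne_one hq1
    · push Not at hx2
      have h1 := hHr (x : ℂ) (by simpa using hx2)
      refine ⟨h1.meromorphicAt, H, h1, ?_, fun h3 => absurd h3 (not_le.2 hx2), EventuallyEq.rfl⟩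
      rw [hH]
      simp only
      rw [h.right (by simpa using hx2)]
      exact Complex.exp_ne_zero _
  set U : Set ℂ := {z | MeromorphicAt H z} with hU
  have hHU : MeromorphicOn H U := fun z hz => hz
  set Q : ℂ → ℂ := toMeromorphicNFOn H U with hQ
  have hNF : MeromorphicNFOn Q U := meromorphicNFOn_toMeromorphicNFOn H U
  have hQx : ∀ x : ℝ, s₀ ≤ x → x ≤ σ₀ + 1 → AnalyticAt ℂ Q (x : ℂ) ∧ Q (x : ℂ) ≠ 0 ∧
      (x ≤ σ₀ → ‖Q (x : ℂ)‖ = 1) := by
    intro x hx hx1
    obtain ⟨h1, q, hq, hq0, hq1, hq2⟩ := hloc x hx hx1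
    have hxU : (x : ℂ) ∈ U := h1
    have hord : meromorphicOrderAt Q (x : ℂ) = 0 := by
      rw [hQ, meromorphicOrderAt_toMeromorphicNFOn hHU hxU, meromorphicOrderAt_congr hq2,
        hq.meromorphicOrderAt_eq, hq.analyticOrderAt_eq_zero.2 hq0]
      rfl
    have hQa : AnalyticAt ℂ Q (x : ℂ) :=
      (hNF hxU).meromorphicOrderAt_nonneg_iff_analyticAt.1 hord.ge
    have hQn : Q =ᶠ[𝓝[≠] (x : ℂ)] q :=
      (hHU.toMeromorphicNFOn_eq_self_on_nhdsNE hxU).trans hq2
    have hQq : Q =ᶠ[𝓝 (x : ℂ)] q :=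
      (hQa.continuousAt.eventuallyEq_nhds_iff_eventuallyEq_nhdsNE hq.continuousAt).1 hQn
    rw [hQq.eq_of_nhds]
    exact ⟨hQa, hq0, hq1⟩
  -- the neighbourhood
  set O : Set ℂ := {z | AnalyticAt ℂ Q z ∧ Q z ≠ 0} with hO
  have hOo : IsOpen O := by
    rw [isOpen_iff_mem_nhds]
    rintro z ⟨h1, h2⟩
    filter_upwards [(isOpen_analyticAt ℂ Q).mem_nhds h1, h1.continuousAt.eventually_ne h2]
      with w h3 h4
    exact ⟨h3, h4⟩
  set K : Set ℂ := (fun x : ℝ => (x : ℂ)) '' Icc s₀ (σ₀ + 1) with hK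
  have hKc : IsCompact K := isCompact_Icc.image (by fun_prop)
  have hKO : K ⊆ O := by
    rintro _ ⟨x, hx, rfl⟩
    have := hQx x hx.1 hx.2
    exact ⟨this.1, this.2.1⟩
  have hKconv : Convex ℝ K := by
    have : K = Complex.ofRealCLM.toLinearMap '' Icc s₀ (σ₀ + 1) := rfl
    rw [this]
    exact (convex_Icc _ _).linear_image _
  obtain ⟨δ, hδ, hVO⟩ := hKc.exists_thickening_subset_open hOo hKO
  set V : Set ℂ := Metric.thickening δ K with hV
  have hVopen : IsOpen V := Metric.isOpen_thickening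
  have hVconv : Convex ℝ V := hKconv.thickening δ
  have hmemV : ∀ x : ℝ, s₀ ≤ x → x ≤ σ₀ + 1 → (x : ℂ) ∈ V := fun x hx hx1 =>
    Metric.self_subset_thickening hδ K ⟨x, ⟨hx, hx1⟩, rfl⟩
  have hp : ((σ₀ + 1 : ℝ) : ℂ) ∈ V := hmemV _ (by linarith [h.lt]) le_rfl
  have hVsc : IsSimplyConnected V := by
    have h1 : ContractibleSpace V := hVconv.contractibleSpace ⟨_, hp⟩
    exact (inferInstance : SimplyConnectedSpace V)
  obtain ⟨f, hfc, hfQ⟩ := Complex.exists_continuousOn_eqOn_exp_comp hVsc hVopen (g := Q)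
    (fun z hz => (hVO hz).1.continuousAt.continuousWithinAt) (by
      rintro ⟨z, hz, hz0⟩
      exact (hVO hz).2 hz0)
  have hfd := log_diff hVopen hfc hfQ fun z hz => (hVO hz).1.differentiableAt
  -- comparison with the series
  set g : ℂ → ℂ := fun z => 2 * Complex.I * ∑' i, ((c i).im : ℂ) * Complex.exp (-(z * lam i)) with hg
  set W : Set ℂ := V ∩ {z | σ₀ < z.re} with hW
  have hWo : IsOpen W := hVopen.inter hopen
  have hWc : Convex ℝ W := hVconv.inter (convex_halfSpace_re_gt σ₀)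
  have hga : ∀ z ∈ W, AnalyticAt ℂ g z := fun z hz =>
    (analyticAt_const (v := 2 * Complex.I) (x := z)).mul
      (ser_diff h (b := fun i => (c i).im) (fun i => Complex.abs_im_le_norm _) hz.2)
  have hQg : ∀ z ∈ W, Q z = Complex.exp (g z) := by
    intro z hz
    have h1 := hHr z hz.2
    have h2 : Q =ᶠ[𝓝[≠] z] H := hHU.toMeromorphicNFOn_eq_self_on_nhdsNE h1.meromorphicAt
    have h3 := ((hVO hz.1).1.continuousAt.eventuallyEq_nhds_iff_eventuallyEq_nhdsNE
      h1.continuousAt).1 h2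
    rw [h3.eq_of_nhds]
    exact h.right hz.2
  have hderiv : ∀ z ∈ W, deriv (fun z => f z - g z) z = 0 := by
    intro z hz
    have h1 : Complex.exp (f z) = Q z := hfQ hz.1
    have h2 : HasDerivAt (fun w => Complex.exp (f w)) (Complex.exp (f z) * deriv f z) z :=
      (hfd z hz.1).hasDerivAt.cexp
    have h3 : HasDerivAt (fun w => Complex.exp (g w)) (Complex.exp (g z) * deriv g z) z :=
      ((hga z hz).differentiableAt).hasDerivAt.cexp
    have h4 : (fun w => Complex.exp (f w)) =ᶠ[𝓝 z] fun w => Complex.exp (g w) := by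
      filter_upwards [hWo.mem_nhds hz] with w hw
      rw [← hQg w hw]
      exact hfQ hw.1
    have h5 := (h2.congr_of_eventuallyEq h4.symm).unique h3
    rw [← hQg z hz, h1] at h5
    have h6 := mul_left_cancel₀ (hVO hz.1).2 h5
    have h7 := ((hfd z hz.1).hasDerivAt.sub ((hga z hz).differentiableAt).hasDerivAt).deriv
    have h8 : deriv (fun z => f z - g z) z = deriv f z - deriv g z := h7
    rw [h8, h6, sub_self]
  obtain ⟨κ, hκ⟩ := hWo.exists_is_const_of_deriv_eq_zero hWc.isPreconnected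
    (f := fun z => f z - g z)
    (fun z hz => ((hfd z hz.1).sub (hga z hz).differentiableAt).differentiableWithinAt)
    (fun z hz => hderiv z hz)
  have hpW : ((σ₀ + 1 : ℝ) : ℂ) ∈ W := ⟨hp, by
    show σ₀ < ((σ₀ + 1 : ℝ) : ℂ).re
    rw [Complex.ofReal_re]; linarith⟩
  have hκ1 : Complex.exp κ = 1 := by
    have h1 : f ((σ₀ + 1 : ℝ) : ℂ) - g ((σ₀ + 1 : ℝ) : ℂ) = κ := hκ _ hpW
    rw [← h1, Complex.exp_sub, ← hQg _ hpW]
    have h2 : Complex.exp (f ((σ₀ + 1 : ℝ) : ℂ)) = Q ((σ₀ + 1 : ℝ) : ℂ) := hfQ hp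
    rw [h2, div_self (hVO hp).2]
  refine ⟨V, fun z => f z - κ, hVopen, fun x hx hx1 => hmemV x hx (by linarith), ?_, ?_, ?_⟩
  · intro z hz
    rw [Complex.analyticAt_iff_eventually_differentiableAt]
    filter_upwards [hVopen.mem_nhds hz] with w hw
    exact (hfd w hw).sub_const κ
  · intro x hx hx1
    have h1 : Complex.exp (f (x : ℂ) - κ) = Q (x : ℂ) := by
      rw [Complex.exp_sub, hκ1, div_one]
      exact hfQ (hmemV x hx (by linarith))
    have h2 := congrArg norm h1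
    rw [Complex.norm_exp, (hQx x hx (by linarith)).2.2 hx1] at h2
    exact Real.exp_eq_one_iff _ |>.1 h2
  · intro z hz hz1
    have h1 : f z - g z = κ := hκ z ⟨hz, hz1⟩
    show f z - κ = g z
    rw [← h1]
    ring

/-- **The abstract law for complex coefficients.** -/
theorem lawC [Countable ι] (h : ContC lam c s₀ σ₀ F) {γ : ℝ} (hγ : Real.pi / 2 < γ) :
    ∃ (m : ℤ) (r : ℂ), meromorphicOrderAt F s₀ = m ∧ Complex.exp r = meromorphicTrailingCoeffAt F s₀ ∧
      (fun T : ℝ => rotC lam c s₀ γ T - (r - m * (Real.log T - Lam γ))) =O[atTop]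
        (fun T : ℝ => 1 / T) := by
  classical
  obtain ⟨V, f, hVo, hVx, hfa, hfr, hfs⟩ := h.exists_log
  set a : ι → ℝ := fun i => (c i).re with ha
  set b : ι → ℝ := fun i => (c i).im with hb
  have hab : ∀ i, |a i| ≤ ‖c i‖ := fun i => Complex.abs_re_le_norm _
  have hbb : ∀ i, |b i| ≤ ‖c i‖ := fun i => Complex.abs_im_le_norm _
  have hsx : ∀ x : ℝ, s₀ ≤ x → x ≤ σ₀ → V ∈ 𝓝 (x : ℂ) := fun x hx hx1 =>
    hVo.mem_nhds (hVx x hx hx1)
  -- the two real functions
  set A : ℂ → ℂ := fun s => if σ₀ < s.re then Complex.exp (∑' i, (a i : ℂ) * Complex.exp (-(s * lam i)))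
    else F s * Complex.exp (-(f s / 2)) with hA
  set B : ℂ → ℂ := fun s => if σ₀ < s.re then Complex.exp (∑' i, (b i : ℂ) * Complex.exp (-(s * lam i)))
    else Complex.exp (-(Complex.I * f s / 2)) with hB
  have hAV : ∀ s ∈ V, A s = F s * Complex.exp (-(f s / 2)) := by
    intro s hs
    by_cases h1 : σ₀ < s.re
    · rw [hA]
      simp only [h1, if_true]
      rw [h.eq s h1, h.split h1, hfs s hs h1, ← Complex.exp_add]
      congr 1
      ring
    · rw [hA]
      simp only [h1, if_false]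
  have hBV : ∀ s ∈ V, B s = Complex.exp (-(Complex.I * f s / 2)) := by
    intro s hs
    by_cases h1 : σ₀ < s.re
    · rw [hB]
      simp only [h1, if_true]
      rw [hfs s hs h1]
      congr 1
      have h2 : Complex.I * (2 * Complex.I * ∑' i, ((c i).im : ℂ) * Complex.exp (-(s * lam i))) / 2 =
          (Complex.I * Complex.I) * ∑' i, ((c i).im : ℂ) * Complex.exp (-(s * lam i)) := by ring
      rw [h2, Complex.I_mul_I]
      ring
    · rw [hB]
      simp only [h1, if_false]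
  have hAe : ∀ x : ℝ, s₀ ≤ x → x ≤ σ₀ → A =ᶠ[𝓝 (x : ℂ)] fun s => F s * Complex.exp (-(f s / 2)) := by
    intro x hx hx1
    filter_upwards [hsx x hx hx1] with s hs using hAV s hs
  have hBe : ∀ x : ℝ, s₀ ≤ x → x ≤ σ₀ → B =ᶠ[𝓝 (x : ℂ)] fun s => Complex.exp (-(Complex.I * f s / 2)) := by
    intro x hx hx1
    filter_upwards [hsx x hx hx1] with s hs using hBV s hs
  have hfx : ∀ x : ℝ, s₀ ≤ x → x ≤ σ₀ → AnalyticAt ℂ f (x : ℂ) := fun x hx hx1 =>
    hfa _ (hVx x hx hx1)
  have hEa : ∀ x : ℝ, s₀ ≤ x → x ≤ σ₀ →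
      AnalyticAt ℂ (fun s => Complex.exp (-(f s / 2))) (x : ℂ) := fun x hx hx1 => by
    have := hfx x hx hx1
    exact ((this.div analyticAt_const (by norm_num)).neg).cexp
  have hBa : ∀ x : ℝ, s₀ ≤ x → x ≤ σ₀ → AnalyticAt ℂ B (x : ℂ) := fun x hx hx1 => by
    have := hfx x hx hx1
    exact (((analyticAt_const.mul this).div analyticAt_const (by norm_num)).neg.cexp).congr
      (hBe x hx hx1).symm
  have hContA : Cont lam a s₀ σ₀ A := by
    refine ⟨h.lt, h.nonneg, fun σ hσ => ?_, fun x hx hx1 => ?_, fun s hs => ?_⟩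
    · exact Summable.of_nonneg_of_le (fun i => by positivity)
        (fun i => mul_le_mul_of_nonneg_right (hab i) (Real.exp_pos _).le) (h.sum σ hσ)
    · exact ((h.mero x hx hx1).mul (hEa x hx hx1).meromorphicAt).congr
        ((hAe x hx hx1).filter_mono nhdsWithin_le_nhds).symm
    · rw [hA]
      simp only [hs, if_true]
  have hContB : Cont lam b s₀ σ₀ B := by
    refine ⟨h.lt, h.nonneg, fun σ hσ => ?_, fun x hx hx1 => (hBa x hx hx1).meromorphicAt,
      fun s hs => ?_⟩
    · exact Summable.of_nonneg_of_le (fun i => by positivity)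
        (fun i => mul_le_mul_of_nonneg_right (hbb i) (Real.exp_pos _).le) (h.sum σ hσ)
    · rw [hB]
      simp only [hs, if_true]
  obtain ⟨m, ra, hm, hra, -, hOa⟩ := law hContA hγ
  obtain ⟨n, rb, hn, hrb, hrbi, hOb⟩ := law hContB hγ
  -- the function `B`
  have hBord : ∀ x : ℝ, s₀ ≤ x → x ≤ σ₀ → meromorphicOrderAt B (x : ℂ) = 0 := by
    intro x hx hx1
    have h1 := hBa x hx hx1
    rw [h1.meromorphicOrderAt_eq, h1.analyticOrderAt_eq_zero.2 (by
      rw [hBV _ (hVx x hx hx1)]; exact Complex.exp_ne_zero _)]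
    rfl
  have hn0 : n = 0 := by
    rw [hBord s₀ le_rfl h.lt.le] at hn
    exact_mod_cast hn.symm
  have hexc : excess B s₀ = 0 := by
    unfold excess
    refine finsum_mem_eq_zero_of_forall_eq_zero fun σ hσ => ?_
    by_cases h1 : σ ≤ σ₀
    · rw [hBord σ (le_of_lt hσ) h1]
      rfl
    · push Not at h1
      rw [hContB.order_right h1]
      rfl
  rw [hexc] at hrbi
  have hrbi0 : rb.im = 0 := by rw [hrbi]; simp
  have hf0 : (f (s₀ : ℂ)).re = 0 := hfr s₀ le_rfl h.lt.le
  have htrB : meromorphicTrailingCoeffAt B (s₀ : ℂ) = Complex.exp (-(Complex.I * f s₀ / 2)) := by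
    have h1 := hBa s₀ le_rfl h.lt.le
    have h2 : B (s₀ : ℂ) = Complex.exp (-(Complex.I * f s₀ / 2)) := hBV _ (hVx s₀ le_rfl h.lt.le)
    rw [h1.meromorphicTrailingCoeffAt_of_ne_zero (by rw [h2]; exact Complex.exp_ne_zero _), h2]
  have him : (-(Complex.I * f s₀ / 2)).im = 0 := by
    have : (-(Complex.I * f s₀ / 2)).im = -((f s₀).re / 2) := by
      simp
    rw [this, hf0]
    simp
  have hrbv : rb = -(Complex.I * f s₀ / 2) := by
    rw [htrB] at hrb
    have h1 : rb = ((rb.re : ℝ) : ℂ) := by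
      apply Complex.ext <;> simp [hrbi0]
    have h2 : -(Complex.I * f s₀ / 2) = (((-(Complex.I * f s₀ / 2)).re : ℝ) : ℂ) := by
      apply Complex.ext
      · simp
      · rw [him]; simp
    rw [h1, h2, ← Complex.ofReal_exp, ← Complex.ofReal_exp] at hrb
    have h3 := Real.exp_injective (by exact_mod_cast hrb)
    rw [h1, h2, h3]
  -- the function `A`
  have hordA : meromorphicOrderAt A (s₀ : ℂ) = meromorphicOrderAt F (s₀ : ℂ) := by
    rw [meromorphicOrderAt_congr ((hAe s₀ le_rfl h.lt.le).filter_mono nhdsWithin_le_nhds)]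
    have h1 := hEa s₀ le_rfl h.lt.le
    have h2 : meromorphicOrderAt (fun s => Complex.exp (-(f s / 2))) (s₀ : ℂ) = 0 := by
      rw [h1.meromorphicOrderAt_eq, h1.analyticOrderAt_eq_zero.2 (Complex.exp_ne_zero _)]
      rfl
    have h3 := meromorphicOrderAt_mul (h.mero s₀ le_rfl h.lt.le) h1.meromorphicAt
    rw [h2, add_zero] at h3
    exact h3
  have htrA : meromorphicTrailingCoeffAt A (s₀ : ℂ) =
      meromorphicTrailingCoeffAt F (s₀ : ℂ) * Complex.exp (-(f s₀ / 2)) := by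
    rw [meromorphicTrailingCoeffAt_congr_nhdsNE
      ((hAe s₀ le_rfl h.lt.le).filter_mono nhdsWithin_le_nhds)]
    have h1 := hEa s₀ le_rfl h.lt.le
    have h2 := MeromorphicAt.meromorphicTrailingCoeffAt_mul (h.mero s₀ le_rfl h.lt.le)
      h1.meromorphicAt
    have h3 : meromorphicTrailingCoeffAt (fun s => Complex.exp (-(f s / 2))) (s₀ : ℂ) =
        Complex.exp (-(f s₀ / 2)) :=
      h1.meromorphicTrailingCoeffAt_of_ne_zero (Complex.exp_ne_zero _)
    rw [h3] at h2
    exact h2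
  refine ⟨m, ra + Complex.I * rb, ?_, ?_, ?_⟩
  · rw [← hordA, hm]
  · rw [Complex.exp_add, hra, htrA, mul_assoc, ← Complex.exp_add, hrbv]
    have h1 : -(f (s₀ : ℂ) / 2) + Complex.I * -(Complex.I * f (s₀ : ℂ) / 2) = 0 := by
      have h2 : Complex.I * -(Complex.I * f (s₀ : ℂ) / 2) =
          -(Complex.I * Complex.I) * (f (s₀ : ℂ) / 2) := by ring
      rw [h2, Complex.I_mul_I]
      ring
    rw [h1, Complex.exp_zero, mul_one]
  · have hsplit : ∀ᶠ T : ℝ in atTop, rotC lam c s₀ γ T =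
        rot lam a s₀ γ T + Complex.I * rot lam b s₀ γ T := by
      filter_upwards [eventually_gt_atTop 0] with T hT
      unfold rotC rot
      rw [← tsum_mul_left, ← Summable.tsum_add (rot_summable hContA hT γ).of_norm
        ((rot_summable hContB hT γ).of_norm.mul_left _)]
      refine tsum_congr fun i => ?_
      nth_rewrite 1 [← Complex.re_add_im (c i)]
      ring
    rw [hn0] at hOb
    have h1 := hOa.add (hOb.const_mul_left Complex.I)
    refine h1.congr' ?_ EventuallyEq.rfl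
    filter_upwards [hsplit] with T hT
    rw [hT]
    push_cast
    ring

end

end Pool.Agent.Q45.ML
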