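import Pool.Agent.Q45.ML.Conseq
import Pool.Agent.Q45.ML.Cplx

/-!
# Euler products

Places `v` with norms `q v ≥ 2`, `∑ q v^{-σ} < ∞` for `σ > d`, local parameters `α v j` (`j < n`) with
`|α v j| ≤ q v^θ`; `F(s) = ∏_v ∏_j (1 - α v j q v^{-s})⁻¹` for `Re s > θ + d`.
-/

set_option autoImplicit false

namespace Pool.Agent.Q45.ML

open Filter Topology Set Asymptotics
open Pool.Agent.W189.ML Pool.Agent.W189.LC Pool.Agent.W187.UR

/-- data of an Euler product -/
structure Eul {P : Type} (n : ℕ) (q : P → ℝ) (α : P → Fin n → ℂ) (θ d : ℝ) : Prop where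
  d_nonneg : 0 ≤ d
  two_le : ∀ v, 2 ≤ q v
  sum : ∀ σ : ℝ, d < σ → Summable fun v => q v ^ (-σ)
  bound : ∀ v j, ‖α v j‖ ≤ q v ^ θ

/-- the frequencies `k log q v`, `k = x.2 + 1` -/
noncomputable def fq {P : Type} (q : P → ℝ) (x : P × ℕ) : ℝ := (x.2 + 1) * Real.log (q x.1)

/-- the coefficients `(∑_j α v j^k) / k`, `k = x.2 + 1` -/
noncomputable def ca {P : Type} {n : ℕ} (α : P → Fin n → ℂ) (x : P × ℕ) : ℂ :=
  (∑ j, α x.1 j ^ (x.2 + 1)) / (x.2 + 1)

/-- the term at `(v, k)`, `k = x.2 + 1`, of the smoothed sum: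
`(∑_j α v j^k) / (k q v^{k s₀}) · e^{iγ k log q v / T} / Γ(1 + k log q v / T)` -/
noncomputable def sterm {P : Type} {n : ℕ} (q : P → ℝ) (α : P → Fin n → ℂ) (s₀ γ T : ℝ)
    (x : P × ℕ) : ℂ :=
  (∑ j, α x.1 j ^ (x.2 + 1)) / ((x.2 + 1) * (q x.1 : ℂ) ^ (((x.2 + 1) * s₀ : ℝ) : ℂ)) *
    (Complex.exp ((γ * ((x.2 + 1) * Real.log (q x.1) / T) : ℝ) * Complex.I) /
      (Real.Gamma (1 + (x.2 + 1) * Real.log (q x.1) / T) : ℂ))

/-- the smoothed sum `∑_{v,k} (∑_j α v j^k) / (k q v^{k s₀}) · e^{iγ k log q v / T} / Γ(1 + k log q v / T)` -/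
noncomputable def smooth {P : Type} {n : ℕ} (q : P → ℝ) (α : P → Fin n → ℂ) (s₀ γ T : ℝ) : ℂ :=
  ∑' x, sterm q α s₀ γ T x

variable {P : Type} {n : ℕ} {q : P → ℝ} {α : P → Fin n → ℂ} {θ d : ℝ}

theorem Eul.qpos (E : Eul n q α θ d) (v : P) : 0 < q v := by linarith [E.two_le v]

theorem Eul.countable (E : Eul n q α θ d) : Countable P := by
  have h := (E.sum (d + 1) (by linarith)).countable_support
  have h1 : Function.support (fun v => q v ^ (-(d + 1))) = univ := by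
    ext v
    simp only [Function.mem_support, mem_univ, iff_true]
    exact (Real.rpow_pos_of_pos (E.qpos v) _).ne'
  rw [h1] at h
  exact countable_univ_iff.1 h

theorem Eul.fq_nonneg (E : Eul n q α θ d) (x : P × ℕ) : 0 ≤ fq q x := by
  unfold fq
  have := Real.log_nonneg (by linarith [E.two_le x.1] : 1 ≤ q x.1)
  positivity

theorem Eul.exp_fq (E : Eul n q α θ d) (σ : ℝ) (x : P × ℕ) :
    Real.exp (-(σ * fq q x)) = (q x.1 ^ (-σ)) ^ (x.2 + 1) := by
  have hq0 := E.qpos x.1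
  rw [← Real.rpow_natCast, ← Real.rpow_mul hq0.le, Real.rpow_def_of_pos hq0]
  unfold fq
  congr 1
  push_cast
  ring

theorem Eul.ca_le (E : Eul n q α θ d) (x : P × ℕ) : ‖ca α x‖ ≤ n * (q x.1 ^ θ) ^ (x.2 + 1) := by
  unfold ca
  have h0 : ‖(x.2 + 1 : ℂ)‖ = x.2 + 1 := by
    rw [show (x.2 + 1 : ℂ) = ((x.2 + 1 : ℕ) : ℂ) by push_cast; ring, Complex.norm_natCast]
    push_cast; ring
  rw [norm_div, h0, div_le_iff₀ (by positivity)]
  have h1 : ‖∑ j, α x.1 j ^ (x.2 + 1)‖ ≤ ∑ _j : Fin n, (q x.1 ^ θ) ^ (x.2 + 1) := by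
    refine (norm_sum_le _ _).trans (Finset.sum_le_sum fun j _ => ?_)
    rw [norm_pow]
    exact pow_le_pow_left₀ (norm_nonneg _) (E.bound _ _) _
  rw [Finset.sum_const, Finset.card_univ, Fintype.card_fin, nsmul_eq_mul] at h1
  refine h1.trans ?_
  have h2 : 0 ≤ (n : ℝ) * (q x.1 ^ θ) ^ (x.2 + 1) := by
    have := (E.qpos x.1).le
    positivity
  have h3 : (1 : ℝ) ≤ x.2 + 1 := by
    have : (0 : ℝ) ≤ x.2 := x.2.cast_nonneg
    linarith
  exact le_mul_of_one_le_right h2 h3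

theorem Eul.term_le (E : Eul n q α θ d) {σ : ℝ} (hσ : θ + d < σ) (x : P × ℕ) :
    ‖ca α x‖ * Real.exp (-(σ * fq q x)) ≤
      n * q x.1 ^ (-(σ - θ)) * ((2 : ℝ) ^ (-(σ - θ))) ^ x.2 := by
  have hq0 := E.qpos x.1
  rw [E.exp_fq]
  calc ‖ca α x‖ * (q x.1 ^ (-σ)) ^ (x.2 + 1)
      ≤ n * (q x.1 ^ θ) ^ (x.2 + 1) * (q x.1 ^ (-σ)) ^ (x.2 + 1) := by
        gcongr
        exact E.ca_le x
    _ = n * (q x.1 ^ (-(σ - θ))) ^ (x.2 + 1) := by
        rw [mul_assoc, ← mul_pow, ← Real.rpow_add hq0]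
        congr 3
        ring
    _ = n * q x.1 ^ (-(σ - θ)) * (q x.1 ^ (-(σ - θ))) ^ x.2 := by
        rw [pow_succ]; ring
    _ ≤ _ := by
        have h1 : q x.1 ^ (-(σ - θ)) ≤ (2 : ℝ) ^ (-(σ - θ)) :=
          Real.rpow_le_rpow_of_nonpos (by norm_num) (E.two_le _) (by linarith [E.d_nonneg])
        gcongr

theorem Eul.summable (E : Eul n q α θ d) {σ : ℝ} (hσ : θ + d < σ) :
    Summable fun x => ‖ca α x‖ * Real.exp (-(σ * fq q x)) := by
  have hg : Summable fun k : ℕ => ((2 : ℝ) ^ (-(σ - θ))) ^ k :=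
    summable_geometric_of_lt_one (by positivity)
      (Real.rpow_lt_one_of_one_lt_of_neg (by norm_num) (by linarith [E.d_nonneg]))
  have h1 := ((E.sum (σ - θ) (by linarith)).mul_left (n : ℝ)).mul_of_nonneg hg
    (fun v => by
      have := (E.qpos v).le
      show 0 ≤ (n : ℝ) * q v ^ (-(σ - θ))
      positivity) (fun k => by positivity)
  exact Summable.of_nonneg_of_le (fun x => by positivity) (fun x => E.term_le hσ x) h1

/-- the Euler factor at `v` in terms of the series -/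
theorem Eul.factor_sum (E : Eul n q α θ d) {s : ℂ} (hs : θ + d < s.re) (v : P) :
    HasSum (fun k : ℕ => ca α (v, k) * Complex.exp (-(s * fq q (v, k))))
      (∑ j, -Complex.log (1 - α v j * (q v : ℂ) ^ (-s))) ∧
    Complex.exp (∑ j, -Complex.log (1 - α v j * (q v : ℂ) ^ (-s))) =
      ∏ j, (1 - α v j * (q v : ℂ) ^ (-s))⁻¹ := by
  have hq0 := E.qpos v
  have hqc : (q v : ℂ) ≠ 0 := by exact_mod_cast hq0.ne'
  set x : ℂ := (q v : ℂ) ^ (-s) with hx
  have hb : ∀ j, ‖α v j * x‖ < 1 := by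
    intro j
    rw [norm_mul, hx, Complex.norm_cpow_eq_rpow_re_of_pos hq0]
    calc ‖α v j‖ * q v ^ (-s).re ≤ q v ^ θ * q v ^ (-s).re := by
          gcongr
          exact E.bound v j
      _ = q v ^ (-(s.re - θ)) := by
          rw [← Real.rpow_add hq0, Complex.neg_re]
          congr 1
          ring
      _ < 1 := Real.rpow_lt_one_of_one_lt_of_neg (by linarith [E.two_le v])
          (by linarith [E.d_nonneg])
  have hterm : ∀ k : ℕ, ca α (v, k) * Complex.exp (-(s * fq q (v, k))) =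
      ∑ j, (α v j * x) ^ (k + 1) / ((k + 1 : ℕ) : ℂ) := by
    intro k
    have e1 : x ^ (k + 1) = Complex.exp (-(s * fq q (v, k))) := by
      rw [hx, Complex.cpow_def_of_ne_zero hqc, ← Complex.exp_nat_mul]
      congr 1
      unfold fq
      rw [← Complex.ofReal_log hq0.le]
      push_cast
      ring
    rw [← e1]
    unfold ca
    simp only [mul_pow]
    rw [← Finset.sum_div, ← Finset.sum_mul]
    push_cast
    ring
  have hs' : ∀ z : ℂ, ‖z‖ < 1 →
      HasSum (fun k : ℕ => z ^ (k + 1) / ((k + 1 : ℕ) : ℂ)) (-Complex.log (1 - z)) := by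
    intro z hz
    have := Complex.hasSum_taylorSeries_neg_log hz
    rw [← hasSum_nat_add_iff' 1] at this
    simpa using this
  constructor
  · simp only [hterm]
    exact hasSum_sum fun j _ => hs' _ (hb j)
  · rw [Complex.exp_sum]
    refine Finset.prod_congr rfl fun j _ => ?_
    have hne : 1 - α v j * x ≠ 0 := by
      intro h
      have := hb j
      rw [sub_eq_zero] at h
      rw [← h] at this
      simp at this
    rw [Complex.exp_neg, Complex.exp_log hne]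

theorem Eul.csummable (E : Eul n q α θ d) {s : ℂ} (hs : θ + d < s.re) :
    Summable fun x : P × ℕ => ca α x * Complex.exp (-(s * fq q x)) := by
  refine Summable.of_norm_bounded (E.summable hs) fun x => ?_
  rw [norm_mul, Complex.norm_exp]
  have : (-(s * fq q x)).re = -(s.re * fq q x) := by rw [Complex.neg_re, Complex.re_mul_ofReal]
  rw [this]

/-- the Euler product is the exponential of the series -/
theorem Eul.hasProd (E : Eul n q α θ d) {s : ℂ} (hs : θ + d < s.re) :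
    HasProd (fun v => ∏ j, (1 - α v j * (q v : ℂ) ^ (-s))⁻¹)
      (Complex.exp (∑' x, ca α x * Complex.exp (-(s * fq q x)))) := by
  have h1 := (E.csummable hs).hasSum
  have h2 := h1.prod_fiberwise (fun v => (E.factor_sum hs v).1)
  have h3 := h2.cexp
  have h4 : (Complex.exp ∘ fun v => ∑ j, -Complex.log (1 - α v j * (q v : ℂ) ^ (-s))) =
      fun v => ∏ j, (1 - α v j * (q v : ℂ) ^ (-s))⁻¹ := by
    funext v
    exact (E.factor_sum hs v).2
  rw [h4] at h3
  exact h3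

/-- the abstract data, complex parameters -/
theorem Eul.contC (E : Eul n q α θ d) {F : ℂ → ℂ} {s₀ : ℝ} (hs₀ : s₀ < θ + d)
    (hmer : ∀ x : ℝ, s₀ ≤ x → x ≤ θ + d → MeromorphicAt F (x : ℂ))
    (hF : ∀ s : ℂ, θ + d < s.re → HasProd (fun v => ∏ j, (1 - α v j * (q v : ℂ) ^ (-s))⁻¹) (F s)) :
    ContC (fq q) (ca α) s₀ (θ + d) F :=
  ⟨hs₀, E.fq_nonneg, fun _ hσ => E.summable hσ, hmer, fun s hs => (hF s hs).unique (E.hasProd hs)⟩

/-- the parameters at each place are real or come in conjugate pairs: real power sums -/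
def RealSums {P : Type} {n : ℕ} (α : P → Fin n → ℂ) : Prop :=
  ∀ v, ∀ k : ℕ, (∑ j, α v j ^ k).im = 0

theorem RealSums.ca_re (hr : RealSums α) (x : P × ℕ) : (((ca α x).re : ℝ) : ℂ) = ca α x := by
  apply Complex.ext
  · simp
  · have h1 := hr x.1 (x.2 + 1)
    unfold ca
    rw [Complex.ofReal_im, show (x.2 + 1 : ℂ) = ((x.2 + 1 : ℝ) : ℂ) by push_cast; ring,
      Complex.div_ofReal_im, h1, zero_div]

/-- the abstract data, real power sums -/
theorem Eul.cont (E : Eul n q α θ d) (hr : RealSums α) {F : ℂ → ℂ} {s₀ : ℝ} (hs₀ : s₀ < θ + d)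
    (hmer : ∀ x : ℝ, s₀ ≤ x → x ≤ θ + d → MeromorphicAt F (x : ℂ))
    (hF : ∀ s : ℂ, θ + d < s.re → HasProd (fun v => ∏ j, (1 - α v j * (q v : ℂ) ^ (-s))⁻¹) (F s)) :
    Cont (fq q) (fun x => (ca α x).re) s₀ (θ + d) F := by
  refine ⟨hs₀, E.fq_nonneg, fun σ hσ => ?_, hmer, fun s hs => ?_⟩
  · exact Summable.of_nonneg_of_le (fun x => by positivity)
      (fun x => mul_le_mul_of_nonneg_right (Complex.abs_re_le_norm _) (Real.exp_pos _).le)
      (E.summable hσ)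
  · rw [(hF s hs).unique (E.hasProd hs)]
    simp only [hr.ca_re]

theorem Eul.sterm_eq (E : Eul n q α θ d) (s₀ γ T : ℝ) (x : P × ℕ) :
    sterm q α s₀ γ T x = ca α x * Complex.exp (-(s₀ * fq q x)) *
      (Complex.exp ((γ * (fq q x / T) : ℝ) * Complex.I) / (Real.Gamma (1 + fq q x / T) : ℂ)) := by
  have hq0 := E.qpos x.1
  have hqc : (q x.1 : ℂ) ≠ 0 := by exact_mod_cast hq0.ne'
  unfold sterm ca fq
  congr 1
  rw [Complex.cpow_def_of_ne_zero hqc, Complex.exp_neg, ← div_eq_mul_inv, div_div]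
  congr 3
  rw [← Complex.ofReal_log hq0.le]
  push_cast
  ring

theorem Eul.smooth_rotC (E : Eul n q α θ d) (s₀ γ T : ℝ) :
    smooth q α s₀ γ T = rotC (fq q) (ca α) s₀ γ T :=
  tsum_congr fun x => E.sterm_eq s₀ γ T x

theorem Eul.smooth_rot (E : Eul n q α θ d) (hr : RealSums α) (s₀ γ T : ℝ) :
    smooth q α s₀ γ T = rot (fq q) (fun x => (ca α x).re) s₀ γ T := by
  unfold rot
  refine tsum_congr fun x => ?_
  rw [E.sterm_eq s₀ γ T x, hr.ca_re]

/-- **Euler products, complex parameters.** -/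
theorem Eul.lawC (E : Eul n q α θ d) {F : ℂ → ℂ} {s₀ : ℝ} (hs₀ : s₀ < θ + d)
    (hmer : ∀ x : ℝ, s₀ ≤ x → x ≤ θ + d → MeromorphicAt F (x : ℂ))
    (hF : ∀ s : ℂ, θ + d < s.re → HasProd (fun v => ∏ j, (1 - α v j * (q v : ℂ) ^ (-s))⁻¹) (F s))
    {γ : ℝ} (hγ : Real.pi / 2 < γ) :
    ∃ (m : ℤ) (r : ℂ), meromorphicOrderAt F s₀ = m ∧ Complex.exp r = meromorphicTrailingCoeffAt F s₀ ∧
      (fun T : ℝ => smooth q α s₀ γ T - (r - m * (Real.log T - Lam γ))) =O[atTop]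
        (fun T : ℝ => 1 / T) := by
  have := E.countable
  obtain ⟨m, r, h1, h2, h3⟩ := Pool.Agent.Q45.ML.lawC (E.contC hs₀ hmer hF) hγ
  refine ⟨m, r, h1, h2, ?_⟩
  simp only [E.smooth_rotC]
  exact h3

/-- **Euler products, real power sums.** -/
theorem Eul.law (E : Eul n q α θ d) (hr : RealSums α) {F : ℂ → ℂ} {s₀ : ℝ} (hs₀ : s₀ < θ + d)
    (hmer : ∀ x : ℝ, s₀ ≤ x → x ≤ θ + d → MeromorphicAt F (x : ℂ))
    (hF : ∀ s : ℂ, θ + d < s.re → HasProd (fun v => ∏ j, (1 - α v j * (q v : ℂ) ^ (-s))⁻¹) (F s))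
    {γ : ℝ} (hγ : Real.pi / 2 < γ) :
    ∃ (m : ℤ) (r : ℂ), meromorphicOrderAt F s₀ = m ∧ Complex.exp r = meromorphicTrailingCoeffAt F s₀ ∧
      r.im = -Real.pi * excess F s₀ ∧
      (fun T : ℝ => smooth q α s₀ γ T - (r - m * (Real.log T - Lam γ))) =O[atTop]
        (fun T : ℝ => 1 / T) := by
  have := E.countable
  obtain ⟨m, r, h1, h2, h3, h4⟩ := Pool.Agent.Q45.ML.law (E.cont hr hs₀ hmer hF) hγ
  refine ⟨m, r, h1, h2, h3, ?_⟩
  simp only [E.smooth_rot hr]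
  exact h4

/-- absolute convergence of the smoothed sums -/
theorem Eul.sterm_summable (E : Eul n q α θ d) (s₀ γ : ℝ) {T : ℝ} (hT : 0 < T) :
    Summable fun x => ‖sterm q α s₀ γ T x‖ := by
  set y : ℝ := |θ + d + 1 - s₀| + 1 with hy
  have hy0 : 0 < y := by positivity
  have hyle : θ + d + 1 ≤ s₀ + y := by
    have := le_abs_self (θ + d + 1 - s₀)
    linarith
  set T' : ℝ := T * y / 2 with hT'
  have hT'0 : 0 < T' := by positivity
  have h1 := E.summable (σ := s₀ + y) (by linarith)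
  refine Summable.of_nonneg_of_le (fun _ => norm_nonneg _) (fun x => ?_)
    (h1.mul_left (Real.exp (Real.exp (2 * T')) + 1))
  have h0 : 0 ≤ fq q x := E.fq_nonneg x
  have h2 : om (fq q x / T) ≤
      (Real.exp (Real.exp (2 * T')) + 1) * Real.exp (-(2 * T' * (fq q x / T))) :=
    om_le (by positivity) (div_nonneg h0 hT.le)
  have h3 : 2 * T' * (fq q x / T) = y * fq q x := by
    rw [hT']
    field_simp
  rw [h3] at h2
  have h5 : 0 < 1 + fq q x / T := by
    have := div_nonneg h0 hT.le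
    linarith
  have h6 : ‖sterm q α s₀ γ T x‖ = ‖ca α x‖ * Real.exp (-(s₀ * fq q x)) * om (fq q x / T) := by
    rw [E.sterm_eq, norm_mul, norm_mul, norm_div, Complex.norm_exp_ofReal_mul_I, Complex.norm_real,
      Real.norm_eq_abs, Complex.norm_exp, abs_of_pos (Real.Gamma_pos_of_pos h5)]
    have h7 : (-((s₀ : ℂ) * (fq q x : ℂ))).re = -(s₀ * fq q x) := by
      rw [← Complex.ofReal_mul, Complex.neg_re, Complex.ofReal_re]
    rw [h7]
    unfold om
    rw [one_div]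
  rw [h6]
  calc _ ≤ ‖ca α x‖ * Real.exp (-(s₀ * fq q x)) * ((Real.exp (Real.exp (2 * T')) + 1) *
        Real.exp (-(y * fq q x))) := mul_le_mul_of_nonneg_left h2 (by positivity)
    _ = (Real.exp (Real.exp (2 * T')) + 1) * (‖ca α x‖ *
        (Real.exp (-(s₀ * fq q x)) * Real.exp (-(y * fq q x)))) := by ring
    _ = _ := by
        rw [← Real.exp_add]
        congr 3
        ring

/-- the four equivalent forms of `ord_{s = s₀} F = k` for a smoothed sum `S` -/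
def OrderForms (F : ℂ → ℂ) (s₀ : ℝ) (S : ℝ → ℂ) (k : ℤ) : Prop :=
  List.TFAE [meromorphicOrderAt F s₀ = k,
    ∃ M : ℝ, ∀ᶠ T : ℝ in atTop, |(S T).re + k * Real.log T| ≤ M,
    Tendsto (fun T : ℝ => (S T).re / Real.log T) atTop (𝓝 (-k)),
    ∃ t : ℕ → ℝ, Tendsto t atTop atTop ∧
      Tendsto (fun n => (S (t n)).re / Real.log (t n)) atTop (𝓝 (-k))]

/-- the three equivalent forms of `ord_{s = s₀} F = k`, leading coefficient `B`, for a smoothed sum -/
def CoeffForms (F : ℂ → ℂ) (s₀ γ : ℝ) (S : ℝ → ℂ) (k : ℤ) (B : ℂ) : Prop :=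
  List.TFAE [meromorphicOrderAt F s₀ = k ∧ meromorphicTrailingCoeffAt F s₀ = B,
    Tendsto (fun T : ℝ => Complex.exp (S T) * (T : ℂ) ^ k) atTop
      (𝓝 (B * Complex.exp (k * Lam γ))),
    ∃ t : ℕ → ℝ, Tendsto t atTop atTop ∧
      Tendsto (fun n => Complex.exp (S (t n)) * (t n : ℂ) ^ k) atTop
        (𝓝 (B * Complex.exp (k * Lam γ)))]

theorem order_forms {F : ℂ → ℂ} {s₀ γ : ℝ} {S : ℝ → ℂ} {m : ℤ} {r : ℂ}
    (hm : meromorphicOrderAt F s₀ = m)
    (hO : (fun T : ℝ => S T - (r - m * (Real.log T - Lam γ))) =O[atTop] (fun T : ℝ => 1 / T))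
    (k : ℤ) : OrderForms F s₀ S k := by
  have h := order_tfae hO k
  have e : (meromorphicOrderAt F s₀ = k) ↔ m = k := by
    rw [hm]
    exact WithTop.coe_inj
  unfold OrderForms
  rw [e]
  exact h

theorem coeff_forms {F : ℂ → ℂ} {s₀ γ : ℝ} {S : ℝ → ℂ} {m : ℤ} {r : ℂ}
    (hm : meromorphicOrderAt F s₀ = m) (hr : Complex.exp r = meromorphicTrailingCoeffAt F s₀)
    (hO : (fun T : ℝ => S T - (r - m * (Real.log T - Lam γ))) =O[atTop] (fun T : ℝ => 1 / T))
    (k : ℤ) {B : ℂ} (hB : B ≠ 0) : CoeffForms F s₀ γ S k B := by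
  have h := coeff_tfae hO k hB
  have e : (meromorphicOrderAt F s₀ = k ∧ meromorphicTrailingCoeffAt F s₀ = B) ↔
      (m = k ∧ Complex.exp r = B) := by
    rw [hm, hr]
    exact and_congr_left fun _ => WithTop.coe_inj
  unfold CoeffForms
  rw [e]
  exact h

end Pool.Agent.Q45.ML
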