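import Pool.Agent.Q45.ML.Val

/-! Limits and closed sets; Euler products over the rational numbers given by polynomials. -/

set_option autoImplicit false

namespace Pool.Agent.Q45.ML

open Filter Topology Set Asymptotics
open Pool.Agent.W189.ML Pool.Agent.W189.LC Pool.Agent.W187.UR

theorem closed_tfae {X : Type} [PseudoMetricSpace X] {K : Set X} (hK : IsClosed K) (hne : K.Nonempty)
    {f : ℝ → X} {x : X} (hf : Tendsto f atTop (𝓝 x)) : List.TFAE [x ∈ K,
      Tendsto (fun T => Metric.infDist (f T) K) atTop (𝓝 0),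
      ∃ t : ℕ → ℝ, Tendsto t atTop atTop ∧ Tendsto (fun i => Metric.infDist (f (t i)) K) atTop (𝓝 0)] := by
  have h0 : Tendsto (fun T => Metric.infDist (f T) K) atTop (𝓝 (Metric.infDist x K)) :=
    ((Metric.continuous_infDist_pt K).tendsto x).comp hf
  tfae_have 1 → 2 := by
    intro hx
    rwa [Metric.infDist_zero_of_mem hx] at h0
  tfae_have 2 → 3 := fun h => ⟨fun n => n, tendsto_natCast_atTop_atTop, h.comp tendsto_natCast_atTop_atTop⟩
  tfae_have 3 → 1 := by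
    rintro ⟨t, ht, h⟩
    have h1 := tendsto_nhds_unique (h0.comp ht) h
    exact (hK.mem_iff_infDist_zero hne).2 h1
  tfae_finish

theorem tendsto_of_rate {f : ℝ → ℂ} {z : ℂ} (h : (fun T : ℝ => f T - z) =O[atTop] fun T : ℝ => 1 / T) :
    Tendsto f atTop (𝓝 z) := by
  have h1 : Tendsto (fun T : ℝ => f T - z) atTop (𝓝 0) :=
    h.trans_tendsto (tendsto_const_nhds.div_atTop tendsto_id)
  simpa using h1.add_const z

/-- the value of an Euler product at a point where the continuation is analytic -/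
theorem Eul.value {P : Type} {n : ℕ} {q : P → ℝ} {α : P → Fin n → ℂ} {θ d : ℝ} (E : Eul n q α θ d)
    {F : ℂ → ℂ} {s₀ : ℝ} (hs₀ : s₀ < θ + d)
    (hmer : ∀ x : ℝ, s₀ ≤ x → x ≤ θ + d → MeromorphicAt F (x : ℂ))
    (hF : ∀ s : ℂ, θ + d < s.re → HasProd (fun v => ∏ j, (1 - α v j * (q v : ℂ) ^ (-s))⁻¹) (F s))
    (hA : AnalyticAt ℂ F s₀) {γ : ℝ} (hγ : Real.pi / 2 < γ) :
    (fun T : ℝ => Complex.exp (smooth q α s₀ γ T) - F s₀) =O[atTop] (fun T : ℝ => 1 / T) := by
  obtain ⟨m, r, h1, h2, h3⟩ := E.lawC hs₀ hmer hF hγ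
  exact value_rate hA h1 h2 h3

theorem max_bound {θ : ℝ} (p : Nat.Primes) {z : ℂ} (h : ‖z‖ ≤ (p : ℝ) ^ θ) (y : ℝ) :
    ‖z‖ ≤ (p : ℝ) ^ (max θ y) := by
  refine h.trans (Real.rpow_le_rpow_of_exponent_le ?_ (le_max_left _ _))
  exact_mod_cast p.2.one_le

end Pool.Agent.Q45.ML
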