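import Pool.Agent.Q45.ML.Val
import Pool.Agent.Q45.ML.Lat

/-!
# The rotated law at complex points; one-sided criteria for holomorphy and non-vanishing

`csum q α ρ γ T` is the smoothed sum at the complex point `ρ`. `F` is continued along the horizontal ray to the right of
`ρ`. `pole_tfae`, `zero_tfae`: `F` has no pole (no zero) at `ρ` if and only if the real part is bounded above (below), if
and only if it is at most `(1 - ε) log T` (at least `-(1 - ε) log T`) along one sequence `T → ∞`.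
-/

set_option autoImplicit false

namespace Pool.Agent.Q45.ML

open Filter Topology Set Asymptotics
open Pool.Agent.W189.ML Pool.Agent.W189.LC Pool.Agent.W187.UR

variable {P : Type} {n : ℕ}

/-- the term at `(v, k)`, `k = x.2 + 1`, of the smoothed sum at the complex point `ρ`:
`(∑_j α v j^k) / (k q v^{k ρ}) · e^{iγ k log q v / T} / Γ(1 + k log q v / T)` -/
noncomputable def cterm (q : P → ℝ) (α : P → Fin n → ℂ) (ρ : ℂ) (γ T : ℝ) (x : P × ℕ) : ℂ :=
  (∑ j, α x.1 j ^ (x.2 + 1)) / ((x.2 + 1) * (q x.1 : ℂ) ^ ((x.2 + 1) * ρ)) *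
    (Complex.exp ((γ * ((x.2 + 1) * Real.log (q x.1) / T) : ℝ) * Complex.I) /
      (Real.Gamma (1 + (x.2 + 1) * Real.log (q x.1) / T) : ℂ))

/-- the smoothed sum at the complex point `ρ` -/
noncomputable def csum (q : P → ℝ) (α : P → Fin n → ℂ) (ρ : ℂ) (γ T : ℝ) : ℂ := ∑' x, cterm q α ρ γ T x

/-- the parameters twisted by `q v^{-it}` -/
noncomputable def vtw (q : P → ℝ) (α : P → Fin n → ℂ) (t : ℝ) (v : P) (j : Fin n) : ℂ :=
  α v j * (q v : ℂ) ^ (-(t * Complex.I))

variable {q : P → ℝ} {α : P → Fin n → ℂ} {θ d : ℝ}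

theorem Eul.mono (E : Eul n q α θ d) {θ' : ℝ} (h : θ ≤ θ') : Eul n q α θ' d :=
  ⟨E.d_nonneg, E.two_le, E.sum, fun v j => (E.bound v j).trans
    (Real.rpow_le_rpow_of_exponent_le (by linarith [E.two_le v]) h)⟩

theorem Eul.twi (E : Eul n q α θ d) (t : ℝ) : Eul n q (vtw q α t) θ d :=
  ⟨E.d_nonneg, E.two_le, E.sum, fun v j => by
    unfold vtw
    rw [norm_mul, Complex.norm_cpow_eq_rpow_re_of_pos (E.qpos v)]
    simp only [Complex.neg_re, Complex.mul_re, Complex.ofReal_re, Complex.I_re, mul_zero, Complex.ofReal_im,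
      Complex.I_im, mul_one, sub_self, neg_zero, Real.rpow_zero]
    exact E.bound v j⟩

theorem Eul.cterm_eq (E : Eul n q α θ d) (ρ : ℂ) (γ T : ℝ) (x : P × ℕ) :
    cterm q α ρ γ T x = sterm q (vtw q α ρ.im) ρ.re γ T x := by
  unfold cterm sterm
  congr 1
  have hq : (q x.1 : ℂ) ≠ 0 := by exact_mod_cast (E.qpos x.1).ne'
  set k : ℕ := x.2 + 1 with hk
  have e1 : (q x.1 : ℂ) ^ ((x.2 + 1 : ℂ) * ρ) =
      (q x.1 : ℂ) ^ ((((x.2 + 1) * ρ.re : ℝ)) : ℂ) * ((q x.1 : ℂ) ^ (ρ.im * Complex.I)) ^ k := by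
    rw [← Complex.cpow_nat_mul, ← Complex.cpow_add _ _ hq]
    congr 1
    conv_lhs => rw [← Complex.re_add_im ρ]
    push_cast
    rw [hk]
    push_cast
    ring
  have e2 : ∑ j, vtw q α ρ.im x.1 j ^ k = (∑ j, α x.1 j ^ k) * (((q x.1 : ℂ) ^ (ρ.im * Complex.I)) ^ k)⁻¹ := by
    rw [Finset.sum_mul]
    refine Finset.sum_congr rfl fun j _ => ?_
    unfold vtw
    rw [mul_pow, Complex.cpow_neg, inv_pow]
  have h3 : ((q x.1 : ℂ) ^ (ρ.im * Complex.I)) ^ k ≠ 0 := pow_ne_zero _ (by
    rw [Complex.cpow_def_of_ne_zero hq]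
    exact Complex.exp_ne_zero _)
  rw [e1, e2]
  field_simp

theorem shift_an (t : ℝ) (x : ℂ) : AnalyticAt ℂ (fun w : ℂ => w + t * Complex.I) x := by fun_prop

theorem shift_deriv (t : ℝ) (x : ℂ) : deriv (fun w : ℂ => w + t * Complex.I) x = 1 := by simp

theorem order_vert (F : ℂ → ℂ) (t : ℝ) (x : ℂ) :
    meromorphicOrderAt (fun w => F (w + t * Complex.I)) x = meromorphicOrderAt F (x + t * Complex.I) := by
  have h := meromorphicOrderAt_comp_of_deriv_ne_zero (f := F) (shift_an t x) (by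
    rw [shift_deriv]; exact one_ne_zero)
  exact h

theorem coeff_vert {F : ℂ → ℂ} {t : ℝ} {x : ℂ} (h : MeromorphicAt F (x + t * Complex.I)) :
    meromorphicTrailingCoeffAt (fun w => F (w + t * Complex.I)) x =
      meromorphicTrailingCoeffAt F (x + t * Complex.I) := by
  have hnc : ¬EventuallyConst (fun w : ℂ => w + t * Complex.I) (𝓝 x) := by
    rw [eventuallyConst_iff_analyticOrderAt_sub_eq_top]
    have h1 := (shift_an t x).analyticOrderAt_sub_eq_one_of_deriv_ne_zero (by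
      rw [shift_deriv]; exact one_ne_zero)
    rw [h1]
    exact ENat.one_ne_top
  have h1 := MeromorphicAt.meromorphicTrailingCoeffAt_comp (f := F) (x := x)
    (g := fun w : ℂ => w + t * Complex.I) h (shift_an t x) hnc
  have h2 : meromorphicTrailingCoeffAt (fun w : ℂ => w + t * Complex.I - (x + t * Complex.I)) x = 1 := by
    have e1 : (fun w : ℂ => w + t * Complex.I - (x + t * Complex.I)) =ᶠ[𝓝[≠] x]
        fun w => (w - x) ^ (1 : ℤ) • ((fun _ => (1 : ℂ)) w) := by
      filter_upwards with w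
      simp
    have e2 : AnalyticAt ℂ (fun _ : ℂ => (1 : ℂ)) x := analyticAt_const
    exact e2.meromorphicTrailingCoeffAt_of_ne_zero_of_eq_nhdsNE one_ne_zero e1
  rw [h2] at h1
  simpa [Function.comp_def] using h1

theorem Eul.csum_eq (E : Eul n q α θ d) (ρ : ℂ) (γ T : ℝ) :
    csum q α ρ γ T = smooth q (vtw q α ρ.im) ρ.re γ T := by
  unfold csum smooth
  exact tsum_congr fun x => E.cterm_eq ρ γ T x

theorem Eul.cterm_summable (E : Eul n q α θ d) (ρ : ℂ) (γ : ℝ) {T : ℝ} (hT : 0 < T) :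
    Summable fun x => ‖cterm q α ρ γ T x‖ := by
  simp only [E.cterm_eq]
  exact (E.twi ρ.im).sterm_summable ρ.re γ hT

/-- **the law at a complex point** -/
theorem Eul.claw (E : Eul n q α θ d) {F : ℂ → ℂ} (ρ : ℂ)
    (hmer : ∀ x : ℝ, ρ.re ≤ x → MeromorphicAt F (x + ρ.im * Complex.I))
    (hF : ∀ s : ℂ, θ + d < s.re → HasProd (fun v => ∏ j, (1 - α v j * (q v : ℂ) ^ (-s))⁻¹) (F s))
    {γ : ℝ} (hγ : Real.pi / 2 < γ) :
    ∃ (m : ℤ) (r : ℂ), meromorphicOrderAt F ρ = m ∧ Complex.exp r = meromorphicTrailingCoeffAt F ρ ∧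
      (fun T : ℝ => csum q α ρ γ T - (r - m * (Real.log T - Lam γ))) =O[atTop]
        (fun T : ℝ => 1 / T) := by
  set θ' : ℝ := max θ ρ.re + 1 with hθ'
  have hd := E.d_nonneg
  have h1 : θ ≤ θ' := by rw [hθ']; linarith [le_max_left θ ρ.re]
  have h2 : ρ.re < θ' + d := by rw [hθ']; linarith [le_max_right θ ρ.re]
  have hρ : (ρ.re : ℂ) + ρ.im * Complex.I = ρ := Complex.re_add_im ρ
  obtain ⟨m, r, g1, g2, g3⟩ := ((E.mono h1).twi ρ.im).lawC (F := fun s => F (s + ρ.im * Complex.I))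
    (s₀ := ρ.re) h2 (fun x hx _ => (hmer x hx).comp_analyticAt (f := F)
      (g := fun w : ℂ => w + ρ.im * Complex.I) (shift_an _ _)) (fun s hs => by
      have h3 : θ + d < (s + ρ.im * Complex.I).re := by
        simp
        linarith
      refine (hF _ h3).congr_fun fun v => ?_
      refine Finset.prod_congr rfl fun j _ => ?_
      have hq : (q v : ℂ) ≠ 0 := by exact_mod_cast (E.qpos v).ne'
      unfold vtw
      rw [neg_add, Complex.cpow_add _ _ hq]
      ring_nf) hγ
  rw [order_vert, hρ] at g1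
  rw [coeff_vert (by rw [hρ]; simpa [hρ] using hmer ρ.re le_rfl), hρ] at g2
  refine ⟨m, r, g1, g2, ?_⟩
  simp only [E.csum_eq]
  exact g3

/-! ### one-sided criteria -/

section crit

variable {S : ℝ → ℂ} {γ : ℝ} {m : ℤ} {r : ℂ}

/-- difference of two laws -/
theorem law_sub {S' : ℝ → ℂ} {m' : ℤ} {r' : ℂ}
    (hO : (fun T : ℝ => S T - (r - m * (Real.log T - Lam γ))) =O[atTop] (fun T : ℝ => 1 / T))
    (hO' : (fun T : ℝ => S' T - (r' - m' * (Real.log T - Lam γ))) =O[atTop] (fun T : ℝ => 1 / T)) :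
    (fun T : ℝ => (S T - S' T) - ((r - r') - (m - m' : ℤ) * (Real.log T - Lam γ))) =O[atTop]
      (fun T : ℝ => 1 / T) := by
  refine (hO.sub hO').congr_left fun T => ?_
  push_cast
  ring

/-- **no pole**: the order is at least `0` iff the real part is bounded above, iff it is at most `(1-ε) log T` along
one sequence -/
theorem pole_tfae
    (hO : (fun T : ℝ => S T - (r - m * (Real.log T - Lam γ))) =O[atTop] (fun T : ℝ => 1 / T)) :
    List.TFAE [0 ≤ m, ∃ M : ℝ, ∀ᶠ T : ℝ in atTop, (S T).re ≤ M,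
      ∃ ε > 0, ∃ t : ℕ → ℝ, Tendsto t atTop atTop ∧ ∀ i, (S (t i)).re ≤ (1 - ε) * Real.log (t i)] := by
  have h1 := re_tendsto hO
  set c := r.re + m * (Lam γ).re with hc
  tfae_have 1 → 2 := by
    intro hm
    refine ⟨c + 1, ?_⟩
    filter_upwards [h1.eventually (eventually_le_nhds (lt_add_one _)), eventually_ge_atTop 1] with T h2 h3
    have h4 : 0 ≤ (m : ℝ) * Real.log T := mul_nonneg (by exact_mod_cast hm) (Real.log_nonneg h3)
    linarith
  tfae_have 2 → 3 := by
    rintro ⟨M, hM⟩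
    refine ⟨1 / 2, by norm_num, ?_⟩
    have h2 : ∀ᶠ T : ℝ in atTop, (S T).re ≤ (1 - 1 / 2) * Real.log T := by
      filter_upwards [hM, Real.tendsto_log_atTop.eventually_ge_atTop (2 * M)] with T h3 h4
      linarith
    obtain ⟨T₀, hT₀⟩ := eventually_atTop.1 h2
    exact ⟨fun i => max T₀ i, tendsto_atTop_mono (fun i => le_max_right _ _) tendsto_natCast_atTop_atTop,
      fun i => hT₀ _ (le_max_left _ _)⟩
  tfae_have 3 → 1 := by
    rintro ⟨ε, hε, t, ht, h⟩
    by_contra hm
    have hm1 : (m : ℝ) ≤ -1 := by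
      have : m ≤ -1 := by omega
      exact_mod_cast this
    have h2 := h1.comp ht
    have hlog := Real.tendsto_log_atTop.comp ht
    obtain ⟨i, h3, h4, h5⟩ := ((h2.eventually (eventually_ge_nhds (sub_one_lt c))).and
      ((hlog.eventually_gt_atTop ((1 - c) / ε)).and (hlog.eventually_gt_atTop 0))).exists
    simp only [Function.comp_apply] at h3 h4 h5
    have h6 := h i
    have h7 : (m : ℝ) * Real.log (t i) ≤ -1 * Real.log (t i) := mul_le_mul_of_nonneg_right hm1 h5.le
    rw [div_lt_iff₀ hε] at h4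
    nlinarith
  tfae_finish

/-- **no zero** -/
theorem zero_tfae
    (hO : (fun T : ℝ => S T - (r - m * (Real.log T - Lam γ))) =O[atTop] (fun T : ℝ => 1 / T)) :
    List.TFAE [m ≤ 0, ∃ M : ℝ, ∀ᶠ T : ℝ in atTop, M ≤ (S T).re,
      ∃ ε > 0, ∃ t : ℕ → ℝ, Tendsto t atTop atTop ∧ ∀ i, -((1 - ε) * Real.log (t i)) ≤ (S (t i)).re] := by
  have h1 := re_tendsto hO
  set c := r.re + m * (Lam γ).re with hc
  tfae_have 1 → 2 := by
    intro hm
    refine ⟨c - 1, ?_⟩
    filter_upwards [h1.eventually (eventually_ge_nhds (sub_one_lt c)), eventually_ge_atTop 1] with T h2 h3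
    have h4 : (m : ℝ) * Real.log T ≤ 0 :=
      mul_nonpos_of_nonpos_of_nonneg (by exact_mod_cast hm) (Real.log_nonneg h3)
    linarith
  tfae_have 2 → 3 := by
    rintro ⟨M, hM⟩
    refine ⟨1 / 2, by norm_num, ?_⟩
    have h2 : ∀ᶠ T : ℝ in atTop, -((1 - 1 / 2) * Real.log T) ≤ (S T).re := by
      filter_upwards [hM, Real.tendsto_log_atTop.eventually_ge_atTop (-(2 * M))] with T h3 h4
      linarith
    obtain ⟨T₀, hT₀⟩ := eventually_atTop.1 h2
    exact ⟨fun i => max T₀ i, tendsto_atTop_mono (fun i => le_max_right _ _) tendsto_natCast_atTop_atTop,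
      fun i => hT₀ _ (le_max_left _ _)⟩
  tfae_have 3 → 1 := by
    rintro ⟨ε, hε, t, ht, h⟩
    by_contra hm
    have hm1 : (1 : ℝ) ≤ m := by
      have : 1 ≤ m := by omega
      exact_mod_cast this
    have h2 := h1.comp ht
    have hlog := Real.tendsto_log_atTop.comp ht
    obtain ⟨i, h3, h4, h5⟩ := ((h2.eventually (eventually_le_nhds (lt_add_one c))).and
      ((hlog.eventually_gt_atTop ((1 + c) / ε)).and (hlog.eventually_gt_atTop 0))).exists
    simp only [Function.comp_apply] at h3 h4 h5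
    have h6 := h i
    have h7 : 1 * Real.log (t i) ≤ (m : ℝ) * Real.log (t i) := mul_le_mul_of_nonneg_right hm1 h5.le
    rw [div_lt_iff₀ hε] at h4
    nlinarith
  tfae_finish

end crit

/-! ### entire continuation -/

/-- a meromorphic function without poles agrees with an entire function wherever it is analytic -/
theorem exists_entire {F : ℂ → ℂ} (hF : ∀ z, MeromorphicAt F z) (ho : ∀ z, 0 ≤ meromorphicOrderAt F z) :
    ∃ G : ℂ → ℂ, Differentiable ℂ G ∧ ∀ z, AnalyticAt ℂ F z → G z = F z := by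
  have hM : MeromorphicOn F univ := fun z _ => hF z
  set G := toMeromorphicNFOn F univ with hG
  have hNF : MeromorphicNFOn G univ := meromorphicNFOn_toMeromorphicNFOn F univ
  have hord : ∀ z, meromorphicOrderAt G z = meromorphicOrderAt F z := fun z =>
    meromorphicOrderAt_toMeromorphicNFOn hM (mem_univ z)
  have han : ∀ z, AnalyticAt ℂ G z := fun z =>
    (hNF (mem_univ z)).meromorphicOrderAt_nonneg_iff_analyticAt.1 (by rw [hord]; exact ho z)
  refine ⟨G, fun z => (han z).differentiableAt, fun z hz => ?_⟩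
  have h1 : G =ᶠ[𝓝[≠] z] F := hM.toMeromorphicNFOn_eq_self_on_nhdsNE (mem_univ z)
  have h2 := (han z).continuousAt
  have h3 := hz.continuousAt
  have h4 : Tendsto G (𝓝[≠] z) (𝓝 (G z)) := h2.tendsto.mono_left nhdsWithin_le_nhds
  have h5 : Tendsto G (𝓝[≠] z) (𝓝 (F z)) := (h3.tendsto.mono_left nhdsWithin_le_nhds).congr' h1.symm
  exact tendsto_nhds_unique h4 h5

/-- identity theorem: meromorphic functions on `ℂ` which agree on a half plane have the same orders -/
theorem order_eq_of_halfplane {F G : ℂ → ℂ} (hF : ∀ z, MeromorphicAt F z) (hG : ∀ z, MeromorphicAt G z)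
    {σ : ℝ} (h : ∀ s : ℂ, σ < s.re → F s = G s) (z : ℂ) :
    meromorphicOrderAt F z = meromorphicOrderAt G z := by
  have hD : ∀ z, MeromorphicAt (F - G) z := fun z => (hF z).sub (hG z)
  have hDO : MeromorphicOn (F - G) univ := fun z _ => hD z
  have hopen : IsOpen {s : ℂ | σ < s.re} := isOpen_lt continuous_const Complex.continuous_re
  have htop : meromorphicOrderAt (F - G) ((σ + 1 : ℝ) : ℂ) = ⊤ := by
    rw [meromorphicOrderAt_eq_top_iff]
    have h1 : ∀ᶠ s in 𝓝 (((σ + 1 : ℝ)) : ℂ), s ∈ {s : ℂ | σ < s.re} :=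
      hopen.mem_nhds (by simp)
    filter_upwards [h1.filter_mono nhdsWithin_le_nhds] with s hs
    simp [h s hs]
  have hall : meromorphicOrderAt (F - G) z = ⊤ := by
    by_contra hne
    have h1 := (hDO.exists_meromorphicOrderAt_ne_top_iff_forall isConnected_univ).1
      ⟨⟨z, mem_univ z⟩, hne⟩
    exact h1 ⟨_, mem_univ _⟩ htop
  rw [meromorphicOrderAt_eq_top_iff] at hall
  refine meromorphicOrderAt_congr ?_
  filter_upwards [hall] with s hs
  exact sub_eq_zero.1 hs

end Pool.Agent.Q45.ML
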