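import Pool.Agent.Q45.ML.Gen

/-! Consequences of the abstract law: equivalences for the order and the leading coefficient. -/

set_option autoImplicit false

namespace Pool.Agent.Q45.ML

open Filter Topology Set Asymptotics
open Pool.Agent.W189.ML Pool.Agent.W189.LC Pool.Agent.W187.UR

variable {S : ℝ → ℂ} {γ : ℝ} {m : ℤ} {r : ℂ}

theorem diff_tendsto
    (hO : (fun T : ℝ => S T - (r - m * (Real.log T - Lam γ))) =O[atTop] (fun T : ℝ => 1 / T)) :
    Tendsto (fun T : ℝ => S T - (r - m * (Real.log T - Lam γ))) atTop (𝓝 0) :=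
  hO.trans_tendsto (tendsto_const_nhds.div_atTop tendsto_id)

/-- the product form -/
theorem tendsto_prod
    (hO : (fun T : ℝ => S T - (r - m * (Real.log T - Lam γ))) =O[atTop] (fun T : ℝ => 1 / T)) :
    Tendsto (fun T : ℝ => Complex.exp (S T) * (T : ℂ) ^ m) atTop
      (𝓝 (Complex.exp r * Complex.exp (m * Lam γ))) := by
  have h1 := diff_tendsto hO
  have h2 : Tendsto (fun T : ℝ => Complex.exp (S T - (r - m * (Real.log T - Lam γ))) *
      (Complex.exp r * Complex.exp (m * Lam γ))) atTop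
      (𝓝 (1 * (Complex.exp r * Complex.exp (m * Lam γ)))) := by
    refine Tendsto.mul_const _ ?_
    have := (Complex.continuous_exp.tendsto 0).comp h1
    simpa [Function.comp_def] using this
  rw [one_mul] at h2
  refine h2.congr' ?_
  filter_upwards [eventually_gt_atTop 0] with T hT
  have h3 : (T : ℂ) ^ m = Complex.exp (m * Real.log T) := by
    rw [Complex.exp_int_mul, ← Complex.ofReal_exp, Real.exp_log hT]
  rw [h3, ← Complex.exp_add, ← Complex.exp_add, ← Complex.exp_add]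
  congr 1
  ring

theorem re_tendsto
    (hO : (fun T : ℝ => S T - (r - m * (Real.log T - Lam γ))) =O[atTop] (fun T : ℝ => 1 / T)) :
    Tendsto (fun T : ℝ => (S T).re + m * Real.log T) atTop
      (𝓝 (r.re + m * (Lam γ).re)) := by
  have h1 := (Complex.continuous_re.tendsto 0).comp (diff_tendsto hO)
  have h2 := h1.add_const (r.re + m * (Lam γ).re)
  rw [Complex.zero_re, zero_add] at h2
  refine h2.congr fun T => ?_
  have e1 : ((m : ℂ) * ((Real.log T : ℂ) - Lam γ)).re = m * (Real.log T - (Lam γ).re) := by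
    have : (m : ℂ) = ((m : ℝ) : ℂ) := by push_cast; rfl
    rw [this, Complex.re_ofReal_mul, Complex.sub_re, Complex.ofReal_re]
  simp only [Function.comp_apply, Complex.sub_re]
  rw [e1]
  ring

/-- equivalences for the order -/
theorem order_tfae
    (hO : (fun T : ℝ => S T - (r - m * (Real.log T - Lam γ))) =O[atTop] (fun T : ℝ => 1 / T))
    (k : ℤ) : List.TFAE [m = k,
      ∃ M : ℝ, ∀ᶠ T : ℝ in atTop, |(S T).re + k * Real.log T| ≤ M,
      Tendsto (fun T : ℝ => (S T).re / Real.log T) atTop (𝓝 (-k)),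
      ∃ t : ℕ → ℝ, Tendsto t atTop atTop ∧
        Tendsto (fun n => (S (t n)).re / Real.log (t n)) atTop (𝓝 (-k))] := by
  have h1 := re_tendsto hO
  have hlog := Real.tendsto_log_atTop
  have hlim : Tendsto (fun T : ℝ => (S T).re / Real.log T) atTop (𝓝 (-m)) := by
    have h2 := (h1.div_atTop hlog).sub (tendsto_const_nhds (x := (m : ℝ)))
    rw [zero_sub] at h2
    refine h2.congr' ?_
    filter_upwards [hlog.eventually_gt_atTop 0] with T hT
    field_simp
    ring
  tfae_have 1 → 2 := by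
    rintro rfl
    refine ⟨|r.re + m * (Lam γ).re| + 1, ?_⟩
    exact h1.abs.eventually (eventually_le_nhds (lt_add_one _))
  tfae_have 2 → 3 := by
    rintro ⟨M, hM⟩
    have h2 : Tendsto (fun T : ℝ => ((S T).re + k * Real.log T) / Real.log T) atTop (𝓝 0) := by
      refine squeeze_zero_norm' (a := fun T => M / Real.log T) ?_
        (tendsto_const_nhds.div_atTop hlog)
      filter_upwards [hM, hlog.eventually_gt_atTop 0] with T h3 h4
      rw [norm_div, Real.norm_eq_abs, Real.norm_eq_abs, abs_of_pos h4]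
      gcongr
    have h3 := h2.sub (tendsto_const_nhds (x := (k : ℝ)))
    rw [zero_sub] at h3
    refine h3.congr' ?_
    filter_upwards [hlog.eventually_gt_atTop 0] with T hT
    field_simp
    ring
  tfae_have 3 → 4 := fun h =>
    ⟨fun n => n, tendsto_natCast_atTop_atTop, h.comp tendsto_natCast_atTop_atTop⟩
  tfae_have 4 → 1 := by
    rintro ⟨t, ht, h⟩
    have h2 := tendsto_nhds_unique (hlim.comp ht) h
    have h3 : (m : ℝ) = k := by linarith
    exact_mod_cast h3
  tfae_finish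

/-- equivalences for the order and the leading coefficient -/
theorem coeff_tfae
    (hO : (fun T : ℝ => S T - (r - m * (Real.log T - Lam γ))) =O[atTop] (fun T : ℝ => 1 / T))
    (k : ℤ) {B : ℂ} (hB : B ≠ 0) : List.TFAE [m = k ∧ Complex.exp r = B,
      Tendsto (fun T : ℝ => Complex.exp (S T) * (T : ℂ) ^ k) atTop
        (𝓝 (B * Complex.exp (k * Lam γ))),
      ∃ t : ℕ → ℝ, Tendsto t atTop atTop ∧
        Tendsto (fun n => Complex.exp (S (t n)) * (t n : ℂ) ^ k) atTop
          (𝓝 (B * Complex.exp (k * Lam γ)))] := by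
  tfae_have 1 → 2 := by
    rintro ⟨rfl, rfl⟩
    exact tendsto_prod hO
  tfae_have 2 → 3 := fun h =>
    ⟨fun n => n, tendsto_natCast_atTop_atTop, h.comp tendsto_natCast_atTop_atTop⟩
  tfae_have 3 → 1 := by
    rintro ⟨t, ht, h⟩
    have hL : B * Complex.exp (k * Lam γ) ≠ 0 := mul_ne_zero hB (Complex.exp_ne_zero _)
    have hlogt := Real.tendsto_log_atTop.comp ht
    -- real parts of the logarithms
    have h1 : Tendsto (fun n => (S (t n)).re + k * Real.log (t n)) atTop
        (𝓝 (Real.log ‖B * Complex.exp (k * Lam γ)‖)) := by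
      have h2 := (Real.continuousAt_log (norm_ne_zero_iff.2 hL)).tendsto.comp h.norm
      refine h2.congr' ?_
      filter_upwards [ht.eventually_gt_atTop 0] with n hn
      simp only [Function.comp_apply]
      rw [norm_mul, Complex.norm_exp, norm_zpow, Complex.norm_real, Real.norm_eq_abs,
        abs_of_pos hn, Real.log_mul (Real.exp_ne_zero _) (zpow_ne_zero _ hn.ne'), Real.log_exp,
        Real.log_zpow]
    have h2 := (re_tendsto hO).comp ht
    have h3 := h1.sub h2
    have h4 : (fun n => (S (t n)).re + k * Real.log (t n) -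
        ((fun T : ℝ => (S T).re + m * Real.log T) ∘ t) n) =
        fun n => ((k : ℝ) - m) * Real.log (t n) := by
      funext n
      simp only [Function.comp_apply]
      ring
    rw [h4] at h3
    have hkm : (k : ℝ) - m = 0 := by
      by_contra hne
      rcases lt_or_gt_of_ne hne with h5 | h5
      · exact not_tendsto_nhds_of_tendsto_atBot (hlogt.const_mul_atTop_of_neg h5) _ h3
      · exact not_tendsto_nhds_of_tendsto_atTop (hlogt.const_mul_atTop h5) _ h3
    have hmk : m = k := by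
      have : (m : ℝ) = k := by linarith
      exact_mod_cast this
    subst hmk
    refine ⟨rfl, ?_⟩
    have h5 := tendsto_nhds_unique ((tendsto_prod hO).comp ht) h
    exact mul_right_cancel₀ (Complex.exp_ne_zero _) h5
  tfae_finish

/-! ### the real kernel -/

/-- the real mean -/
noncomputable def plain {ι : Type} (lam c : ι → ℝ) (s₀ T : ℝ) : ℝ :=
  ∑' i, c i * Real.exp (-(s₀ * lam i)) / Real.Gamma (1 + lam i / T)

variable {ι : Type} {lam c : ι → ℝ} {s₀ σ₀ : ℝ} {F : ℂ → ℂ}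

theorem mean_plain (h : Cont lam c s₀ σ₀ F) (T : ℝ) :
    mean (fun i => (σ₀ - s₀) * lam i) (fun i => c i * Real.exp (-(s₀ * lam i))) ((σ₀ - s₀) * T) =
      plain lam c s₀ T := by
  have hd : σ₀ - s₀ ≠ 0 := by linarith [h.lt]
  unfold mean plain om
  refine tsum_congr fun i => ?_
  rw [mul_div_mul_left _ _ hd]
  exact (div_eq_mul_inv _ _).symm

theorem forall_aff (h : Cont lam c s₀ σ₀ F) :
    (∀ x ∈ Ioc (0 : ℝ) 1, meromorphicOrderAt (fun w => F ((s₀ : ℂ) + ((σ₀ - s₀ : ℝ) : ℂ) * w))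
      (x : ℂ) = 0) ↔ ∀ σ : ℝ, s₀ < σ → meromorphicOrderAt F (σ : ℂ) = 0 := by
  have hd : 0 < σ₀ - s₀ := by linarith [h.lt]
  constructor
  · intro h1 σ hσ
    by_cases h2 : σ ≤ σ₀
    · have h3 := h1 ((σ - s₀) / (σ₀ - s₀)) ⟨div_pos (by linarith) hd, by
        rw [div_le_one hd]; linarith⟩
      rw [order_aff F s₀ hd.ne'] at h3
      have e1 : (s₀ : ℂ) + ((σ₀ - s₀ : ℝ) : ℂ) * (((σ - s₀) / (σ₀ - s₀) : ℝ) : ℂ) = (σ : ℂ) := by
        rw [← Complex.ofReal_mul, mul_div_cancel₀ _ hd.ne', ← Complex.ofReal_add]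
        congr 1
        ring
      rwa [e1] at h3
    · push Not at h2
      exact h.order_right h2
  · intro h1 x hx
    rw [order_aff F s₀ hd.ne']
    have e1 : (s₀ : ℂ) + ((σ₀ - s₀ : ℝ) : ℂ) * (x : ℂ) = ((s₀ + (σ₀ - s₀) * x : ℝ) : ℂ) := by
      push_cast; ring
    rw [e1]
    refine h1 _ ?_
    have := mul_pos hd hx.1
    linarith

/-- the real kernel: no real zeros or poles -/
theorem plain_regular [Countable ι] (h : Cont lam c s₀ σ₀ F)
    (hz : ∀ σ : ℝ, s₀ < σ → meromorphicOrderAt F (σ : ℂ) = 0) :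
    ∃ (m : ℤ) (l : ℝ), meromorphicOrderAt F s₀ = m ∧ meromorphicTrailingCoeffAt F s₀ = l ∧ 0 < l ∧
      (fun T : ℝ => plain lam c s₀ T - (Real.log l - m * (Real.log T - kap))) =O[atTop]
        fun T : ℝ => 1 / T := by
  have hd : 0 < σ₀ - s₀ := by linarith [h.lt]
  have D := h.mdata
  obtain ⟨m, hm⟩ := WithTop.ne_top_iff_exists.1 (h.order_ne_top le_rfl h.lt.le)
  have hm0 : meromorphicOrderAt (fun w => F ((s₀ : ℂ) + ((σ₀ - s₀ : ℝ) : ℂ) * w)) 0 = m := by
    rw [order_aff F s₀ hd.ne', mul_zero, add_zero]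
    exact hm.symm
  obtain ⟨him, hpos, C, T₀, hC, hT₀, hO⟩ := D.mean_regular hm0 ((forall_aff h).2 hz)
  rw [coeff_aff hd.ne' (h.mero s₀ le_rfl h.lt.le), ← hm, WithTop.untop₀_coe] at him hpos hO
  have hdz : 0 < (σ₀ - s₀) ^ m := zpow_pos hd m
  have hcast : (((σ₀ - s₀ : ℝ) : ℂ)) ^ m = (((σ₀ - s₀) ^ m : ℝ) : ℂ) := by push_cast; rfl
  rw [hcast] at him hpos hO
  rw [Complex.im_ofReal_mul] at him
  rw [Complex.re_ofReal_mul] at hpos hO
  have hl0 : 0 < (meromorphicTrailingCoeffAt F s₀).re := by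
    by_contra hc
    push Not at hc
    nlinarith
  refine ⟨m, (meromorphicTrailingCoeffAt F s₀).re, hm.symm, ?_, hl0, ?_⟩
  · apply Complex.ext
    · simp
    · rcases mul_eq_zero.1 him with h1 | h1
      · exact absurd h1 hdz.ne'
      · simpa using h1
  · refine Asymptotics.IsBigO.of_bound (C / (σ₀ - s₀)) ?_
    filter_upwards [eventually_ge_atTop (T₀ / (σ₀ - s₀)), eventually_gt_atTop 0] with T hT hT0
    have h5 := hO ((σ₀ - s₀) * T) (by
      rw [div_le_iff₀ hd] at hT; linarith)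
    rw [mean_plain h, Real.log_mul hd.ne' hT0.ne', Real.log_mul hdz.ne' hl0.ne',
      Real.log_zpow] at h5
    rw [Real.norm_eq_abs, Real.norm_eq_abs, abs_of_pos (by positivity : 0 < 1 / T)]
    have h6 : C / (σ₀ - s₀) * (1 / T) = C / ((σ₀ - s₀) * T) := by
      field_simp
    rw [h6]
    refine le_trans (le_of_eq ?_) h5
    congr 1
    ring

/-- the real kernel: the last real zero or pole -/
theorem plain_singular [Countable ι] (h : Cont lam c s₀ σ₀ F)
    (hz : ∃ σ : ℝ, s₀ < σ ∧ meromorphicOrderAt F (σ : ℂ) ≠ 0) :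
    ∃ (β : ℝ) (m : ℤ), s₀ < β ∧ β ≤ σ₀ ∧ m ≠ 0 ∧ meromorphicOrderAt F (β : ℂ) = m ∧
      (∀ σ : ℝ, β < σ → meromorphicOrderAt F (σ : ℂ) = 0) ∧
      Tendsto (fun T : ℝ => plain lam c s₀ T / grow ((β - s₀) * T)) atTop (𝓝 (-m)) ∧
      ∀ y < β - s₀, ∀ᶠ T : ℝ in atTop, Real.exp (Real.exp (y * T)) ≤ |plain lam c s₀ T| := by
  have hd : 0 < σ₀ - s₀ := by linarith [h.lt]
  have D := h.mdata
  obtain ⟨x₀, x₁, h0, h1, h2, h3, m, hm0, hm, h4⟩ := D.rightmost (fun h5 => by
    obtain ⟨σ, hσ, hne⟩ := hz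
    exact hne ((forall_aff h).1 h5 σ hσ))
  obtain ⟨h5, h6⟩ := D.growth h2 h3 h1 hm0 hm h4
  rw [order_aff F s₀ hd.ne'] at hm
  have e1 : ∀ x : ℝ, (s₀ : ℂ) + ((σ₀ - s₀ : ℝ) : ℂ) * (x : ℂ) = ((s₀ + (σ₀ - s₀) * x : ℝ) : ℂ) := by
    intro x; push_cast; ring
  rw [e1] at hm
  have hβ0 : 0 < (σ₀ - s₀) * x₀ := mul_pos hd h0
  have hT : Tendsto (fun T : ℝ => (σ₀ - s₀) * T) atTop atTop := tendsto_id.const_mul_atTop hd
  refine ⟨s₀ + (σ₀ - s₀) * x₀, m, by linarith, by nlinarith, hm0, hm, ?_, ?_, ?_⟩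
  · intro σ hσ
    by_cases h7 : σ ≤ σ₀
    · have h8 := h4 ((σ - s₀) / (σ₀ - s₀)) ⟨?_, ?_⟩ ?_
      · rw [order_aff F s₀ hd.ne', e1, mul_div_cancel₀ _ hd.ne'] at h8
        rwa [add_sub_cancel] at h8
      · rw [le_div_iff₀ hd]
        nlinarith
      · rw [div_le_iff₀ hd]
        linarith
      · intro h9
        rw [div_eq_iff hd.ne'] at h9
        linarith
    · push Not at h7
      exact h.order_right h7
  · have h7 := h5.comp hT
    refine h7.congr fun T => ?_
    simp only [Function.comp_apply]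
    rw [mean_plain h]
    congr 2
    ring
  · intro y hy
    have h7 := hT.eventually (h6 (y / (σ₀ - s₀)) (by
      rw [div_lt_iff₀ hd]; linarith))
    filter_upwards [h7] with T h8
    rw [mean_plain h] at h8
    have e2 : y / (σ₀ - s₀) * ((σ₀ - s₀) * T) = y * T := by field_simp
    rwa [e2] at h8

end Pool.Agent.Q45.ML
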