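import Pool.Agent.Q45.ML.Rat

/-! Simple zeros: the derivative. -/

set_option autoImplicit false

namespace Pool.Agent.Q45.ML

open Filter Topology Set Asymptotics
open Pool.Agent.W189.ML Pool.Agent.W189.LC Pool.Agent.W187.UR

theorem simple_zero {F : ℂ → ℂ} {s : ℂ} (hF : AnalyticAt ℂ F s) (h0 : F s = 0) (h1 : deriv F s ≠ 0) :
    meromorphicOrderAt F s = ((1 : ℤ) : WithTop ℤ) ∧ meromorphicTrailingCoeffAt F s = deriv F s := by
  have h2 := hF.analyticOrderAt_sub_eq_one_of_deriv_ne_zero h1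
  simp only [h0, sub_zero] at h2
  obtain ⟨g, hg, hg0, hFg⟩ := (hF.analyticOrderAt_eq_natCast (n := 1)).1 (by exact_mod_cast h2)
  have hder : deriv F s = g s := by
    have h3 : HasDerivAt (fun z : ℂ => (z - s) ^ 1 • g z) (g s) s := by
      have h4 := ((hasDerivAt_id s).sub_const s).mul hg.differentiableAt.hasDerivAt
      simp only [id, sub_self, zero_mul, one_mul, add_zero] at h4
      refine h4.congr_of_eventuallyEq (Eventually.of_forall fun z => ?_)
      simp
    exact (h3.congr_of_eventuallyEq hFg).deriv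
  constructor
  · rw [hF.meromorphicOrderAt_eq, h2]
    rfl
  · rw [hder]
    refine hg.meromorphicTrailingCoeffAt_of_ne_zero_of_eq_nhdsNE (n := (1 : ℤ)) hg0 ?_
    filter_upwards [hFg.filter_mono nhdsWithin_le_nhds] with z hz
    rw [hz, pow_one, zpow_one]

/-- the derivative at a simple zero: limit with rate, sign -/
theorem deriv_rate {F : ℂ → ℂ} {s₀ γ : ℝ} {S : ℝ → ℂ} {m : ℤ} {r : ℂ} {N : ℤ}
    (hF : AnalyticAt ℂ F s₀) (h0 : F s₀ = 0) (h1 : deriv F s₀ ≠ 0)
    (hm : meromorphicOrderAt F s₀ = m) (hr : Complex.exp r = meromorphicTrailingCoeffAt F s₀)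
    (hi : r.im = -Real.pi * N)
    (hO : (fun T : ℝ => S T - (r - m * (Real.log T - Lam γ))) =O[atTop] (fun T : ℝ => 1 / T)) :
    (fun T : ℝ => Complex.exp (S T) * T * Complex.exp (-Lam γ) - deriv F s₀) =O[atTop]
      (fun T : ℝ => 1 / T) ∧ deriv F s₀ = (-1) ^ N * (‖deriv F s₀‖ : ℂ) := by
  obtain ⟨g1, g2⟩ := simple_zero hF h0 h1
  have hm1 : m = 1 := by
    rw [hm] at g1
    exact WithTop.coe_inj.1 g1
  subst hm1
  constructor
  · have h3 := lead_tendsto hr hO
    rw [g2] at h3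
    simpa using h3
  · rw [← g2, ← hr, lead_sign hi]
    push_cast
    rw [norm_mul, norm_zpow, norm_neg, norm_one, one_zpow, one_mul, ← Complex.ofReal_exp,
      Complex.norm_real, Real.norm_eq_abs, abs_of_pos (Real.exp_pos _)]

end Pool.Agent.Q45.ML
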