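import Pool.Agent.Q45.ML.Lat

/-! Elliptic curves over number fields: the rotated law with an explicit logarithm. -/

set_option autoImplicit false

namespace Pool.Agent.Q45.ML

open Filter Topology Set Asymptotics NumberField IsDedekindDomain
open Pool.Agent.W189.ML Pool.Agent.W189.LC Pool.Agent.W187.UR Pool.Agent.W189.NF

variable {K : Type} [Field K] [NumberField K]

/-- `α^k + β^k` for the roots `α, β` of `X² - a X + e` -/
def powerSum (a e : ℤ) : ℕ → ℤ
  | 0 => 2
  | 1 => a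
  | k + 2 => a * powerSum a e (k + 1) - e * powerSum a e k

/-- the term `(α_v^k + β_v^k)/(k q_v^k) · e^{iγ k log q_v / T}/Γ(1 + k log q_v / T)`, `x = (v, k - 1)`, where
`α_v, β_v` are the roots of `X² - a_v X + e_v`; `aV E v = a_v` is `q_v + 1 - #E(k_v)` for good reduction (minimal
model at `v`), `1`, `-1`, `0` for split multiplicative, nonsplit multiplicative, additive reduction; `eV E v = e_v`
is `q_v` for good reduction and `0` otherwise -/
noncomputable def ecTerm (E : WeierstrassCurve K) (γ T : ℝ) (x : HeightOneSpectrum (𝓞 K) × ℕ) : ℂ :=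
  (powerSum (aV E x.1) (eV E x.1) (x.2 + 1) : ℤ) /
      ((x.2 + 1) * ((Ideal.absNorm x.1.asIdeal : ℕ) : ℂ) ^ (x.2 + 1)) *
    (Complex.exp ((γ * ((x.2 + 1) * Real.log ((Ideal.absNorm x.1.asIdeal : ℕ) : ℝ) / T) : ℝ) *
      Complex.I) /
      (Real.Gamma (1 + (x.2 + 1) * Real.log ((Ideal.absNorm x.1.asIdeal : ℕ) : ℝ) / T) : ℂ))

/-- the smoothed sum -/
noncomputable def ecSum (E : WeierstrassCurve K) (γ T : ℝ) : ℂ := ∑' x, ecTerm E γ T x

theorem powerSum_eq (a e : ℤ) (n : ℕ) : powerSum a e n = psum a e n := by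
  induction n using Nat.twoStepInduction with
  | zero => simp [powerSum, psum]
  | one => simp [powerSum, psum]
  | more n ih1 ih2 =>
    simp only [powerSum, psum]
    rw [ih1, ih2]

theorem ecTerm_eq (E : WeierstrassCurve K) (γ T : ℝ) (x : HeightOneSpectrum (𝓞 K) × ℕ) :
    ecTerm E γ T x = -rTerm E γ T x := by
  unfold ecTerm rTerm bsTerm
  rw [powerSum_eq]
  push_cast
  rw [neg_div, neg_mul, neg_neg, div_mul_div_comm, div_mul_eq_mul_div]

theorem ecSum_eq (E : WeierstrassCurve K) (γ T : ℝ) : ecSum E γ T = -rSum E γ T := by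
  unfold ecSum rSum
  rw [← tsum_neg]
  exact tsum_congr fun x => ecTerm_eq E γ T x

theorem ecTerm_summable (E : WeierstrassCurve K) (γ : ℝ) {T : ℝ} (hT : 0 < T) :
    Summable fun x => ‖ecTerm E γ T x‖ := by
  refine (bsTerm_summable E hT).congr fun x => ?_
  rw [ecTerm_eq, norm_neg, norm_rTerm]

/-- the law -/
theorem ec_law {E : WeierstrassCurve K} {F : ℂ → ℂ} (hF : IsCont E F) {γ : ℝ}
    (hγ : Real.pi / 2 < γ) :
    ∃ (m : ℤ) (r : ℂ), meromorphicOrderAt F ((1 : ℝ) : ℂ) = m ∧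
      Complex.exp r = meromorphicTrailingCoeffAt F ((1 : ℝ) : ℂ) ∧
      r.im = -Real.pi * (∑ᶠ σ ∈ Ioi (1 : ℝ), (meromorphicOrderAt F (σ : ℂ)).untop₀ : ℤ) ∧
      (fun T : ℝ => ecSum E γ T - (r - m * (Real.log T - Lam γ))) =O[atTop]
        (fun T : ℝ => 1 / T) := by
  obtain ⟨m, l, h1, h2, h3, h4, h5⟩ := nf_rot hF hγ
  set N : ℤ := ∑ᶠ σ ∈ Ioi (1 : ℝ), (meromorphicOrderAt F (σ : ℂ)).untop₀ with hN
  have hNe : N = Pool.Agent.W187.UR.excess F := rfl
  set r : ℂ := Real.log |l| - Real.pi * N * Complex.I with hr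
  have hO : (fun T : ℝ => ecSum E γ T - (r - m * (Real.log T - Lam γ))) =O[atTop]
      (fun T : ℝ => 1 / T) := by
    refine h4.neg_left.congr_left fun T => ?_
    rw [ecSum_eq, hr, hNe]
    ring
  have hlc : (l : ℂ) ≠ 0 := by exact_mod_cast h3
  refine ⟨m, r, by rw [Complex.ofReal_one]; exact h1, ?_, ?_, hO⟩
  · -- `exp r = l`
    have h6 := tendsto_prod hO
    have h7 : Tendsto (fun T : ℝ => Complex.exp (ecSum E γ T) * (T : ℂ) ^ m) atTop
        (𝓝 (l * Complex.exp (m * Lam γ))) := by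
      have h8 := h5.inv₀ (div_ne_zero (Complex.exp_ne_zero _) hlc)
      have h9 : (Complex.exp (-(m * Lam γ)) / l)⁻¹ = l * Complex.exp (m * Lam γ) := by
        rw [inv_div, Complex.exp_neg, div_inv_eq_mul]
      rw [h9] at h8
      refine h8.congr fun T => ?_
      rw [ecSum_eq, Complex.exp_neg, inv_div, div_eq_mul_inv, mul_comm]
    have h8 := mul_right_cancel₀ (Complex.exp_ne_zero _) (tendsto_nhds_unique h6 h7)
    rw [Complex.ofReal_one, h8, h2]
  · rw [hr]
    simp

end Pool.Agent.Q45.ML
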