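import Pool.Agent.Q45.ML.CPt

/-!
# Functional equations: orders at reflected points; archimedean factors
-/

set_option autoImplicit false

namespace Pool.Agent.Q45.ML

open Filter Topology Set Asymptotics

/-- the Euler product is analytic and has no zero in the half plane of absolute convergence -/
theorem Eul.euler_analytic {P : Type} {n : ℕ} {q : P → ℝ} {α : P → Fin n → ℂ} {θ d : ℝ} (E : Eul n q α θ d)
    {F : ℂ → ℂ}
    (hF : ∀ s : ℂ, θ + d < s.re → HasProd (fun v => ∏ j, (1 - α v j * (q v : ℂ) ^ (-s))⁻¹) (F s))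
    {s : ℂ} (hs : θ + d < s.re) : AnalyticAt ℂ F s ∧ F s ≠ 0 := by
  have heq : ∀ z : ℂ, θ + d < z.re → F z = Complex.exp (∑' x, ca α x * Complex.exp (-(z * fq q x))) :=
    fun z hz => (hF z hz).unique (E.hasProd hz)
  have h1 : AnalyticAt ℂ (fun z : ℂ => ∑' x, ca α x * Complex.exp (-(z * fq q x))) s := by
    set σ : ℝ := (θ + d + s.re) / 2 with hσ
    have hσ1 : θ + d < σ := by rw [hσ]; linarith
    have hσw : σ < s.re := by rw [hσ]; linarith
    have hopen : IsOpen {z : ℂ | σ < z.re} := isOpen_lt continuous_const Complex.continuous_re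
    have h1 : DifferentiableOn ℂ (fun z : ℂ => ∑' x, ca α x * Complex.exp (-(z * fq q x)))
        {z : ℂ | σ < z.re} := by
      refine Complex.differentiableOn_tsum_of_summable_norm (E.summable hσ1) (fun i => ?_) hopen
        (fun i z hz => ?_)
      · exact Differentiable.differentiableOn (by fun_prop)
      · rw [norm_mul, Complex.norm_exp]
        refine mul_le_mul le_rfl ?_ (Real.exp_pos _).le (norm_nonneg _)
        apply Real.exp_le_exp.2
        have h2 : (-(z * (fq q i : ℂ))).re = -(z.re * fq q i) := by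
          rw [Complex.neg_re, Complex.re_mul_ofReal]
        rw [h2]
        have hz' : σ < z.re := hz
        have := E.fq_nonneg i
        nlinarith
    exact h1.analyticAt (hopen.mem_nhds hσw)
  constructor
  · refine (h1.cexp).congr ?_
    have hopen : IsOpen {z : ℂ | θ + d < z.re} := isOpen_lt continuous_const Complex.continuous_re
    filter_upwards [hopen.mem_nhds hs] with z hz
    exact (heq z hz).symm
  · rw [heq s hs]
    exact Complex.exp_ne_zero _

/-- identity theorem for the orders -/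
theorem order_eq_near {F G : ℂ → ℂ} (hF : ∀ z, MeromorphicAt F z) (hG : ∀ z, MeromorphicAt G z) {z₀ : ℂ}
    (h : F =ᶠ[𝓝[≠] z₀] G) (z : ℂ) : meromorphicOrderAt F z = meromorphicOrderAt G z := by
  have hD : ∀ z, MeromorphicAt (F - G) z := fun z => (hF z).sub (hG z)
  have hDO : MeromorphicOn (F - G) univ := fun z _ => hD z
  have htop : meromorphicOrderAt (F - G) z₀ = ⊤ := by
    rw [meromorphicOrderAt_eq_top_iff]
    filter_upwards [h] with s hs
    simp [hs]
  have hall : meromorphicOrderAt (F - G) z = ⊤ := by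
    by_contra hne
    have h1 := (hDO.exists_meromorphicOrderAt_ne_top_iff_forall isConnected_univ).1
      ⟨⟨z, mem_univ z⟩, hne⟩
    exact h1 ⟨_, mem_univ _⟩ htop
  rw [meromorphicOrderAt_eq_top_iff] at hall
  refine meromorphicOrderAt_congr ?_
  filter_upwards [hall] with s hs
  exact sub_eq_zero.1 hs

theorem refl_an (w x : ℂ) : AnalyticAt ℂ (fun z : ℂ => w - z) x := by fun_prop

theorem order_refl (F : ℂ → ℂ) (w x : ℂ) :
    meromorphicOrderAt (fun z => F (w - z)) x = meromorphicOrderAt F (w - x) :=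
  meromorphicOrderAt_comp_of_deriv_ne_zero (f := F) (refl_an w x) (by simp)

theorem mero_refl {F : ℂ → ℂ} (hF : ∀ z, MeromorphicAt F z) (w x : ℂ) :
    MeromorphicAt (fun z => F (w - z)) x :=
  (hF (w - x)).comp_analyticAt (f := F) (g := fun z : ℂ => w - z) (refl_an w x)

/-- `A(s) Q(s) = A'(w - s) Q'(w - s)` near one point -/
theorem order_fe {Q Q' A A' : ℂ → ℂ} (hQ : ∀ z, MeromorphicAt Q z) (hQ' : ∀ z, MeromorphicAt Q' z)
    (hA : ∀ z, MeromorphicAt A z) (hA' : ∀ z, MeromorphicAt A' z) {w z₀ : ℂ}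
    (h : ∀ᶠ s in 𝓝[≠] z₀, A s * Q s = A' (w - s) * Q' (w - s)) (z : ℂ) :
    meromorphicOrderAt A z + meromorphicOrderAt Q z =
      meromorphicOrderAt A' (w - z) + meromorphicOrderAt Q' (w - z) := by
  rw [← meromorphicOrderAt_mul (hA z) (hQ z), ← meromorphicOrderAt_mul (hA' _) (hQ' _)]
  have h1 := order_eq_near (F := A * Q) (G := fun s => (A' * Q') (w - s)) (fun z => (hA z).mul (hQ z))
    (mero_refl (F := A' * Q') (fun z => (hA' z).mul (hQ' z)) w) h z
  rw [order_refl] at h1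
  exact h1

theorem order_ge_of_fe {Q Q' A A' : ℂ → ℂ} (hQ : ∀ z, MeromorphicAt Q z) (hQ' : ∀ z, MeromorphicAt Q' z)
    (hA : ∀ z, MeromorphicAt A z) (hA' : ∀ z, MeromorphicAt A' z) {w z₀ : ℂ}
    (h : ∀ᶠ s in 𝓝[≠] z₀, A s * Q s = A' (w - s) * Q' (w - s)) {z : ℂ}
    (h1 : meromorphicOrderAt A z ≤ 0) (h2 : 0 ≤ meromorphicOrderAt A' (w - z))
    (h3 : 0 ≤ meromorphicOrderAt Q' (w - z)) : 0 ≤ meromorphicOrderAt Q z := by
  have h4 := order_fe hQ hQ' hA hA' h z
  have h5 : 0 ≤ meromorphicOrderAt A z + meromorphicOrderAt Q z := by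
    rw [h4]
    exact add_nonneg h2 h3
  calc (0 : WithTop ℤ) ≤ meromorphicOrderAt A z + meromorphicOrderAt Q z := h5
    _ ≤ 0 + meromorphicOrderAt Q z := by gcongr
    _ = _ := zero_add _

/-! ### `Γ_ℝ` -/

theorem gR_mero (z : ℂ) : MeromorphicAt Complex.Gammaℝ z := by
  have h := (Complex.differentiable_Gammaℝ_inv.analyticAt z).meromorphicAt.inv
  have e : (fun s => (Complex.Gammaℝ s)⁻¹)⁻¹ = Complex.Gammaℝ := by
    funext s
    simp
  rwa [e] at h

theorem gR_inv_ne_top (z : ℂ) : meromorphicOrderAt (fun s => (Complex.Gammaℝ s)⁻¹) z ≠ ⊤ := by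
  have hm : MeromorphicOn (fun s => (Complex.Gammaℝ s)⁻¹) univ := fun z _ =>
    (Complex.differentiable_Gammaℝ_inv.analyticAt z).meromorphicAt
  have h1 : meromorphicOrderAt (fun s => (Complex.Gammaℝ s)⁻¹) (1 : ℂ) = 0 := by
    have h2 := Complex.differentiable_Gammaℝ_inv.analyticAt (1 : ℂ)
    rw [h2.meromorphicOrderAt_eq, h2.analyticOrderAt_eq_zero.2 (by simp [Complex.Gammaℝ_one])]
    rfl
  have h2 := (hm.exists_meromorphicOrderAt_ne_top_iff_forall isConnected_univ).1
    ⟨⟨1, mem_univ _⟩, by rw [h1]; exact WithTop.zero_ne_top⟩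
  exact h2 ⟨z, mem_univ _⟩

theorem gR_order (z : ℂ) : meromorphicOrderAt Complex.Gammaℝ z ≤ 0 := by
  have h := (Complex.differentiable_Gammaℝ_inv.analyticAt z).meromorphicOrderAt_nonneg
  have h1 := gR_inv_ne_top z
  have e : Complex.Gammaℝ = (fun s => (Complex.Gammaℝ s)⁻¹)⁻¹ := by
    funext s
    simp
  rw [e, meromorphicOrderAt_inv]
  lift meromorphicOrderAt (fun s => (Complex.Gammaℝ s)⁻¹) z to ℤ using h1 with m hm
  have h2 : (0 : ℤ) ≤ m := by exact_mod_cast h
  have h3 : -((m : ℤ) : WithTop ℤ) = ((-m : ℤ) : WithTop ℤ) := rfl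
  rw [h3]
  have : -m ≤ 0 := by omega
  exact_mod_cast this

theorem gR_order_pos {z : ℂ} (hz : 0 < z.re) : meromorphicOrderAt Complex.Gammaℝ z = 0 := by
  have h2 := Complex.differentiable_Gammaℝ_inv.analyticAt z
  have h3 : meromorphicOrderAt (fun s => (Complex.Gammaℝ s)⁻¹) z = 0 := by
    rw [h2.meromorphicOrderAt_eq, h2.analyticOrderAt_eq_zero.2
      (inv_ne_zero (Complex.Gammaℝ_ne_zero_of_re_pos hz))]
    rfl
  have e : Complex.Gammaℝ = (fun s => (Complex.Gammaℝ s)⁻¹)⁻¹ := by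
    funext s
    simp
  rw [e, meromorphicOrderAt_inv, h3]
  rfl

theorem gR1_mero (z : ℂ) : MeromorphicAt (fun s => Complex.Gammaℝ (s + 1)) z :=
  (gR_mero (z + 1)).comp_analyticAt (f := Complex.Gammaℝ) (g := fun z : ℂ => z + 1) (by fun_prop)

theorem gR1_order_eq (z : ℂ) :
    meromorphicOrderAt (fun s => Complex.Gammaℝ (s + 1)) z = meromorphicOrderAt Complex.Gammaℝ (z + 1) :=
  meromorphicOrderAt_comp_of_deriv_ne_zero (f := Complex.Gammaℝ) (g := fun z : ℂ => z + 1) (by fun_prop) (by simp)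

/-- `c^s` has order `0` -/
theorem cpow_an {c : ℂ} (hc : c ≠ 0) (z : ℂ) : AnalyticAt ℂ (fun s : ℂ => c ^ (s / 2)) z := by
  have : Differentiable ℂ (fun s : ℂ => c ^ (s / 2)) := by
    intro s
    exact (differentiableAt_id.div_const 2).const_cpow (Or.inl hc)
  exact this.analyticAt z

theorem cpow_order {c : ℂ} (hc : c ≠ 0) (z : ℂ) : meromorphicOrderAt (fun s : ℂ => c ^ (s / 2)) z = 0 := by
  have h2 := cpow_an hc z
  rw [h2.meromorphicOrderAt_eq, h2.analyticOrderAt_eq_zero.2 (by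
    rw [Complex.cpow_def_of_ne_zero hc]
    exact Complex.exp_ne_zero _)]
  rfl

/-- the archimedean factor `c^{s/2} Γ_ℝ(s)^a Γ_ℝ(s+1)^b` -/
noncomputable def arch (c : ℂ) (a b : ℕ) (s : ℂ) : ℂ :=
  c ^ (s / 2) * Complex.Gammaℝ s ^ a * Complex.Gammaℝ (s + 1) ^ b

theorem arch_mero {c : ℂ} (hc : c ≠ 0) (a b : ℕ) (z : ℂ) : MeromorphicAt (arch c a b) z :=
  ((cpow_an hc z).meromorphicAt.mul ((gR_mero z).pow a)).mul ((gR1_mero z).pow b)

theorem arch_order {c : ℂ} (hc : c ≠ 0) (a b : ℕ) (z : ℂ) :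
    meromorphicOrderAt (arch c a b) z =
      a * meromorphicOrderAt Complex.Gammaℝ z + b * meromorphicOrderAt Complex.Gammaℝ (z + 1) := by
  have e : arch c a b = (fun s : ℂ => c ^ (s / 2)) * Complex.Gammaℝ ^ a * (fun s => Complex.Gammaℝ (s + 1)) ^ b := rfl
  rw [e, meromorphicOrderAt_mul ((cpow_an hc z).meromorphicAt.mul ((gR_mero z).pow a)) ((gR1_mero z).pow b),
    meromorphicOrderAt_mul (cpow_an hc z).meromorphicAt ((gR_mero z).pow a), meromorphicOrderAt_pow (gR_mero z),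
    meromorphicOrderAt_pow (gR1_mero z), cpow_order hc, gR1_order_eq, zero_add]

theorem arch_order_pos {c : ℂ} (hc : c ≠ 0) (a b : ℕ) {z : ℂ} (hz : 0 < z.re) :
    meromorphicOrderAt (arch c a b) z = 0 := by
  rw [arch_order hc, gR_order_pos hz, gR_order_pos (by simp; linarith), mul_zero, mul_zero, add_zero]

theorem gR_order_int (z : ℂ) : ∃ k : ℤ, k ≤ 0 ∧ meromorphicOrderAt Complex.Gammaℝ z = k := by
  have h1 := gR_order z
  have h2 : meromorphicOrderAt Complex.Gammaℝ z ≠ ⊤ := fun h => by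
    rw [h] at h1
    exact absurd h1 (not_le.2 (WithTop.coe_lt_top 0))
  lift meromorphicOrderAt Complex.Gammaℝ z to ℤ using h2 with m hm
  exact ⟨m, by exact_mod_cast h1, rfl⟩

/-- the quotient of two archimedean factors: the numerator has more Gamma factors -/
theorem arch_div_order {c c' : ℂ} (hc : c ≠ 0) (hc' : c' ≠ 0) {a b a' b' : ℕ} (ha : a' ≤ a) (hb : b' ≤ b) (z : ℂ) :
    meromorphicOrderAt (arch c a b / arch c' a' b') z ≤ 0 := by
  rw [meromorphicOrderAt_div (arch_mero hc a b z) (arch_mero hc' a' b' z), arch_order hc, arch_order hc']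
  obtain ⟨k, hk, e1⟩ := gR_order_int z
  obtain ⟨l, hl, e2⟩ := gR_order_int (z + 1)
  rw [e1, e2]
  have h3 : ((a : WithTop ℤ) * (k : ℤ) + b * (l : ℤ)) - (a' * (k : ℤ) + b' * (l : ℤ)) =
      ((a * k + b * l - (a' * k + b' * l) : ℤ) : WithTop ℤ) := by
    push_cast
    rfl
  rw [h3]
  have ha2 : (a' : ℤ) ≤ a := by exact_mod_cast ha
  have hb2 : (b' : ℤ) ≤ b := by exact_mod_cast hb
  have : (a : ℤ) * k + b * l - (a' * k + b' * l) ≤ 0 := by nlinarith
  exact_mod_cast this

theorem arch_div_order_pos {c c' : ℂ} (hc : c ≠ 0) (hc' : c' ≠ 0) (a b a' b' : ℕ) {z : ℂ} (hz : 0 < z.re) :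
    meromorphicOrderAt (arch c a b / arch c' a' b') z = 0 := by
  rw [meromorphicOrderAt_div (arch_mero hc a b z) (arch_mero hc' a' b' z), arch_order_pos hc a b hz,
    arch_order_pos hc' a' b' hz]
  rfl

end Pool.Agent.Q45.ML
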