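import Pool.Agent.Q45.ML.FE

/-!
# Products of `Γ_ℂ`-factors
-/

set_option autoImplicit false

namespace Pool.Agent.Q45.ML

open Filter Topology Set Asymptotics

/-- the archimedean factor `c^{s/2} ∏_i Γ_ℂ(s + i ν_i)` -/
noncomputable def archC {I : Type} [Fintype I] (c : ℂ) (ν : I → ℝ) (s : ℂ) : ℂ :=
  c ^ (s / 2) * ∏ i, Complex.Gammaℂ (s + ν i * Complex.I)

theorem gC_mero (z : ℂ) : MeromorphicAt Complex.Gammaℂ z := by
  have e : Complex.Gammaℂ = Complex.Gammaℝ * (fun s => Complex.Gammaℝ (s + 1)) := by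
    funext s
    exact (Complex.Gammaℝ_mul_Gammaℝ_add_one s).symm
  rw [e]
  exact (gR_mero z).mul (gR1_mero z)

theorem gC_order_eq (z : ℂ) : meromorphicOrderAt Complex.Gammaℂ z =
    meromorphicOrderAt Complex.Gammaℝ z + meromorphicOrderAt Complex.Gammaℝ (z + 1) := by
  have e : Complex.Gammaℂ = Complex.Gammaℝ * (fun s => Complex.Gammaℝ (s + 1)) := by
    funext s
    exact (Complex.Gammaℝ_mul_Gammaℝ_add_one s).symm
  rw [e, meromorphicOrderAt_mul (gR_mero z) (gR1_mero z), gR1_order_eq]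

theorem gC_order (z : ℂ) : meromorphicOrderAt Complex.Gammaℂ z ≤ 0 := by
  rw [gC_order_eq]
  exact add_nonpos (gR_order z) (gR_order (z + 1))

theorem gC_order_pos {z : ℂ} (hz : 0 < z.re) : meromorphicOrderAt Complex.Gammaℂ z = 0 := by
  rw [gC_order_eq, gR_order_pos hz, gR_order_pos (by simp; linarith), add_zero]

theorem gCs_mero (a z : ℂ) : MeromorphicAt (fun s => Complex.Gammaℂ (s + a)) z :=
  (gC_mero (z + a)).comp_analyticAt (f := Complex.Gammaℂ) (g := fun z : ℂ => z + a) (by fun_prop)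

theorem gCs_order (a z : ℂ) :
    meromorphicOrderAt (fun s => Complex.Gammaℂ (s + a)) z = meromorphicOrderAt Complex.Gammaℂ (z + a) :=
  meromorphicOrderAt_comp_of_deriv_ne_zero (f := Complex.Gammaℂ) (g := fun z : ℂ => z + a) (by fun_prop) (by simp)

theorem gCprod {I : Type} (t : Finset I) (ν : I → ℝ) (z : ℂ) :
    MeromorphicAt (fun s => ∏ i ∈ t, Complex.Gammaℂ (s + ν i * Complex.I)) z ∧
    meromorphicOrderAt (fun s => ∏ i ∈ t, Complex.Gammaℂ (s + ν i * Complex.I)) z ≤ 0 ∧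
    (0 < z.re → meromorphicOrderAt (fun s => ∏ i ∈ t, Complex.Gammaℂ (s + ν i * Complex.I)) z = 0) := by
  classical
  induction t using Finset.induction_on with
  | empty =>
    have e : (fun s : ℂ => ∏ i ∈ (∅ : Finset I), Complex.Gammaℂ (s + ν i * Complex.I)) = fun _ => (1 : ℂ) := by
      funext s
      simp
    have h0 : meromorphicOrderAt (fun _ : ℂ => (1 : ℂ)) z = 0 := by
      have h2 : AnalyticAt ℂ (fun _ : ℂ => (1 : ℂ)) z := analyticAt_const
      rw [h2.meromorphicOrderAt_eq, h2.analyticOrderAt_eq_zero.2 one_ne_zero]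
      rfl
    rw [e]
    exact ⟨MeromorphicAt.const 1 z, h0.le, fun _ => h0⟩
  | insert j t hj ih =>
    have e : (fun s : ℂ => ∏ i ∈ insert j t, Complex.Gammaℂ (s + ν i * Complex.I)) =
        (fun s => Complex.Gammaℂ (s + ν j * Complex.I)) *
          (fun s => ∏ i ∈ t, Complex.Gammaℂ (s + ν i * Complex.I)) := by
      funext s
      rw [Finset.prod_insert hj]
      rfl
    rw [e, meromorphicOrderAt_mul (gCs_mero _ z) ih.1, gCs_order]
    refine ⟨(gCs_mero _ z).mul ih.1, add_nonpos (gC_order _) ih.2.1, fun hz => ?_⟩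
    rw [ih.2.2 hz, gC_order_pos (by simpa using hz), add_zero]

variable {I : Type} [Fintype I]

theorem archC_mero {c : ℂ} (hc : c ≠ 0) (ν : I → ℝ) (z : ℂ) : MeromorphicAt (archC c ν) z :=
  (cpow_an hc z).meromorphicAt.mul (gCprod Finset.univ ν z).1

theorem archC_order_eq {c : ℂ} (hc : c ≠ 0) (ν : I → ℝ) (z : ℂ) : meromorphicOrderAt (archC c ν) z =
    meromorphicOrderAt (fun s => ∏ i, Complex.Gammaℂ (s + ν i * Complex.I)) z := by
  have e : archC c ν = (fun s : ℂ => c ^ (s / 2)) * (fun s => ∏ i, Complex.Gammaℂ (s + ν i * Complex.I)) := rfl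
  rw [e, meromorphicOrderAt_mul (cpow_an hc z).meromorphicAt (gCprod Finset.univ ν z).1, cpow_order hc, zero_add]

theorem archC_order {c : ℂ} (hc : c ≠ 0) (ν : I → ℝ) (z : ℂ) : meromorphicOrderAt (archC c ν) z ≤ 0 := by
  rw [archC_order_eq hc]
  exact (gCprod Finset.univ ν z).2.1

theorem archC_order_pos {c : ℂ} (hc : c ≠ 0) (ν : I → ℝ) {z : ℂ} (hz : 0 < z.re) :
    meromorphicOrderAt (archC c ν) z = 0 := by
  rw [archC_order_eq hc]
  exact (gCprod Finset.univ ν z).2.2 hz

/-- `ε · arch` has order `≥ 0` to the right of `0` -/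
theorem eps_archC {c : ℂ} (hc : c ≠ 0) (ν : I → ℝ) (ε z : ℂ) :
    MeromorphicAt (fun s => ε * archC c ν s) z ∧
      (0 < z.re → 0 ≤ meromorphicOrderAt (fun s => ε * archC c ν s) z) := by
  have e : (fun s => ε * archC c ν s) = (fun _ => ε) * archC c ν := rfl
  rw [e, meromorphicOrderAt_mul (MeromorphicAt.const ε z) (archC_mero hc ν z)]
  refine ⟨(MeromorphicAt.const ε z).mul (archC_mero hc ν z), fun hz => ?_⟩
  rw [archC_order_pos hc ν hz, add_zero]
  exact AnalyticAt.meromorphicOrderAt_nonneg analyticAt_const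

end Pool.Agent.Q45.ML
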