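import Pool.Agent.Q45.ML.Der

/-!
# Partial zeta functions at `s = 0` from smoothed character sums; Stark units

`G` is a finite abelian group (a ray class group, the Galois group of an abelian extension `H/K`), `φ v ∈ G` the class
of the finite place `v ∉ Sf` (the Frobenius), `L χ` the `L`-function of the character `χ` with the Euler factors in `Sf`
removed.
-/

set_option autoImplicit false

namespace Pool.Agent.Q45.ML

open Filter Topology Set Asymptotics NumberField IsDedekindDomain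
open Pool.Agent.W189.ML Pool.Agent.W189.LC Pool.Agent.W187.UR

/-- the derivative at a zero of any order, with rate -/
theorem deriv_rate_any {F : ℂ → ℂ} {s₀ γ : ℝ} {S : ℝ → ℂ} {m : ℤ} {r : ℂ}
    (hF : AnalyticAt ℂ F s₀) (h0 : F s₀ = 0) (hm : meromorphicOrderAt F s₀ = m)
    (hr : Complex.exp r = meromorphicTrailingCoeffAt F s₀)
    (hO : (fun T : ℝ => S T - (r - m * (Real.log T - Lam γ))) =O[atTop] (fun T : ℝ => 1 / T)) :
    (fun T : ℝ => T * Complex.exp (S T) * Complex.exp (-Lam γ) - deriv F s₀) =O[atTop]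
      (fun T : ℝ => 1 / T) := by
  obtain ⟨n, rfl, hn⟩ := ord_nat hF hm
  have hn1 : 1 ≤ n := by
    by_contra h
    have h0' : n = 0 := by omega
    rw [h0'] at hn
    exact hF.analyticOrderAt_eq_zero.1 hn h0
  by_cases h1 : deriv F s₀ = 0
  · have hn2 : 2 ≤ n := by
      by_contra h
      have hn' : n = 1 := by omega
      subst hn'
      obtain ⟨g, hg, hg0, hFg⟩ := (hF.analyticOrderAt_eq_natCast).1 hn
      have hder : deriv F s₀ = g s₀ := by
        have h3 : HasDerivAt (fun z : ℂ => (z - s₀) ^ 1 • g z) (g s₀) (s₀ : ℂ) := by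
          have h4 := ((hasDerivAt_id (s₀ : ℂ)).sub_const (s₀ : ℂ)).mul hg.differentiableAt.hasDerivAt
          simp only [id, sub_self, zero_mul, one_mul, add_zero] at h4
          refine h4.congr_of_eventuallyEq (Eventually.of_forall fun z => ?_)
          simp
        exact (h3.congr_of_eventuallyEq hFg).deriv
      exact hg0 (by rw [← hder, h1])
    rw [h1]
    simp only [sub_zero]
    have h2 : (fun T : ℝ => Complex.exp (S T) * (T : ℂ) ^ (n : ℤ)) =O[atTop] fun _ => (1 : ℝ) :=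
      (tendsto_prod hO).isBigO_one ℝ
    have h3 : (fun T : ℝ => (T : ℂ) ^ (1 - (n : ℤ))) =O[atTop] fun T : ℝ => 1 / T := by
      refine IsBigO.of_bound 1 ?_
      filter_upwards [eventually_ge_atTop 1] with T hT
      have hT0 : 0 < T := by linarith
      rw [norm_zpow, Complex.norm_real, Real.norm_eq_abs, abs_of_pos hT0, one_mul, Real.norm_eq_abs,
        abs_of_pos (by positivity : 0 < 1 / T), one_div, ← zpow_neg_one]
      exact zpow_le_zpow_right₀ hT (by omega)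
    have h4 := (h2.mul h3).const_mul_left (Complex.exp (-Lam γ))
    refine h4.congr' ?_ ?_
    · filter_upwards [eventually_gt_atTop 0] with T hT
      have hTc : (T : ℂ) ≠ 0 := by exact_mod_cast hT.ne'
      rw [mul_assoc (Complex.exp (S T)), ← zpow_add₀ hTc, add_sub_cancel, zpow_one]
      ring
    · filter_upwards with T
      rw [one_mul]
  · obtain ⟨g1, g2⟩ := simple_zero hF h0 h1
    have hm1 : (n : ℤ) = 1 := by
      rw [hm] at g1
      exact WithTop.coe_inj.1 g1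
    have h3 := lead_tendsto hr hO
    rw [g2, hm1] at h3
    refine h3.congr_left fun T => ?_
    rw [zpow_one, Int.cast_one, one_mul]
    ring

theorem closed_of_finite_balls {V : Type} [NormedAddCommGroup V] {A : Set V}
    (hA : ∀ r : ℝ, (A ∩ Metric.closedBall 0 r).Finite) : IsClosed A := by
  refine isClosed_of_closure_subset fun x hx => ?_
  have hA' := hA (‖x‖ + 1)
  by_contra hxK
  have hxA : x ∈ (A ∩ Metric.closedBall 0 (‖x‖ + 1))ᶜ := fun h => hxK h.1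
  obtain ⟨ε, hε, hball⟩ := Metric.isOpen_iff.1 hA'.isClosed.isOpen_compl x hxA
  obtain ⟨y, hy, hd⟩ := Metric.mem_closure_iff.1 hx (min ε 1) (lt_min hε one_pos)
  refine hball (a := y) ?_ ⟨hy, ?_⟩
  · rw [Metric.mem_ball, dist_comm]
    exact hd.trans_le (min_le_left _ _)
  · rw [Metric.mem_closedBall, dist_zero_right]
    have h1 : dist x y < 1 := hd.trans_le (min_le_right _ _)
    have h2 : ‖y‖ ≤ ‖x‖ + ‖y - x‖ := by
      have := norm_add_le x (y - x)
      simpa using this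
    rw [dist_comm, dist_eq_norm] at h1
    linarith

section family

variable {K : Type} [Field K] [NumberField K] {G : Type} [CommGroup G]

/-- the term at `(v, k)`, `k = z.2 + 1`: `(χ(φ v)^k / k) e^{iγ k log N(v)/T} / Γ(1 + k log N(v)/T)` -/
noncomputable def chiTerm (Sf : Finset (HeightOneSpectrum (𝓞 K))) (φ : HeightOneSpectrum (𝓞 K) → G)
    (χ : G →* ℂˣ) (γ T : ℝ) (z : {v : HeightOneSpectrum (𝓞 K) // v ∉ Sf} × ℕ) : ℂ :=
  (χ (φ z.1) : ℂ) ^ (z.2 + 1) / (z.2 + 1) *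
    (Complex.exp ((γ * ((z.2 + 1) * Real.log (Ideal.absNorm z.1.1.asIdeal : ℝ) / T) : ℝ) * Complex.I) /
      (Real.Gamma (1 + (z.2 + 1) * Real.log (Ideal.absNorm z.1.1.asIdeal : ℝ) / T) : ℂ))

/-- the smoothed character sum -/
noncomputable def chiSum (Sf : Finset (HeightOneSpectrum (𝓞 K))) (φ : HeightOneSpectrum (𝓞 K) → G)
    (χ : G →* ℂˣ) (γ T : ℝ) : ℂ := ∑' z, chiTerm Sf φ χ γ T z

/-- `L χ` continues `∏_{v ∉ Sf} (1 - χ(φ v) N(v)^{-s})⁻¹` along `[0, 1]`, is analytic at `0` and vanishes there -/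
structure IsFamily (Sf : Finset (HeightOneSpectrum (𝓞 K))) (φ : HeightOneSpectrum (𝓞 K) → G)
    (L : (G →* ℂˣ) → ℂ → ℂ) : Prop where
  mero : ∀ χ, ∀ σ : ℝ, 0 ≤ σ → σ ≤ 1 → MeromorphicAt (L χ) (σ : ℂ)
  an : ∀ χ, AnalyticAt ℂ (L χ) 0
  zero : ∀ χ, L χ 0 = 0
  euler : ∀ χ, ∀ s : ℂ, 1 < s.re → HasProd (fun v : {v : HeightOneSpectrum (𝓞 K) // v ∉ Sf} =>
    (1 - (χ (φ v) : ℂ) * (Ideal.absNorm v.1.asIdeal : ℂ) ^ (-s))⁻¹) (L χ s)

/-- the partial zeta function of the class `g`: `|G|⁻¹ ∑_χ χ(g)⁻¹ L(s, χ)` -/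
noncomputable def partialZeta [Fintype G] [Fintype (G →* ℂˣ)] (L : (G →* ℂˣ) → ℂ → ℂ) (g : G) (s : ℂ) : ℂ :=
  (Fintype.card G : ℂ)⁻¹ * ∑ χ : G →* ℂˣ, (χ g : ℂ)⁻¹ * L χ s

/-- the approximation `|G|⁻¹ ∑_χ χ(g)⁻¹ T e^{S_χ(T)} e^{-Λ}` to the derivative of the partial zeta function at `0` -/
noncomputable def partialSum [Fintype G] [Fintype (G →* ℂˣ)] (Sf : Finset (HeightOneSpectrum (𝓞 K)))
    (φ : HeightOneSpectrum (𝓞 K) → G) (γ : ℝ) (g : G) (T : ℝ) : ℂ :=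
  (Fintype.card G : ℂ)⁻¹ * ∑ χ : G →* ℂˣ, (χ g : ℂ)⁻¹ *
    (T * Complex.exp (chiSum Sf φ χ γ T) * Complex.exp (-Lam γ))

theorem norm_char [Finite G] (χ : G →* ℂˣ) (g : G) : ‖(χ g : ℂ)‖ = 1 := by
  have h1 : (χ g) ^ Nat.card G = 1 := by
    rw [← map_pow, pow_card_eq_one', map_one]
  have h2 : ((χ g : ℂ)) ^ Nat.card G = 1 := by
    have := congrArg (fun u : ℂˣ => (u : ℂ)) h1
    simpa using this
  exact Complex.norm_eq_one_of_pow_eq_one h2 Nat.card_pos.ne'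

theorem eul_chi [Finite G] (Sf : Finset (HeightOneSpectrum (𝓞 K))) (φ : HeightOneSpectrum (𝓞 K) → G)
    (χ : G →* ℂˣ) : Eul 1 (fun v : {v : HeightOneSpectrum (𝓞 K) // v ∉ Sf} => nrm v.1)
      (fun v (_ : Fin 1) => (χ (φ v) : ℂ)) 0 1 :=
  eul_nf Sf (α := fun v (_ : Fin 1) => (χ (φ v) : ℂ)) (fun v _ j => by
    rw [norm_char, Real.rpow_zero])

theorem chiTerm_eq (Sf : Finset (HeightOneSpectrum (𝓞 K))) (φ : HeightOneSpectrum (𝓞 K) → G)
    (χ : G →* ℂˣ) (γ T : ℝ) (z : {v : HeightOneSpectrum (𝓞 K) // v ∉ Sf} × ℕ) :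
    chiTerm Sf φ χ γ T z = sterm (fun v : {v : HeightOneSpectrum (𝓞 K) // v ∉ Sf} => nrm v.1)
      (fun v (_ : Fin 1) => (χ (φ v) : ℂ)) 0 γ T z := by
  unfold chiTerm sterm nrm
  simp

theorem chi_summable [Finite G] (Sf : Finset (HeightOneSpectrum (𝓞 K)))
    (φ : HeightOneSpectrum (𝓞 K) → G) (χ : G →* ℂˣ) (γ : ℝ) {T : ℝ} (hT : 0 < T) :
    Summable fun z => ‖chiTerm Sf φ χ γ T z‖ := by
  simp only [chiTerm_eq]
  exact (eul_chi Sf φ χ).sterm_summable 0 γ hT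

theorem IsFamily.law [Finite G] {Sf : Finset (HeightOneSpectrum (𝓞 K))}
    {φ : HeightOneSpectrum (𝓞 K) → G} {L : (G →* ℂˣ) → ℂ → ℂ} (h : IsFamily Sf φ L) (χ : G →* ℂˣ)
    {γ : ℝ} (hγ : Real.pi / 2 < γ) :
    ∃ (m : ℤ) (r : ℂ), meromorphicOrderAt (L χ) ((0 : ℝ) : ℂ) = m ∧
      Complex.exp r = meromorphicTrailingCoeffAt (L χ) ((0 : ℝ) : ℂ) ∧
      (fun T : ℝ => chiSum Sf φ χ γ T - (r - m * (Real.log T - Lam γ))) =O[atTop]
        (fun T : ℝ => 1 / T) := by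
  obtain ⟨m, r, h1, h2, h3⟩ := (eul_chi Sf φ χ).lawC (F := L χ) (s₀ := 0) (by norm_num)
    (fun x hx hx1 => h.mero χ x hx (by linarith))
    (fun s hs => by
      refine (h.euler χ s (by linarith)).congr_fun fun v => ?_
      rw [Fin.prod_univ_one]
      rfl) hγ
  refine ⟨m, r, h1, h2, ?_⟩
  have hS : ∀ T, smooth (fun v : {v : HeightOneSpectrum (𝓞 K) // v ∉ Sf} => nrm v.1)
      (fun v (_ : Fin 1) => (χ (φ v) : ℂ)) 0 γ T = chiSum Sf φ χ γ T := by
    intro T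
    unfold smooth chiSum
    simp only [chiTerm_eq]
  simpa only [hS] using h3

/-- the derivative of `L(s, χ)` at `0` -/
theorem IsFamily.deriv_rate [Finite G] {Sf : Finset (HeightOneSpectrum (𝓞 K))}
    {φ : HeightOneSpectrum (𝓞 K) → G} {L : (G →* ℂˣ) → ℂ → ℂ} (h : IsFamily Sf φ L) (χ : G →* ℂˣ)
    {γ : ℝ} (hγ : Real.pi / 2 < γ) :
    (fun T : ℝ => T * Complex.exp (chiSum Sf φ χ γ T) * Complex.exp (-Lam γ) - deriv (L χ) 0) =O[atTop]
      (fun T : ℝ => 1 / T) := by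
  obtain ⟨m, r, h1, h2, h3⟩ := h.law χ hγ
  have h4 := deriv_rate_any (F := L χ) (s₀ := 0) (by rw [Complex.ofReal_zero]; exact h.an χ)
    (by rw [Complex.ofReal_zero]; exact h.zero χ) h1 h2 h3
  rwa [Complex.ofReal_zero] at h4

/-- **the derivatives of the partial zeta functions at `0`** -/
theorem IsFamily.partial_rate [Fintype G] [Fintype (G →* ℂˣ)]
    {Sf : Finset (HeightOneSpectrum (𝓞 K))}
    {φ : HeightOneSpectrum (𝓞 K) → G} {L : (G →* ℂˣ) → ℂ → ℂ} (h : IsFamily Sf φ L)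
    {γ : ℝ} (hγ : Real.pi / 2 < γ) (g : G) :
    (fun T : ℝ => partialSum Sf φ γ g T - deriv (partialZeta L g) 0) =O[atTop]
      (fun T : ℝ => 1 / T) := by
  have hd : deriv (partialZeta L g) 0 = (Fintype.card G : ℂ)⁻¹ *
      ∑ χ : G →* ℂˣ, (χ g : ℂ)⁻¹ * deriv (L χ) 0 := by
    have h1 : HasDerivAt (partialZeta L g) ((Fintype.card G : ℂ)⁻¹ *
      ∑ χ : G →* ℂˣ, (χ g : ℂ)⁻¹ * deriv (L χ) 0) 0 := by
      unfold partialZeta
      refine HasDerivAt.const_mul _ ?_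
      refine HasDerivAt.fun_sum fun χ _ => ?_
      exact ((h.an χ).differentiableAt.hasDerivAt).const_mul _
    exact h1.deriv
  have h2 : (fun T : ℝ => (Fintype.card G : ℂ)⁻¹ * ∑ χ : G →* ℂˣ, (χ g : ℂ)⁻¹ *
      (T * Complex.exp (chiSum Sf φ χ γ T) * Complex.exp (-Lam γ) - deriv (L χ) 0)) =O[atTop]
      (fun T : ℝ => 1 / T) := by
    have h3 : (fun T : ℝ => ∑ χ : G →* ℂˣ, (χ g : ℂ)⁻¹ *
        (T * Complex.exp (chiSum Sf φ χ γ T) * Complex.exp (-Lam γ) - deriv (L χ) 0)) =O[atTop]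
        (fun T : ℝ => 1 / T) := by
      have h4 := IsBigO.sum (s := Finset.univ) fun (χ : G →* ℂˣ) _ =>
        (h.deriv_rate χ hγ).const_mul_left ((χ g : ℂ)⁻¹)
      refine h4.congr_left fun T => ?_
      rw [Finset.sum_apply]
    exact h3.const_mul_left _
  refine h2.congr_left fun T => ?_
  rw [hd]
  unfold partialSum
  rw [← mul_sub, ← Finset.sum_sub_distrib]
  simp only [mul_sub]

end family

end Pool.Agent.Q45.ML
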