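import Pool.Agent.Q45.ML.Mot
import Pool.Agent.Q45.ML.Stark

/-!
# Group rings of finite abelian groups: Fourier inversion, lattices, `p`-adic ideals

`ofFun f = ∑ f(g) g` in `ℤ_p[G]`; `InIdeal J x`: the complex group ring element `x` has rational `p`-integral coefficients
and lies in the ideal `J` of `ℤ_p[G]`; `lattice J`: the integral elements in `J`.
-/

set_option autoImplicit false
set_option linter.unusedSectionVars false

namespace Pool.Agent.Q45.ML.GR

open Filter Topology Asymptotics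
open Pool.Agent.Q45.ML

section fourier

variable {G : Type} [CommGroup G] [Fintype G] [Fintype (G →* ℂˣ)]

theorem card_chars : Fintype.card (G →* ℂˣ) = Fintype.card G := by
  have h := CommGroup.card_monoidHom_of_hasEnoughRootsOfUnity G ℂ
  rwa [Nat.card_eq_fintype_card, Nat.card_eq_fintype_card] at h

theorem sum_chars_one : ∑ χ : G →* ℂˣ, (χ (1 : G) : ℂ) = Fintype.card G := by
  simp [card_chars]

theorem sum_chars_ne {g : G} (hg : g ≠ 1) : ∑ χ : G →* ℂˣ, (χ g : ℂ) = 0 := by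
  obtain ⟨χ₀, hχ₀⟩ := CommGroup.exists_apply_ne_one_of_hasEnoughRootsOfUnity G ℂ hg
  have h1 : ∑ χ : G →* ℂˣ, (χ g : ℂ) = (χ₀ g : ℂ) * ∑ χ : G →* ℂˣ, (χ g : ℂ) := by
    have h0 := Equiv.sum_comp (Equiv.mulLeft χ₀) (fun χ : G →* ℂˣ => (χ g : ℂ))
    rw [Finset.mul_sum, ← h0]
    refine Finset.sum_congr rfl fun χ _ => ?_
    simp [Equiv.coe_mulLeft, MonoidHom.mul_apply]
  have h2 : (1 - (χ₀ g : ℂ)) * ∑ χ : G →* ℂˣ, (χ g : ℂ) = 0 := by
    rw [sub_mul, one_mul, ← h1, sub_self]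
  rcases mul_eq_zero.1 h2 with h | h
  · exfalso
    apply hχ₀
    ext
    simp only [Units.val_one]
    linear_combination -h
  · exact h

/-- Fourier inversion -/
theorem inversion {θ : G → ℂ} {V : (G →* ℂˣ) → ℂ} (h : ∀ χ : G →* ℂˣ, ∑ g, (χ g : ℂ) * θ g = V χ) (g : G) :
    θ g = (Fintype.card G : ℂ)⁻¹ * ∑ χ : G →* ℂˣ, (χ g : ℂ)⁻¹ * V χ := by
  have hc : (Fintype.card G : ℂ) ≠ 0 := by exact_mod_cast Fintype.card_ne_zero
  have h1 : ∑ χ : G →* ℂˣ, (χ g : ℂ)⁻¹ * V χ = ∑ x, θ x * ∑ χ : G →* ℂˣ, (χ (g⁻¹ * x) : ℂ) := by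
    simp only [← h, Finset.mul_sum]
    rw [Finset.sum_comm]
    refine Finset.sum_congr rfl fun x _ => Finset.sum_congr rfl fun χ _ => ?_
    rw [map_mul, map_inv, Units.val_mul, Units.val_inv_eq_inv_val]
    ring
  rw [h1, Finset.sum_eq_single g]
  · rw [inv_mul_cancel, sum_chars_one]
    field_simp
  · intro x _ hx
    rw [sum_chars_ne, mul_zero]
    intro h2
    exact hx (by rw [← mul_one g, ← h2, mul_inv_cancel_left])
  · intro h2
    exact absurd (Finset.mem_univ g) h2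

end fourier

section padic

variable {G : Type} [CommGroup G] [Fintype G] {p : ℕ} [Fact p.Prime]

/-- `∑ f(g) g` in `ℤ_p[G]` -/
noncomputable def ofFun (f : G → ℤ_[p]) : MonoidAlgebra ℤ_[p] G := ∑ g, MonoidAlgebra.single g (f g)

/-- `x` has rational coefficients which are `p`-adic integers, and lies in `J` -/
def InIdeal (J : Ideal (MonoidAlgebra ℤ_[p] G)) (x : G → ℂ) : Prop :=
  ∃ (r : G → ℚ) (f : G → ℤ_[p]), (∀ g, x g = r g) ∧ (∀ g, (f g : ℚ_[p]) = r g) ∧ ofFun f ∈ J

/-- the elements of `ℤ[G]` which lie in `J` -/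
def lattice (J : Ideal (MonoidAlgebra ℤ_[p] G)) : Set (G → ℂ) :=
  {x | ∃ a : G → ℤ, (∀ g, x g = a g) ∧ ofFun (fun g => (a g : ℤ_[p])) ∈ J}

theorem ofFun_smul (c : ℤ_[p]) (f : G → ℤ_[p]) :
    ofFun (fun g => c * f g) = MonoidAlgebra.single 1 c * ofFun f := by
  unfold ofFun
  rw [Finset.mul_sum]
  refine Finset.sum_congr rfl fun g _ => ?_
  rw [MonoidAlgebra.single_mul_single, one_mul]

theorem ofFun_zero : ofFun (fun _ : G => (0 : ℤ_[p])) = 0 := by
  unfold ofFun
  simp

theorem lattice_nonempty (J : Ideal (MonoidAlgebra ℤ_[p] G)) : (lattice J).Nonempty :=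
  ⟨fun _ => 0, fun _ => 0, fun g => by simp, by
    simp only [Int.cast_zero]
    rw [ofFun_zero]
    exact J.zero_mem⟩

theorem lattice_closed (J : Ideal (MonoidAlgebra ℤ_[p] G)) : IsClosed (lattice J) := by
  refine closed_of_finite_balls fun r => ?_
  have hfin : (Set.pi Set.univ fun _ : G => (fun a : ℤ => (a : ℂ)) '' {a : ℤ | |(a : ℝ)| ≤ r}).Finite := by
    refine Set.Finite.pi fun _ => Set.Finite.image _ ?_
    refine (Set.finite_Icc (-⌈r⌉) ⌈r⌉).subset fun a ha => ?_
    have h1 : |(a : ℝ)| ≤ r := ha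
    have h2 := (abs_le.1 h1)
    have h3 := Int.le_ceil r
    constructor
    · have : (-(⌈r⌉ : ℝ)) ≤ a := by linarith
      exact_mod_cast this
    · have : (a : ℝ) ≤ ⌈r⌉ := by linarith
      exact_mod_cast this
  refine hfin.subset ?_
  rintro x ⟨⟨a, ha, -⟩, hx⟩ g -
  refine ⟨a g, ?_, (ha g).symm⟩
  rw [mem_closedBall_zero_iff] at hx
  have h1 := (norm_le_pi_norm x g).trans hx
  rw [ha g, Complex.norm_intCast] at h1
  exact h1

/-- clearing denominators prime to `p` -/
theorem inIdeal_iff (J : Ideal (MonoidAlgebra ℤ_[p] G)) (x : G → ℂ) :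
    InIdeal J x ↔ ∃ D : ℕ, ¬ p ∣ D ∧ (fun g => (D : ℂ) * x g) ∈ lattice J := by
  classical
  constructor
  · rintro ⟨r, f, hx, hf, hJ⟩
    have hden : ∀ g, ¬ p ∣ (r g).den := by
      intro g
      have h1 : ‖(r g : ℚ_[p])‖ ≤ 1 := by
        rw [← hf g]
        exact PadicInt.norm_le_one (f g)
      have h2 := PadicInt.isUnit_den (r g) h1
      intro h3
      have h4 := (PadicInt.norm_int_lt_one_iff_dvd (p := p) ((r g).den : ℤ)).2 (by exact_mod_cast h3)
      have h5 := PadicInt.isUnit_iff.1 h2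
      have h6 : ‖(((r g).den : ℤ) : ℤ_[p])‖ = 1 := by exact_mod_cast h5
      linarith
    refine ⟨∏ g, (r g).den, ?_, fun g => (∏ h ∈ Finset.univ.erase g, ((r h).den : ℤ)) * (r g).num, ?_, ?_⟩
    · rw [Prime.dvd_finsetProd_iff (Nat.Prime.prime Fact.out)]
      push Not
      exact fun g _ => hden g
    · intro g
      simp only
      rw [hx g, ← Finset.mul_prod_erase Finset.univ (fun h => (r h).den) (Finset.mem_univ g)]
      have h2 : ((r g).den : ℚ) * r g = (r g).num := by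
        rw [mul_comm]
        exact Rat.mul_den_eq_num _
      have h3 : (((r g).den : ℂ)) * (r g : ℂ) = ((r g).num : ℂ) := by exact_mod_cast h2
      push_cast
      linear_combination (∏ h ∈ Finset.univ.erase g, ((r h).den : ℂ)) * h3
    · have h4 : (fun g => ((((∏ h ∈ Finset.univ.erase g, ((r h).den : ℤ)) * (r g).num : ℤ)) : ℤ_[p])) =
          fun g => ((∏ h, (r h).den : ℕ) : ℤ_[p]) * f g := by
        funext g
        apply Subtype.coe_injective
        have h2 : ((r g).den : ℚ) * r g = (r g).num := by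
          rw [mul_comm]
          exact Rat.mul_den_eq_num _
        have h3 : (((r g).den : ℚ_[p])) * (r g : ℚ_[p]) = ((r g).num : ℚ_[p]) := by exact_mod_cast h2
        rw [← Finset.mul_prod_erase Finset.univ (fun h => (r h).den) (Finset.mem_univ g)]
        push_cast
        have h5 : ((∏ h ∈ Finset.univ.erase g, ((r h).den : ℤ_[p]) : ℤ_[p]) : ℚ_[p]) =
            ∏ h ∈ Finset.univ.erase g, ((r h).den : ℚ_[p]) := by
          refine (map_prod (PadicInt.Coe.ringHom (p := p)) (fun h => ((r h).den : ℤ_[p]))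
            (Finset.univ.erase g)).trans ?_
          refine Finset.prod_congr rfl fun h _ => ?_
          exact map_natCast (PadicInt.Coe.ringHom (p := p)) _
        rw [hf g, h5]
        linear_combination -(∏ h ∈ Finset.univ.erase g, ((r h).den : ℚ_[p])) * h3
      rw [h4, ofFun_smul]
      exact J.mul_mem_left _ hJ
  · rintro ⟨D, hD, a, ha, hJ⟩
    have hD0 : D ≠ 0 := by
      rintro rfl
      exact hD (dvd_zero _)
    have hDC : (D : ℂ) ≠ 0 := by exact_mod_cast hD0
    have hDQ : (D : ℚ) ≠ 0 := by exact_mod_cast hD0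
    have hDp : (D : ℚ_[p]) ≠ 0 := by exact_mod_cast hD0
    have hu : IsUnit (D : ℤ_[p]) := by
      rw [PadicInt.isUnit_iff]
      have h1 : ‖((D : ℤ) : ℤ_[p])‖ ≤ 1 := PadicInt.norm_le_one _
      rcases h1.lt_or_eq with h2 | h2
      · exfalso
        rw [PadicInt.norm_int_lt_one_iff_dvd] at h2
        exact hD (by exact_mod_cast h2)
      · exact_mod_cast h2
    obtain ⟨u, hu⟩ := hu
    refine ⟨fun g => (a g : ℚ) / D, fun g => ((u⁻¹ : ℤ_[p]ˣ) : ℤ_[p]) * (a g : ℤ_[p]), fun g => ?_,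
      fun g => ?_, ?_⟩
    · have := ha g
      push_cast
      field_simp
      linear_combination this
    · have h1 : (((u⁻¹ : ℤ_[p]ˣ) : ℤ_[p]) : ℚ_[p]) * (D : ℚ_[p]) = 1 := by
        have h2 : ((u⁻¹ : ℤ_[p]ˣ) : ℤ_[p]) * (D : ℤ_[p]) = 1 := by
          rw [← hu, Units.inv_mul]
        exact_mod_cast congrArg (fun z : ℤ_[p] => (z : ℚ_[p])) h2
      push_cast
      field_simp
      linear_combination (a g : ℚ_[p]) * h1
    · rw [ofFun_smul]
      exact J.mul_mem_left _ hJ

/-- **the criterion**: `x - ρ ∈ J` is detected by the distance from the lattice along one sequence -/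
theorem criterion (J : Ideal (MonoidAlgebra ℤ_[p] G)) {f : ℝ → G → ℂ} {x : G → ℂ}
    (hf : ∀ g, Tendsto (fun T => f T g) atTop (𝓝 (x g))) (ρ : G → ℂ) :
    InIdeal J (fun g => x g - ρ g) ↔ ∃ D : ℕ, ¬ p ∣ D ∧ ∃ t : ℕ → ℝ, Tendsto t atTop atTop ∧
      Tendsto (fun i => Metric.infDist (fun g => (D : ℂ) * (f (t i) g - ρ g)) (lattice J)) atTop (𝓝 0) := by
  rw [inIdeal_iff]
  refine exists_congr fun D => and_congr_right fun _ => ?_
  have hlim : Tendsto (fun T : ℝ => fun g => (D : ℂ) * (f T g - ρ g)) atTop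
      (𝓝 fun g => (D : ℂ) * (x g - ρ g)) :=
    tendsto_pi_nhds.2 fun g => ((hf g).sub_const _).const_mul _
  exact (closed_tfae (lattice_closed J) (lattice_nonempty J) hlim).out 0 2

end padic

end Pool.Agent.Q45.ML.GR
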