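import Pool.Agent.W187.UR.NF

/-!
# Orders and leading coefficients of Dirichlet series at real points (general form)

`F(s) = exp ∑ c_i e^{-s lam_i}` for `Re s > σ₀`, `c_i` real, `lam_i ≥ 0`, continued meromorphically along the
real segment `[s₀, σ₀]`. The rotated Mittag-Leffler means
`∑ c_i e^{-s₀ lam_i} e^{iγ lam_i/T} / Γ(1 + lam_i/T)`, `γ > π/2`, give the order and the leading coefficient at
`s₀` (library `W187.UR`, rescaled).
-/

set_option autoImplicit false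

namespace Pool.Agent.Q45.ML

open Filter Topology Set Asymptotics
open Pool.Agent.W189.ML Pool.Agent.W189.LC Pool.Agent.W187.UR

/-- `F` continues `exp ∑ c_i e^{-s lam_i}` (absolutely convergent for `Re s > σ₀`) meromorphically along
`[s₀, σ₀]`. -/
structure Cont {ι : Type} (lam c : ι → ℝ) (s₀ σ₀ : ℝ) (F : ℂ → ℂ) : Prop where
  lt : s₀ < σ₀
  nonneg : ∀ i, 0 ≤ lam i
  sum : ∀ σ : ℝ, σ₀ < σ → Summable fun i => |c i| * Real.exp (-(σ * lam i))
  mero : ∀ x : ℝ, s₀ ≤ x → x ≤ σ₀ → MeromorphicAt F (x : ℂ)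
  eq : ∀ s : ℂ, σ₀ < s.re → F s = Complex.exp (∑' i, (c i : ℂ) * Complex.exp (-(s * lam i)))

/-- the rotated mean -/
noncomputable def rot {ι : Type} (lam c : ι → ℝ) (s₀ γ T : ℝ) : ℂ :=
  ∑' i, (c i : ℂ) * Complex.exp (-(s₀ * lam i)) *
    (Complex.exp ((γ * (lam i / T) : ℝ) * Complex.I) / (Real.Gamma (1 + lam i / T) : ℂ))

/-- number of zeros minus number of poles of `F` on `(s₀, ∞)` -/
noncomputable def excess (F : ℂ → ℂ) (s₀ : ℝ) : ℤ :=
  ∑ᶠ σ ∈ Ioi s₀, (meromorphicOrderAt F (σ : ℂ)).untop₀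

section affine

variable {F : ℂ → ℂ} {s₀ d : ℝ}

theorem aff_an (s₀ d : ℝ) (x : ℂ) : AnalyticAt ℂ (fun w : ℂ => (s₀ : ℂ) + d * w) x := by fun_prop

theorem aff_deriv (s₀ d : ℝ) (x : ℂ) : deriv (fun w : ℂ => (s₀ : ℂ) + d * w) x = d := by
  simp

theorem order_aff (F : ℂ → ℂ) (s₀ : ℝ) {d : ℝ} (hd : d ≠ 0) (x : ℂ) :
    meromorphicOrderAt (fun w => F ((s₀ : ℂ) + d * w)) x =
      meromorphicOrderAt F ((s₀ : ℂ) + d * x) := by
  have h := meromorphicOrderAt_comp_of_deriv_ne_zero (f := F) (aff_an s₀ d x) (by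
    rw [aff_deriv]; exact_mod_cast hd)
  exact h

theorem mero_aff {F : ℂ → ℂ} {s₀ : ℝ} {d : ℝ} {x : ℂ} (h : MeromorphicAt F ((s₀ : ℂ) + d * x)) :
    MeromorphicAt (fun w => F ((s₀ : ℂ) + d * w)) x :=
  MeromorphicAt.comp_analyticAt (f := F) (g := fun w : ℂ => (s₀ : ℂ) + d * w) h (aff_an s₀ d x)

theorem not_const (s₀ : ℝ) {d : ℝ} (hd : d ≠ 0) (x : ℂ) :
    ¬EventuallyConst (fun w : ℂ => (s₀ : ℂ) + d * w) (𝓝 x) := by
  rw [eventuallyConst_iff_analyticOrderAt_sub_eq_top]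
  have h1 := (aff_an s₀ d x).analyticOrderAt_sub_eq_one_of_deriv_ne_zero (by
    rw [aff_deriv]; exact_mod_cast hd)
  rw [h1]
  exact ENat.one_ne_top

theorem coeff_aff {F : ℂ → ℂ} {s₀ : ℝ} {d : ℝ} (hd : d ≠ 0) (h : MeromorphicAt F (s₀ : ℂ)) :
    meromorphicTrailingCoeffAt (fun w => F ((s₀ : ℂ) + d * w)) 0 =
      (d : ℂ) ^ (meromorphicOrderAt F (s₀ : ℂ)).untop₀ * meromorphicTrailingCoeffAt F s₀ := by
  have h0 : (s₀ : ℂ) + d * 0 = s₀ := by ring
  have h1 := MeromorphicAt.meromorphicTrailingCoeffAt_comp (f := F) (x := 0)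
    (g := fun w : ℂ => (s₀ : ℂ) + d * w) (by rw [h0]; exact h) (aff_an s₀ d 0) (not_const s₀ hd 0)
  rw [h0] at h1
  have h2 : meromorphicTrailingCoeffAt (fun w : ℂ => (s₀ : ℂ) + d * w - s₀) 0 = d := by
    have e1 : (fun w : ℂ => (s₀ : ℂ) + d * w - s₀) =ᶠ[𝓝[≠] (0 : ℂ)]
        fun w => (w - 0) ^ (1 : ℤ) • ((fun _ => (d : ℂ)) w) := by
      filter_upwards with w
      simp
      ring
    have e2 : AnalyticAt ℂ (fun _ : ℂ => (d : ℂ)) 0 := analyticAt_const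
    exact e2.meromorphicTrailingCoeffAt_of_ne_zero_of_eq_nhdsNE (by exact_mod_cast hd) e1
  rw [h2] at h1
  simpa [Function.comp_def] using h1

end affine

variable {ι : Type} {lam c : ι → ℝ} {s₀ σ₀ : ℝ} {F : ℂ → ℂ}

theorem Cont.mdata (h : Cont lam c s₀ σ₀ F) :
    MData (fun i => (σ₀ - s₀) * lam i) (fun i => c i * Real.exp (-(s₀ * lam i)))
      (fun w => F ((s₀ : ℂ) + ((σ₀ - s₀ : ℝ) : ℂ) * w)) := by
  have hd : 0 < σ₀ - s₀ := by linarith [h.lt]
  have hser : ∀ w : ℂ, ser (fun i => (σ₀ - s₀) * lam i) (fun i => c i * Real.exp (-(s₀ * lam i))) w =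
      ∑' i, (c i : ℂ) * Complex.exp (-(((s₀ : ℂ) + ((σ₀ - s₀ : ℝ) : ℂ) * w) * lam i)) := by
    intro w
    unfold ser
    refine tsum_congr fun i => ?_
    push_cast
    rw [mul_assoc, ← Complex.exp_add]
    congr 2
    ring
  have hsum : ∀ σ : ℝ, 1 < σ → Summable fun i => |c i * Real.exp (-(s₀ * lam i))| *
      Real.exp (-(σ * ((σ₀ - s₀) * lam i))) := by
    intro σ hσ
    have h1 := h.sum (s₀ + (σ₀ - s₀) * σ) (by nlinarith)
    refine h1.congr fun i => ?_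
    rw [abs_mul, Real.abs_exp, mul_assoc, ← Real.exp_add]
    congr 2
    ring
  have hre : ∀ w : ℂ, 1 < w.re → σ₀ < ((s₀ : ℂ) + ((σ₀ - s₀ : ℝ) : ℂ) * w).re := by
    intro w hw
    rw [Complex.add_re, Complex.ofReal_re, Complex.re_ofReal_mul]
    nlinarith
  have heq : ∀ w : ℂ, 1 < w.re → F ((s₀ : ℂ) + ((σ₀ - s₀ : ℝ) : ℂ) * w) =
      Complex.exp (ser (fun i => (σ₀ - s₀) * lam i) (fun i => c i * Real.exp (-(s₀ * lam i))) w) := by
    intro w hw
    rw [h.eq _ (hre w hw), hser]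
  refine ⟨fun i => mul_nonneg hd.le (h.nonneg i), hsum, ?_, heq⟩
  intro x hx
  by_cases hx1 : x ≤ 1
  · apply mero_aff
    have e1 : (s₀ : ℂ) + ((σ₀ - s₀ : ℝ) : ℂ) * (x : ℂ) = ((s₀ + (σ₀ - s₀) * x : ℝ) : ℂ) := by
      push_cast; ring
    rw [e1]
    refine h.mero _ ?_ ?_
    · have := mul_nonneg hd.le hx.1
      linarith
    · nlinarith
  · push Not at hx1
    have hopen : IsOpen {z : ℂ | 1 < z.re} := isOpen_lt continuous_const Complex.continuous_re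
    have h2 := Pool.Agent.W189.NF.ser_analytic
      (lam := fun i => (σ₀ - s₀) * lam i) (c := fun i => c i * Real.exp (-(s₀ * lam i)))
      (fun i => mul_nonneg hd.le (h.nonneg i)) hsum (w := (x : ℂ)) (by simpa using hx1)
    refine (h2.cexp.congr ?_).meromorphicAt
    filter_upwards [hopen.mem_nhds (show 1 < ((x : ℝ) : ℂ).re by simpa using hx1)] with z hz
    exact (heq z hz).symm

theorem Cont.order_right (h : Cont lam c s₀ σ₀ F) {σ : ℝ} (hσ : σ₀ < σ) :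
    meromorphicOrderAt F (σ : ℂ) = 0 := by
  have hd : 0 < σ₀ - s₀ := by linarith [h.lt]
  have h1 := h.mdata.order_right (w := (((σ - s₀) / (σ₀ - s₀) : ℝ) : ℂ)) (by
    rw [Complex.ofReal_re, lt_div_iff₀ hd]; linarith)
  rw [order_aff F s₀ hd.ne'] at h1
  have e1 : (s₀ : ℂ) + ((σ₀ - s₀ : ℝ) : ℂ) * (((σ - s₀) / (σ₀ - s₀) : ℝ) : ℂ) = (σ : ℂ) := by
    rw [← Complex.ofReal_mul, mul_div_cancel₀ _ hd.ne', ← Complex.ofReal_add]
    congr 1
    ring
  rwa [e1] at h1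

theorem Cont.order_ne_top (h : Cont lam c s₀ σ₀ F) {x : ℝ} (hx : s₀ ≤ x) (hx1 : x ≤ σ₀) :
    meromorphicOrderAt F (x : ℂ) ≠ ⊤ := by
  have hd : 0 < σ₀ - s₀ := by linarith [h.lt]
  have h1 := h.mdata.order_ne_top (x := (x - s₀) / (σ₀ - s₀))
    ⟨div_nonneg (by linarith) hd.le, by
      rw [div_le_iff₀ hd]; linarith⟩
  rw [order_aff F s₀ hd.ne'] at h1
  have e1 : (s₀ : ℂ) + ((σ₀ - s₀ : ℝ) : ℂ) * (((x - s₀) / (σ₀ - s₀) : ℝ) : ℂ) = (x : ℂ) := by
    rw [← Complex.ofReal_mul, mul_div_cancel₀ _ hd.ne', ← Complex.ofReal_add]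
    congr 1
    ring
  rwa [e1] at h1

theorem cmean_rot (h : Cont lam c s₀ σ₀ F) (γ T : ℝ) :
    cmean (fun i => (σ₀ - s₀) * lam i) (fun i => c i * Real.exp (-(s₀ * lam i))) γ ((σ₀ - s₀) * T) =
      rot lam c s₀ γ T := by
  have hd : σ₀ - s₀ ≠ 0 := by linarith [h.lt]
  unfold cmean rot om
  refine tsum_congr fun i => ?_
  rw [mul_div_mul_left _ _ hd]
  push_cast
  rw [div_eq_mul_inv]
  ring

/-- absolute convergence of the means -/
theorem rot_summable (h : Cont lam c s₀ σ₀ F) {T : ℝ} (hT : 0 < T) (γ : ℝ) :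
    Summable fun i => ‖(c i : ℂ) * Complex.exp (-(s₀ * lam i)) *
      (Complex.exp ((γ * (lam i / T) : ℝ) * Complex.I) / (Real.Gamma (1 + lam i / T) : ℂ))‖ := by
  have hd : 0 < σ₀ - s₀ := by linarith [h.lt]
  have h1 := h.mdata.sum 2 (by norm_num)
  set T' : ℝ := (σ₀ - s₀) * T with hT'
  have hT'0 : 0 < T' := by positivity
  refine Summable.of_nonneg_of_le (fun _ => norm_nonneg _) (fun i => ?_)
    (h1.mul_left (Real.exp (Real.exp (2 * T')) + 1))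
  have h0 : 0 ≤ (σ₀ - s₀) * lam i := mul_nonneg hd.le (h.nonneg i)
  have h2 : om (((σ₀ - s₀) * lam i) / T') ≤
      (Real.exp (Real.exp (2 * T')) + 1) * Real.exp (-(2 * T' * (((σ₀ - s₀) * lam i) / T'))) :=
    om_le (by positivity) (div_nonneg h0 hT'0.le)
  have h3 : 2 * T' * (((σ₀ - s₀) * lam i) / T') = 2 * ((σ₀ - s₀) * lam i) := by
    field_simp
  have h4 : ((σ₀ - s₀) * lam i) / T' = lam i / T := by
    rw [hT', mul_div_mul_left _ _ hd.ne']
  rw [h3, h4] at h2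
  have h5 : 0 < 1 + lam i / T := by
    have := div_nonneg (h.nonneg i) hT.le
    linarith
  have h6 : ‖(c i : ℂ) * Complex.exp (-(s₀ * lam i)) *
      (Complex.exp ((γ * (lam i / T) : ℝ) * Complex.I) / (Real.Gamma (1 + lam i / T) : ℂ))‖ =
      |c i * Real.exp (-(s₀ * lam i))| * om (lam i / T) := by
    rw [norm_mul, norm_mul, norm_div, Complex.norm_exp_ofReal_mul_I, Complex.norm_real,
      Complex.norm_real, Real.norm_eq_abs, Real.norm_eq_abs, Complex.norm_exp, abs_mul,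
      Real.abs_exp, abs_of_pos (Real.Gamma_pos_of_pos h5)]
    have h7 : (-((s₀ : ℂ) * (lam i : ℂ))).re = -(s₀ * lam i) := by
      rw [← Complex.ofReal_mul, Complex.neg_re, Complex.ofReal_re]
    rw [h7]
    unfold om
    rw [one_div]
  rw [h6]
  calc _ ≤ |c i * Real.exp (-(s₀ * lam i))| * ((Real.exp (Real.exp (2 * T')) + 1) *
        Real.exp (-(2 * ((σ₀ - s₀) * lam i)))) := mul_le_mul_of_nonneg_left h2 (abs_nonneg _)
    _ = _ := by ring

/-- the asymptotic formula for a mean `S` with order `m` and leading coefficient `l` -/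
def Law (S : ℝ → ℂ) (γ : ℝ) (m : ℤ) (l : ℂ) : Prop :=
  ∃ r : ℂ, Complex.exp r = l ∧
    (fun T : ℝ => S T - (r - m * (Real.log T - Lam γ))) =O[atTop] (fun T : ℝ => 1 / T)

/-- **the abstract law** -/
theorem law [Countable ι] (h : Cont lam c s₀ σ₀ F) {γ : ℝ} (hγ : Real.pi / 2 < γ) :
    ∃ (m : ℤ) (r : ℂ), meromorphicOrderAt F s₀ = m ∧ Complex.exp r = meromorphicTrailingCoeffAt F s₀ ∧
      r.im = -Real.pi * excess F s₀ ∧
      (fun T : ℝ => rot lam c s₀ γ T - (r - m * (Real.log T - Lam γ))) =O[atTop]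
        (fun T : ℝ => 1 / T) := by
  have hd : 0 < σ₀ - s₀ := by linarith [h.lt]
  have D := h.mdata
  obtain ⟨m, hm⟩ := WithTop.ne_top_iff_exists.1 (h.order_ne_top le_rfl h.lt.le)
  have hm0 : meromorphicOrderAt (fun w => F ((s₀ : ℂ) + ((σ₀ - s₀ : ℝ) : ℂ) * w)) 0 = m := by
    rw [order_aff F s₀ hd.ne', mul_zero, add_zero]
    exact hm.symm
  obtain ⟨r₀, C, T₀, hr, hi, hC, hT₀, hO⟩ := mdata_rot D hm0 hγ
  rw [coeff_aff hd.ne' (h.mero s₀ le_rfl h.lt.le), ← hm] at hr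
  have hdc : ((σ₀ - s₀ : ℝ) : ℂ) ≠ 0 := by exact_mod_cast hd.ne'
  have hlogd : Complex.exp (m * (Real.log (σ₀ - s₀) : ℂ)) = ((σ₀ - s₀ : ℝ) : ℂ) ^ m := by
    rw [Complex.exp_int_mul, ← Complex.ofReal_exp, Real.exp_log hd]
  refine ⟨m, r₀ - m * (Real.log (σ₀ - s₀) : ℂ), hm.symm, ?_, ?_, ?_⟩
  · rw [Complex.exp_sub, hr, hlogd, WithTop.untop₀_coe, mul_div_assoc, mul_comm, div_mul_cancel₀]
    exact zpow_ne_zero _ hdc
  · have e1 : ((m : ℂ) * (Real.log (σ₀ - s₀) : ℂ)).im = 0 := by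
      have : (m : ℂ) * (Real.log (σ₀ - s₀) : ℂ) = ((m * Real.log (σ₀ - s₀) : ℝ) : ℂ) := by
        push_cast; rfl
      rw [this, Complex.ofReal_im]
    rw [Complex.sub_im, e1, sub_zero, hi]
    congr 1
    norm_cast
    unfold excess
    have h1 : (∑ᶠ x ∈ Ioc (0 : ℝ) 1, (meromorphicOrderAt
        (fun w => F ((s₀ : ℂ) + ((σ₀ - s₀ : ℝ) : ℂ) * w)) (x : ℂ)).untop₀) =
        ∑ᶠ x ∈ Ioc (0 : ℝ) 1, (meromorphicOrderAt F ((s₀ + (σ₀ - s₀) * x : ℝ) : ℂ)).untop₀ := by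
      refine finsum_mem_congr rfl fun x _ => ?_
      rw [order_aff F s₀ hd.ne']
      push_cast
      rfl
    have h2 : (∑ᶠ σ ∈ Ioi s₀, (meromorphicOrderAt F (σ : ℂ)).untop₀) =
        ∑ᶠ σ ∈ Ioc s₀ σ₀, (meromorphicOrderAt F (σ : ℂ)).untop₀ := by
      refine finsum_mem_inter_support_eq' _ _ _ fun σ hσ => ?_
      rw [Function.mem_support] at hσ
      constructor
      · intro h
        refine ⟨h, ?_⟩
        by_contra h3
        push Not at h3
        rw [‹Cont lam c s₀ σ₀ F›.order_right h3] at hσ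
        simp at hσ
      · exact fun h => h.1
    rw [h1, h2]
    have h3 : Ioc s₀ σ₀ = (fun x : ℝ => s₀ + (σ₀ - s₀) * x) '' Ioc (0 : ℝ) 1 := by
      ext y
      simp only [mem_Ioc, mem_image]
      constructor
      · rintro ⟨h4, h5⟩
        refine ⟨(y - s₀) / (σ₀ - s₀), ⟨div_pos (by linarith) hd, ?_⟩, ?_⟩
        · rw [div_le_one hd]; linarith
        · rw [mul_div_cancel₀ _ hd.ne']; ring
      · rintro ⟨x, ⟨h4, h5⟩, rfl⟩
        constructor
        · have := mul_pos hd h4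
          linarith
        · nlinarith
    rw [h3, finsum_mem_image]
    intro x _ y _ hxy
    have h4 : (σ₀ - s₀) * x = (σ₀ - s₀) * y := by
      have : s₀ + (σ₀ - s₀) * x = s₀ + (σ₀ - s₀) * y := hxy
      linarith
    exact mul_left_cancel₀ hd.ne' h4
  · refine Asymptotics.IsBigO.of_bound (C / (σ₀ - s₀)) ?_
    filter_upwards [eventually_ge_atTop (T₀ / (σ₀ - s₀)), eventually_gt_atTop 0] with T hT hT0
    have h5 := hO ((σ₀ - s₀) * T) (by
      rw [div_le_iff₀ hd] at hT; linarith)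
    rw [cmean_rot h, Real.log_mul hd.ne' hT0.ne'] at h5
    rw [Real.norm_eq_abs, abs_of_pos (by positivity : 0 < 1 / T)]
    have h6 : C / (σ₀ - s₀) * (1 / T) = C / ((σ₀ - s₀) * T) := by
      field_simp
    rw [h6, ← norm_neg]
    refine le_trans (le_of_eq ?_) h5
    congr 1
    push_cast
    ring

end Pool.Agent.Q45.ML
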