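import Pool.Agent.Q45.ML.Plain
import Pool.Agent.Q45.ML.OF
import Pool.Agent.Q45.ML.EC

/-! Rational multiples; motives over `ℚ`; elliptic curves at any real point. -/

set_option autoImplicit false

namespace Pool.Agent.Q45.ML

open Filter Topology Set Asymptotics NumberField IsDedekindDomain
open Pool.Agent.W189.ML Pool.Agent.W189.LC Pool.Agent.W187.UR Pool.Agent.W189.NF

/-- the distance of a complex number from the integers -/
noncomputable def dInt (z : ℂ) : ℝ := Metric.infDist z (Set.range fun a : ℤ => (a : ℂ))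

theorem closed_int : IsClosed (Set.range fun a : ℤ => (a : ℂ)) :=
  Complex.isClosedEmbedding_intCast.isClosed_range

theorem int_tfae {f : ℝ → ℂ} {V : ℂ} (hf : Tendsto f atTop (𝓝 V)) (Ω : ℂ) (D : ℕ) : List.TFAE [
    ∃ a : ℤ, D * (V / Ω) = a,
    Tendsto (fun T : ℝ => dInt (D * (f T / Ω))) atTop (𝓝 0),
    ∃ t : ℕ → ℝ, Tendsto t atTop atTop ∧ Tendsto (fun i => dInt (D * (f (t i) / Ω))) atTop (𝓝 0)] := by
  have hlim : Tendsto (fun T : ℝ => (D : ℂ) * (f T / Ω)) atTop (𝓝 (D * (V / Ω))) :=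
    (hf.div_const Ω).const_mul _
  have h1 := closed_tfae closed_int (Set.range_nonempty _) hlim
  have e : (D * (V / Ω) ∈ Set.range fun a : ℤ => (a : ℂ)) ↔ ∃ a : ℤ, D * (V / Ω) = a := by
    simp only [Set.mem_range, eq_comm]
  rw [e] at h1
  exact h1

theorem rat_iff {f : ℝ → ℂ} {V : ℂ} (hf : Tendsto f atTop (𝓝 V)) {Ω : ℂ} (hΩ : Ω ≠ 0) :
    (∃ x : ℚ, V = x * Ω) ↔ ∃ D : ℕ, 0 < D ∧ ∃ t : ℕ → ℝ, Tendsto t atTop atTop ∧
      Tendsto (fun i => dInt (D * (f (t i) / Ω))) atTop (𝓝 0) := by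
  constructor
  · rintro ⟨x, hx⟩
    have hiff : (∃ a : ℤ, (x.den : ℂ) * (V / Ω) = a) ↔ ∃ t : ℕ → ℝ, Tendsto t atTop atTop ∧
        Tendsto (fun i => dInt (x.den * (f (t i) / Ω))) atTop (𝓝 0) := (int_tfae hf Ω x.den).out 0 2
    refine ⟨x.den, x.den_pos, hiff.1 ⟨x.num, ?_⟩⟩
    rw [hx, mul_div_cancel_right₀ _ hΩ]
    have : (x.den : ℚ) * x = x.num := by
      rw [mul_comm]; exact Rat.mul_den_eq_num x
    exact_mod_cast this
  · rintro ⟨D, hD, ht⟩
    have hiff : (∃ a : ℤ, (D : ℂ) * (V / Ω) = a) ↔ ∃ t : ℕ → ℝ, Tendsto t atTop atTop ∧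
        Tendsto (fun i => dInt (D * (f (t i) / Ω))) atTop (𝓝 0) := (int_tfae hf Ω D).out 0 2
    obtain ⟨a, ha⟩ := hiff.2 ht
    refine ⟨a / D, ?_⟩
    have hDc : (D : ℂ) ≠ 0 := by exact_mod_cast hD.ne'
    push_cast
    field_simp at ha ⊢
    linear_combination ha

/-- the regulator form: `ρ` is a nonzero rational multiple of `V ≠ 0` -/
theorem rat_iff' {f : ℝ → ℂ} {V : ℂ} (hf : Tendsto f atTop (𝓝 V)) (hV : V ≠ 0) {ρ : ℂ} (hρ : ρ ≠ 0) :
    (∃ x : ℚ, x ≠ 0 ∧ ρ = x * V) ↔ ∃ D : ℕ, 0 < D ∧ ∃ t : ℕ → ℝ, Tendsto t atTop atTop ∧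
      Tendsto (fun i => dInt (D * (f (t i) / ρ))) atTop (𝓝 0) := by
  rw [← rat_iff hf hρ]
  constructor
  · rintro ⟨x, hx, h⟩
    refine ⟨x⁻¹, ?_⟩
    have hxc : (x : ℂ) ≠ 0 := by exact_mod_cast hx
    rw [h]
    push_cast
    field_simp
  · rintro ⟨x, h⟩
    have hx : x ≠ 0 := by
      rintro rfl
      apply hV
      rw [h]
      simp
    refine ⟨x⁻¹, inv_ne_zero hx, ?_⟩
    have hxc : (x : ℂ) ≠ 0 := by exact_mod_cast hx
    rw [h]
    push_cast
    field_simp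

/-- the leading coefficient as a limit -/
theorem lead_tendsto {S : ℝ → ℂ} {γ : ℝ} {m : ℤ} {r : ℂ} {F : ℂ → ℂ} {s₀ : ℝ}
    (hr : Complex.exp r = meromorphicTrailingCoeffAt F s₀)
    (hO : (fun T : ℝ => S T - (r - m * (Real.log T - Lam γ))) =O[atTop] (fun T : ℝ => 1 / T)) :
    (fun T : ℝ => Complex.exp (S T) * (T : ℂ) ^ m * Complex.exp (-(m * Lam γ)) -
      meromorphicTrailingCoeffAt F s₀) =O[atTop] (fun T : ℝ => 1 / T) := by
  have h4 := (prod_rate hO).const_mul_left (Complex.exp (-(m * Lam γ)))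
  refine h4.congr_left fun T => ?_
  rw [mul_sub, hr]
  have h5 : Complex.exp (-(m * Lam γ)) * Complex.exp (m * Lam γ) = 1 := by
    rw [← Complex.exp_add, neg_add_cancel, Complex.exp_zero]
  linear_combination (-meromorphicTrailingCoeffAt F s₀) * h5

/-- the sign of the leading coefficient of a real function -/
theorem lead_sign {r : ℂ} {N : ℤ} (h : r.im = -Real.pi * N) :
    Complex.exp r = (((-1) ^ N * Real.exp r.re : ℝ) : ℂ) := by
  have e1 : r = (r.re : ℂ) + (N : ℂ) * (-(Real.pi * Complex.I)) := by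
    apply Complex.ext
    · simp
    · rw [h]
      simp
      ring
  have e2 : Complex.exp (-(Real.pi * Complex.I)) = -1 := by
    rw [Complex.exp_neg, Complex.exp_pi_mul_I]
    norm_num
  conv_lhs => rw [e1]
  rw [Complex.exp_add, Complex.exp_int_mul, e2]
  push_cast
  ring

/-! ### motives over `ℚ` with rational coefficients -/

open Polynomial in
/-- the law for `∏_p P_p(p^{-s})⁻¹`, `P_p ∈ ℚ[X]`, weight `w`, at an integer `s₀` -/
theorem q_law {n : ℕ} {w : ℝ} (P : Nat.Primes → ℚ[X]) (α : Nat.Primes → Fin n → ℂ)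
    (hP : ∀ p, (P p).map (algebraMap ℚ ℂ) = ∏ j, (1 - C (α p j) * X))
    (hα : ∀ p j, ‖α p j‖ ≤ (p : ℝ) ^ (w / 2))
    (L : ℂ → ℂ) (s₀ : ℝ) (hmer : ∀ σ : ℝ, s₀ ≤ σ → MeromorphicAt L (σ : ℂ))
    (hL : ∀ s : ℂ, w / 2 + 1 < s.re →
      HasProd (fun p : Nat.Primes => (aeval ((p : ℂ) ^ (-s)) (P p))⁻¹) (L s))
    {γ : ℝ} (hγ : Real.pi / 2 < γ) :
    (∀ T : ℝ, 0 < T → Summable fun z => ‖sterm (fun p : Nat.Primes => (p : ℝ)) α s₀ γ T z‖) ∧
    ∃ (m : ℤ) (r : ℂ), meromorphicOrderAt L s₀ = m ∧ Complex.exp r = meromorphicTrailingCoeffAt L s₀ ∧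
      r.im = -Real.pi * Pool.Agent.Q45.ML.excess L s₀ ∧
      (fun T : ℝ => smooth (fun p : Nat.Primes => (p : ℝ)) α s₀ γ T -
        (r - m * (Real.log T - Lam γ))) =O[atTop] (fun T : ℝ => 1 / T) := by
  set θ : ℝ := max (w / 2) s₀ with hθ
  have hθ1 : w / 2 ≤ θ := le_max_left _ _
  have hθ0 : s₀ ≤ θ := le_max_right _ _
  have E : Eul n (fun p : Nat.Primes => (p : ℝ)) α θ 1 := eul_q fun p j => max_bound p (hα p j) s₀
  have hR : RealSums α := by
    intro p k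
    refine real_sums_of_conj ?_ k
    rw [← hP p, Polynomial.map_map]
    congr 1
    ext x
    simp
  refine ⟨fun T hT => E.sterm_summable s₀ γ hT, ?_⟩
  exact E.law hR (by linarith) (fun x hx _ => hmer x hx)
    (fun s hs => by
      refine (hL s (by linarith)).congr_fun fun p => ?_
      have e : aeval ((p : ℂ) ^ (-s)) (P p) = ∏ j, (1 - α p j * (p : ℂ) ^ (-s)) := by
        rw [aeval_def, eval₂_eq_eval_map, hP p, eval_prod]
        simp
      rw [e, Finset.prod_inv_distrib]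
      simp) hγ

/-! ### elliptic curves at any real point -/

section EC

variable {K : Type} [Field K] [NumberField K]

/-- the roots of `X² - a_v X + e_v` -/
theorem exists_ecRoots (E : WeierstrassCurve K) : ∃ α : HeightOneSpectrum (𝓞 K) → Fin 2 → ℂ,
    ∀ v, α v 0 + α v 1 = (((aV E v : ℤ) : ℝ) : ℂ) ∧ α v 0 * α v 1 = (((eV E v : ℤ) : ℝ) : ℂ) := by
  choose a b h1 h2 using fun v => exists_roots ((aV E v : ℤ) : ℝ) ((eV E v : ℤ) : ℝ)
  exact ⟨fun v => ![a v, b v], fun v => ⟨h1 v, h2 v⟩⟩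

/-- the term `((α_v^k + β_v^k)/(k q_v^{k s₀})) · e^{iγ k log q_v / T}/Γ(1 + k log q_v / T)`, `x = (v, k - 1)`, with the
roots `α_v, β_v` of `X² - a_v X + e_v` -/
noncomputable def ecTermAt (E : WeierstrassCurve K) (s₀ γ T : ℝ) (x : HeightOneSpectrum (𝓞 K) × ℕ) : ℂ :=
  (powerSum (aV E x.1) (eV E x.1) (x.2 + 1) : ℤ) /
      ((x.2 + 1) * (((Ideal.absNorm x.1.asIdeal : ℕ) : ℝ) : ℂ) ^ (((x.2 + 1) * s₀ : ℝ) : ℂ)) *
    (Complex.exp ((γ * ((x.2 + 1) * Real.log ((Ideal.absNorm x.1.asIdeal : ℕ) : ℝ) / T) : ℝ) *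
      Complex.I) /
      (Real.Gamma (1 + (x.2 + 1) * Real.log ((Ideal.absNorm x.1.asIdeal : ℕ) : ℝ) / T) : ℂ))

/-- the smoothed sum at `s₀` -/
noncomputable def ecSumAt (E : WeierstrassCurve K) (s₀ γ T : ℝ) : ℂ := ∑' x, ecTermAt E s₀ γ T x

theorem ec_law_at {E : WeierstrassCurve K} {F : ℂ → ℂ} {s₀ : ℝ} (hs₀ : s₀ < 3)
    (hmer : ∀ x : ℝ, s₀ ≤ x → x ≤ 3 → MeromorphicAt F (x : ℂ))
    (hF : ∀ s : ℂ, 2 < s.re → F s = E.LSeries s) {γ : ℝ} (hγ : Real.pi / 2 < γ) :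
    (∀ T : ℝ, 0 < T → Summable fun x => ‖ecTermAt E s₀ γ T x‖) ∧
    ∃ (m : ℤ) (r : ℂ), meromorphicOrderAt F s₀ = m ∧ Complex.exp r = meromorphicTrailingCoeffAt F s₀ ∧
      r.im = -Real.pi * Pool.Agent.Q45.ML.excess F s₀ ∧
      (fun T : ℝ => ecSumAt E s₀ γ T - (r - m * (Real.log T - Lam γ))) =O[atTop]
        (fun T : ℝ => 1 / T) := by
  obtain ⟨α, hα⟩ := exists_ecRoots E
  have hep := nfEP E
  have hq2 : ∀ v : HeightOneSpectrum (𝓞 K), (2 : ℝ) ≤ nrm v := two_le_nrm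
  have hbound : ∀ v j, ‖α v j‖ ≤ nrm v ^ (2 : ℝ) := by
    intro v j
    have hq := hq2 v
    have h1 : ‖α v j‖ ≤ nrm v + 1 := by
      fin_cases j
      · exact root_le (by linarith) (hep.ha v) (hep.he v) (hα v).1 (hα v).2
      · exact root_le (by linarith) (hep.ha v) (hep.he v) (by rw [add_comm]; exact (hα v).1)
          (by rw [mul_comm]; exact (hα v).2)
    refine h1.trans ?_
    rw [show (2 : ℝ) = ((2 : ℕ) : ℝ) by norm_num, Real.rpow_natCast]
    nlinarith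
  have hE : Eul 2 (fun v : HeightOneSpectrum (𝓞 K) => nrm v) α 2 1 :=
    ⟨zero_le_one, hq2, fun _ hσ => nrm_summable hσ, hbound⟩
  have hsum : ∀ v k, ∑ j, α v j ^ k = ((psum ((aV E v : ℤ) : ℝ) ((eV E v : ℤ) : ℝ) k : ℝ) : ℂ) := by
    intro v k
    rw [Fin.sum_univ_two, psum_eq (hα v).1 (hα v).2]
  have hR : RealSums α := by
    intro v k
    rw [hsum, Complex.ofReal_im]
  have hterm : ∀ γ T x, sterm (fun v : HeightOneSpectrum (𝓞 K) => nrm v) α s₀ γ T x =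
      ecTermAt E s₀ γ T x := by
    intro γ T x
    unfold sterm ecTermAt
    rw [hsum, powerSum_eq, ← psum_cast', Complex.ofReal_intCast]
    rfl
  refine ⟨fun T hT => ?_, ?_⟩
  · refine (hE.sterm_summable s₀ γ hT).congr fun x => ?_
    rw [hterm]
  · obtain ⟨m, r, h1, h2, h3, h4⟩ := hE.law hR (F := F) (s₀ := s₀) (by linarith)
      (fun x hx hx1 => hmer x hx (by linarith))
      (fun s hs => by
        have h5 := (LSeries_hasProd E (s := s) (by linarith)).2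
        rw [← hF s (by linarith)] at h5
        refine h5.congr_fun fun v => ?_
        rw [Finset.prod_inv_distrib, Fin.prod_univ_two]
        congr 1
        have g1 := (hα v).1
        have g2 := (hα v).2
        have e : (nrm v : ℂ) = ((Ideal.absNorm v.asIdeal : ℕ) : ℂ) := by
          unfold nrm; push_cast; rfl
        rw [e]
        push_cast at g1 g2
        have e2 : ∀ y : ℂ, (1 - α v 0 * y) * (1 - α v 1 * y) = 1 - (aV E v : ℂ) * y + (eV E v : ℂ) * y ^ 2 := by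
          intro y
          rw [← g1, ← g2]; ring
        rw [e2]
        rfl) hγ
    refine ⟨m, r, h1, h2, h3, ?_⟩
    have hS : ∀ T, smooth (fun v : HeightOneSpectrum (𝓞 K) => nrm v) α s₀ γ T = ecSumAt E s₀ γ T := by
      intro T
      unfold smooth ecSumAt
      simp only [hterm]
    simp only [hS] at h4
    exact h4

end EC

end Pool.Agent.Q45.ML
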