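import Pool.Agent.Q45.ML.OF
import Pool.Agent.Q45.ML.Rat

/-!
# Motives over `ℚ` with coefficients: smoothed sums at integer points

`term`, `S`: the smoothed sums at an integer point; `law`, `value`: the rotated law and the value for an `L`-function
given by polynomials over a number field `E` and an embedding `τ`; `quot_rate`: quotients.
-/

set_option autoImplicit false

namespace Pool.Agent.Q45.ML.Mot

open Filter Topology Asymptotics Polynomial NumberField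
open Pool.Agent.W187.UR (Lam)

/-- the term at `(p, k)`, `k = z.2 + 1`: `(∑_j α p j^k / (k p^{s₀ k})) e^{iγ k log p/T} / Γ(1 + k log p/T)` -/
noncomputable def term {n : ℕ} (α : Nat.Primes → Fin n → ℂ) (s₀ : ℤ) (γ T : ℝ) (z : Nat.Primes × ℕ) : ℂ :=
  (∑ j, α z.1 j ^ (z.2 + 1)) / ((z.2 + 1) * (z.1 : ℂ) ^ (s₀ * (z.2 + 1 : ℕ))) *
    (Complex.exp ((γ * ((z.2 + 1) * Real.log (z.1 : ℝ) / T) : ℝ) * Complex.I) /
      (Real.Gamma (1 + (z.2 + 1) * Real.log (z.1 : ℝ) / T) : ℂ))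

/-- the smoothed sum -/
noncomputable def S {n : ℕ} (α : Nat.Primes → Fin n → ℂ) (s₀ : ℤ) (γ T : ℝ) : ℂ := ∑' z, term α s₀ γ T z

theorem term_eq {n : ℕ} (α : Nat.Primes → Fin n → ℂ) (s₀ : ℤ) (γ T : ℝ) (z : Nat.Primes × ℕ) :
    term α s₀ γ T z = sterm (fun p : Nat.Primes => (p : ℝ)) α s₀ γ T z := by
  unfold term sterm
  congr 3
  have e : ((((z.2 : ℝ) + 1) * (s₀ : ℝ) : ℝ) : ℂ) = ((s₀ * (z.2 + 1 : ℕ) : ℤ) : ℂ) := by
    push_cast; ring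
  rw [e, Complex.cpow_intCast]
  push_cast
  rfl

theorem S_eq {n : ℕ} (α : Nat.Primes → Fin n → ℂ) (s₀ : ℤ) (γ T : ℝ) :
    smooth (fun p : Nat.Primes => (p : ℝ)) α s₀ γ T = S α s₀ γ T := by
  unfold smooth S
  simp only [term_eq]

theorem eul {n : ℕ} {w : ℝ} {α : Nat.Primes → Fin n → ℂ} (hα : ∀ p j, ‖α p j‖ ≤ (p : ℝ) ^ (w / 2))
    (s₀ : ℤ) : Eul n (fun p : Nat.Primes => (p : ℝ)) α (max (w / 2) s₀) 1 :=
  eul_q fun p j => max_bound p (hα p j) s₀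

theorem summable {n : ℕ} {w : ℝ} {α : Nat.Primes → Fin n → ℂ} (hα : ∀ p j, ‖α p j‖ ≤ (p : ℝ) ^ (w / 2))
    (s₀ : ℤ) (γ : ℝ) {T : ℝ} (hT : 0 < T) : Summable fun z => ‖term α s₀ γ T z‖ := by
  simp only [term_eq]
  exact (eul hα s₀).sterm_summable s₀ γ hT

theorem law {E : Type} [Field E] {τ : E →+* ℂ} {n : ℕ} {w : ℝ} {P : Nat.Primes → E[X]}
    {α : Nat.Primes → Fin n → ℂ} (hP : ∀ p, (P p).map τ = ∏ j, (1 - C (α p j) * X))
    (hα : ∀ p j, ‖α p j‖ ≤ (p : ℝ) ^ (w / 2)) {L : ℂ → ℂ} (s₀ : ℤ)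
    (hmer : ∀ σ : ℝ, (s₀ : ℝ) ≤ σ → MeromorphicAt L (σ : ℂ))
    (hL : ∀ s : ℂ, w / 2 + 1 < s.re →
      HasProd (fun p : Nat.Primes => (eval₂ τ ((p : ℂ) ^ (-s)) (P p))⁻¹) (L s))
    {γ : ℝ} (hγ : Real.pi / 2 < γ) :
    ∃ (m : ℤ) (r : ℂ), meromorphicOrderAt L s₀ = m ∧ Complex.exp r = meromorphicTrailingCoeffAt L s₀ ∧
      (fun T : ℝ => S α s₀ γ T - (r - m * (Real.log T - Lam γ))) =O[atTop] (fun T : ℝ => 1 / T) := by
  have hθ1 : w / 2 ≤ max (w / 2) (s₀ : ℝ) := le_max_left _ _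
  have hθ0 : (s₀ : ℝ) ≤ max (w / 2) (s₀ : ℝ) := le_max_right _ _
  obtain ⟨m, r, h1, h2, h3⟩ := (eul hα s₀).lawC (F := L) (s₀ := s₀) (by linarith)
    (fun x hx _ => hmer x hx)
    (fun s hs => by
      refine (hL s (by linarith)).congr_fun fun p => ?_
      rw [eval_prod' (hP p), Finset.prod_inv_distrib]
      simp) hγ
  rw [Complex.ofReal_intCast] at h1 h2
  simp only [S_eq] at h3
  exact ⟨m, r, h1, h2, h3⟩

theorem value {E : Type} [Field E] {τ : E →+* ℂ} {n : ℕ} {w : ℝ} {P : Nat.Primes → E[X]}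
    {α : Nat.Primes → Fin n → ℂ} (hP : ∀ p, (P p).map τ = ∏ j, (1 - C (α p j) * X))
    (hα : ∀ p j, ‖α p j‖ ≤ (p : ℝ) ^ (w / 2)) {L : ℂ → ℂ} (s₀ : ℤ)
    (hmer : ∀ σ : ℝ, (s₀ : ℝ) ≤ σ → MeromorphicAt L (σ : ℂ))
    (hL : ∀ s : ℂ, w / 2 + 1 < s.re →
      HasProd (fun p : Nat.Primes => (eval₂ τ ((p : ℂ) ^ (-s)) (P p))⁻¹) (L s))
    (hA : AnalyticAt ℂ L s₀) {γ : ℝ} (hγ : Real.pi / 2 < γ) :
    (fun T : ℝ => Complex.exp (S α s₀ γ T) - L s₀) =O[atTop] (fun T : ℝ => 1 / T) := by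
  obtain ⟨m, r, h1, h2, h3⟩ := law hP hα s₀ hmer hL hγ
  have h := value_rate (s₀ := (s₀ : ℝ)) (F := L) (by rw [Complex.ofReal_intCast]; exact hA)
    (by rw [Complex.ofReal_intCast]; exact h1) (by rw [Complex.ofReal_intCast]; exact h2) h3
  rwa [Complex.ofReal_intCast] at h

/-- rates for a quotient -/
theorem quot_rate {f g : ℝ → ℂ} {A B : ℂ} (hf : (fun T : ℝ => f T - A) =O[atTop] (fun T : ℝ => 1 / T))
    (hg : (fun T : ℝ => g T - B) =O[atTop] (fun T : ℝ => 1 / T)) (hB : B ≠ 0) :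
    (fun T : ℝ => f T / g T - A / B) =O[atTop] (fun T : ℝ => 1 / T) := by
  have h1 : Tendsto (fun T => (g T)⁻¹) atTop (𝓝 B⁻¹) := (tendsto_of_rate hg).inv₀ hB
  have h2 : (fun T => (g T)⁻¹) =O[atTop] fun _ => (1 : ℝ) := h1.isBigO_one ℝ
  have h3 : ∀ᶠ T in atTop, g T ≠ 0 := (tendsto_of_rate hg).eventually_ne hB
  have h4 := (hf.sub (hg.const_mul_left (A / B))).mul h2
  refine h4.congr' ?_ ?_
  · filter_upwards [h3] with T hT
    field_simp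
    ring
  · filter_upwards with T
    rw [mul_one]

end Pool.Agent.Q45.ML.Mot
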