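import Pool.Agent.Q45.ML.Stark

/-! Congruences for orders; families of local parameters indexed by a finite type. -/

set_option autoImplicit false

namespace Pool.Agent.Q45.ML

open Filter Topology Set Asymptotics
open Pool.Agent.W189.ML Pool.Agent.W189.LC Pool.Agent.W187.UR

/-- the real numbers `a + M j`, `j ∈ ℤ` -/
def resClass (M : ℕ) (a : ℤ) : Set ℝ := {x | ∃ j : ℤ, x = a + M * j}

theorem resClass_closed {M : ℕ} (hM : 0 < M) (a : ℤ) : IsClosed (resClass M a) := by
  have h1 : resClass M a = (fun x : ℝ => (x - a) / M) ⁻¹' (Set.range fun j : ℤ => (j : ℝ)) := by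
    have hM' : (M : ℝ) ≠ 0 := by exact_mod_cast hM.ne'
    ext x
    simp only [resClass, Set.mem_ofPred_eq, Set.mem_preimage, Set.mem_range]
    refine exists_congr fun j => ?_
    rw [eq_div_iff hM']
    constructor
    · intro h; rw [h]; ring
    · intro h; linarith
  rw [h1]
  exact Int.isClosedEmbedding_coe_real.isClosed_range.preimage (by fun_prop)

/-- `-Re S(T)/log T → m` -/
theorem order_lim {S : ℝ → ℂ} {γ : ℝ} {m : ℤ} {r : ℂ}
    (hO : (fun T : ℝ => S T - (r - m * (Real.log T - Lam γ))) =O[atTop] (fun T : ℝ => 1 / T)) :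
    Tendsto (fun T : ℝ => -(S T).re / Real.log T) atTop (𝓝 m) := by
  have h1 := (order_tfae hO m).out 0 2
  have h2 := (h1.1 rfl).neg
  rw [neg_neg] at h2
  refine h2.congr fun T => ?_
  rw [neg_div]

/-- congruences for the order -/
theorem order_mod {S : ℝ → ℂ} {γ : ℝ} {m : ℤ} {r : ℂ}
    (hO : (fun T : ℝ => S T - (r - m * (Real.log T - Lam γ))) =O[atTop] (fun T : ℝ => 1 / T))
    {M : ℕ} (hM : 0 < M) (a : ℤ) : List.TFAE [(M : ℤ) ∣ m - a,
      Tendsto (fun T : ℝ => Metric.infDist (-(S T).re / Real.log T) (resClass M a)) atTop (𝓝 0),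
      ∃ t : ℕ → ℝ, Tendsto t atTop atTop ∧
        Tendsto (fun i => Metric.infDist (-(S (t i)).re / Real.log (t i)) (resClass M a)) atTop (𝓝 0)] := by
  have h1 := closed_tfae (resClass_closed hM a) ⟨a, 0, by simp⟩ (order_lim hO)
  have h2 : ((m : ℝ) ∈ resClass M a) ↔ (M : ℤ) ∣ m - a := by
    constructor
    · rintro ⟨j, hj⟩
      refine ⟨j, ?_⟩
      have : (m : ℝ) = ((a + M * j : ℤ) : ℝ) := by rw [hj]; push_cast; ring
      have h3 : m = a + M * j := by exact_mod_cast this
      rw [h3]; ring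
    · rintro ⟨j, hj⟩
      refine ⟨j, ?_⟩
      have h3 : m = a + M * j := by linarith
      rw [h3]; push_cast; ring
  rw [h2] at h1
  exact h1

/-! ### parameters indexed by a finite type -/

section reindex

variable {P : Type} {ι : Type} [Fintype ι]

/-- reindexing by `Fin (card ι)` -/
noncomputable def reidx (a : P → ι → ℂ) (v : P) (j : Fin (Fintype.card ι)) : ℂ :=
  a v ((Fintype.equivFin ι).symm j)

theorem sum_reidx (a : P → ι → ℂ) (v : P) (k : ℕ) : ∑ j, reidx a v j ^ k = ∑ i, a v i ^ k :=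
  (Fintype.equivFin ι).symm.sum_comp fun i => a v i ^ k

theorem prod_reidx (a : P → ι → ℂ) (v : P) (x : ℂ) :
    ∏ j, (1 - reidx a v j * x)⁻¹ = ∏ i, (1 - a v i * x)⁻¹ :=
  (Fintype.equivFin ι).symm.prod_comp fun i => (1 - a v i * x)⁻¹

end reindex

end Pool.Agent.Q45.ML
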