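import Pool.Agent.Q45.ML.Real

/-! Real Euler products and the real kernel `1/Γ(1 + k log q / T)`: the dichotomy for real zeros and poles. -/

set_option autoImplicit false

namespace Pool.Agent.Q45.ML

open Filter Topology Set Asymptotics
open Pool.Agent.W189.ML Pool.Agent.W189.LC Pool.Agent.W187.UR

/-- the term `Re(∑_j α v j^k) / (k q v^{k s₀} Γ(1 + k log q v / T))`, `k = x.2 + 1` -/
noncomputable def pterm {P : Type} {n : ℕ} (q : P → ℝ) (α : P → Fin n → ℂ) (s₀ T : ℝ) (x : P × ℕ) : ℝ :=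
  (∑ j, α x.1 j ^ (x.2 + 1)).re /
    ((x.2 + 1) * q x.1 ^ ((x.2 + 1) * s₀) * Real.Gamma (1 + (x.2 + 1) * Real.log (q x.1) / T))

/-- the sum of the `pterm` -/
noncomputable def psmooth {P : Type} {n : ℕ} (q : P → ℝ) (α : P → Fin n → ℂ) (s₀ T : ℝ) : ℝ :=
  ∑' x, pterm q α s₀ T x

variable {P : Type} {n : ℕ} {q : P → ℝ} {α : P → Fin n → ℂ} {θ d : ℝ}

theorem Eul.pterm_eq (E : Eul n q α θ d) (s₀ T : ℝ) (x : P × ℕ) :
    pterm q α s₀ T x = (ca α x).re * Real.exp (-(s₀ * fq q x)) / Real.Gamma (1 + fq q x / T) := by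
  have hq0 := E.qpos x.1
  unfold pterm ca fq
  have e1 : ((∑ j, α x.1 j ^ (x.2 + 1)) / ((x.2 : ℂ) + 1)).re =
      (∑ j, α x.1 j ^ (x.2 + 1)).re / (x.2 + 1) := by
    rw [show ((x.2 : ℂ) + 1) = ((x.2 + 1 : ℝ) : ℂ) by push_cast; ring, Complex.div_ofReal_re]
  have e2 : Real.exp (-(s₀ * ((x.2 + 1) * Real.log (q x.1)))) = (q x.1 ^ ((x.2 + 1) * s₀))⁻¹ := by
    rw [Real.rpow_def_of_pos hq0, ← Real.exp_neg]
    congr 1
    ring
  rw [e1, e2, ← div_eq_mul_inv, div_div, div_div]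
  congr 1
  ring

theorem Eul.psmooth_plain (E : Eul n q α θ d) (s₀ T : ℝ) :
    psmooth q α s₀ T = plain (fq q) (fun x => (ca α x).re) s₀ T :=
  tsum_congr fun x => E.pterm_eq s₀ T x

theorem Eul.pterm_summable (E : Eul n q α θ d) (s₀ : ℝ) {T : ℝ} (hT : 0 < T) :
    Summable fun x => |pterm q α s₀ T x| := by
  refine Summable.of_nonneg_of_le (fun _ => abs_nonneg _) (fun x => ?_) (E.sterm_summable s₀ 0 hT)
  have h0 : 0 ≤ fq q x := E.fq_nonneg x
  have h5 : 0 < 1 + fq q x / T := by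
    have := div_nonneg h0 hT.le
    linarith
  rw [E.sterm_eq, E.pterm_eq, norm_mul, norm_mul, norm_div, Complex.norm_exp_ofReal_mul_I,
    Complex.norm_real, Real.norm_eq_abs, Complex.norm_exp, abs_of_pos (Real.Gamma_pos_of_pos h5),
    abs_div, abs_mul, Real.abs_exp, abs_of_pos (Real.Gamma_pos_of_pos h5)]
  have h7 : (-((s₀ : ℂ) * (fq q x : ℂ))).re = -(s₀ * fq q x) := by
    rw [← Complex.ofReal_mul, Complex.neg_re, Complex.ofReal_re]
  rw [h7, ← mul_one_div]
  gcongr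
  exact Complex.abs_re_le_norm _

/-- **Real zeros and poles and the real kernel.** -/
theorem Eul.dichotomy (E : Eul n q α θ d) (hr : RealSums α) {F : ℂ → ℂ} {s₀ : ℝ} (hs₀ : s₀ < θ + d)
    (hmer : ∀ x : ℝ, s₀ ≤ x → x ≤ θ + d → MeromorphicAt F (x : ℂ))
    (hF : ∀ s : ℂ, θ + d < s.re → HasProd (fun v => ∏ j, (1 - α v j * (q v : ℂ) ^ (-s))⁻¹) (F s)) :
    List.TFAE [∀ σ : ℝ, s₀ < σ → meromorphicOrderAt F (σ : ℂ) = 0,
      (fun T : ℝ => psmooth q α s₀ T) =O[atTop] (fun T : ℝ => Real.log T),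
      ∀ y : ℝ, 0 < y → ∃ᶠ T : ℝ in atTop, |psmooth q α s₀ T| < Real.exp (Real.exp (y * T))] ∧
    ((∀ σ : ℝ, s₀ < σ → meromorphicOrderAt F (σ : ℂ) = 0) →
      ∃ (m : ℤ) (l : ℝ), meromorphicOrderAt F s₀ = m ∧ meromorphicTrailingCoeffAt F s₀ = l ∧ 0 < l ∧
        (fun T : ℝ => psmooth q α s₀ T - (Real.log l - m * (Real.log T - kap))) =O[atTop]
          fun T : ℝ => 1 / T) ∧
    ((∃ σ : ℝ, s₀ < σ ∧ meromorphicOrderAt F (σ : ℂ) ≠ 0) →
      ∃ (β : ℝ) (m : ℤ), s₀ < β ∧ β ≤ θ + d ∧ m ≠ 0 ∧ meromorphicOrderAt F (β : ℂ) = m ∧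
        (∀ σ : ℝ, β < σ → meromorphicOrderAt F (σ : ℂ) = 0) ∧
        Tendsto (fun T : ℝ => psmooth q α s₀ T / grow ((β - s₀) * T)) atTop (𝓝 (-m)) ∧
        ∀ y < β - s₀, ∀ᶠ T : ℝ in atTop, Real.exp (Real.exp (y * T)) ≤ |psmooth q α s₀ T|) := by
  have := E.countable
  have C := E.cont hr hs₀ hmer hF
  have hreg := fun hz => plain_regular C hz
  have hsin := fun hz => plain_singular C hz
  simp only [← E.psmooth_plain] at hreg hsin
  refine ⟨?_, hreg, hsin⟩
  have hlog := Real.tendsto_log_atTop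
  have hlogO : ∀ a : ℝ, (fun _ : ℝ => a) =O[atTop] (fun T : ℝ => Real.log T) := by
    intro a
    refine ((isLittleO_const_left.2 (Or.inr ?_)) : (fun _ : ℝ => a) =o[atTop] _).isBigO
    exact tendsto_norm_atTop_atTop.comp hlog
  tfae_have 1 → 2 := by
    intro hz
    obtain ⟨m, l, -, -, -, hO⟩ := hreg hz
    have h1 : (fun T : ℝ => 1 / T) =O[atTop] (fun T : ℝ => Real.log T) := by
      refine IsBigO.trans ?_ (hlogO 1)
      refine IsBigO.of_bound 1 ?_
      filter_upwards [eventually_ge_atTop 1] with T hT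
      rw [Real.norm_eq_abs, Real.norm_eq_abs, abs_of_pos (by positivity : 0 < 1 / T), abs_one,
        mul_one, div_le_one (by linarith)]
      exact hT
    have h2 : (fun T : ℝ => Real.log l - m * (Real.log T - kap)) =O[atTop]
        (fun T : ℝ => Real.log T) :=
      (hlogO _).sub (((isBigO_refl _ _).sub (hlogO kap)).const_mul_left _)
    have h3 := (hO.trans h1).add h2
    simpa using h3
  tfae_have 2 → 3 := by
    intro hO y hy
    obtain ⟨c, hc0, hc⟩ := hO.exists_pos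
    have h1 : ∀ᶠ T : ℝ in atTop, c * ‖Real.log T‖ < Real.exp (Real.exp (y * T)) := by
      have h2 : Tendsto (fun T : ℝ => T / Real.exp (y * T)) atTop (𝓝 0) := by
        have := Real.tendsto_pow_mul_exp_neg_atTop_nhds_zero 1
        have h3 := this.comp (tendsto_id.const_mul_atTop hy)
        have h4 := h3.const_mul y⁻¹
        rw [mul_zero] at h4
        refine h4.congr fun T => ?_
        simp only [Function.comp_apply, id, pow_one, Real.exp_neg]
        field_simp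
      filter_upwards [h2.eventually (gt_mem_nhds (show (0:ℝ) < (c + 1)⁻¹ by positivity)),
        eventually_ge_atTop 1] with T hT hT1
      have h5 : 0 < Real.exp (y * T) := Real.exp_pos _
      rw [div_lt_iff₀ h5, ← div_eq_inv_mul, lt_div_iff₀ (by linarith)] at hT
      have h6 : Real.log T ≤ T := (Real.log_le_sub_one_of_pos (by linarith)).trans (by linarith)
      rw [Real.norm_eq_abs, abs_of_nonneg (Real.log_nonneg hT1)]
      have h7 : Real.exp (y * T) < Real.exp (Real.exp (y * T)) := by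
        have := Real.add_one_le_exp (Real.exp (y * T))
        linarith
      nlinarith
    refine (h1.and hc.bound).frequently.mono ?_
    rintro T ⟨h2, h3⟩
    rw [Real.norm_eq_abs] at h3
    exact lt_of_le_of_lt h3 h2
  tfae_have 3 → 1 := by
    intro h
    by_contra hne
    push Not at hne
    obtain ⟨β, m, h1, h2, h3, h4, h5, h6, h7⟩ := hsin hne
    have h8 := h7 ((β - s₀) / 2) (by linarith)
    refine (h ((β - s₀) / 2) (by linarith)) ?_
    filter_upwards [h8] with T hT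
    exact not_lt.2 hT
  tfae_finish

end Pool.Agent.Q45.ML
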