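import Pool.Agent.Q45.ML.Lat

/-! Real Euler products: signs of the values. -/

set_option autoImplicit false

namespace Pool.Agent.Q45.ML

open Filter Topology Set Asymptotics
open Pool.Agent.W189.ML Pool.Agent.W189.LC Pool.Agent.W187.UR
open scoped ComplexConjugate

/-- a product of linear factors with real coefficients has real power sums -/
theorem real_sums_of_conj {n : ℕ} {β : Fin n → ℂ}
    (h : (∏ j, (1 - Polynomial.C (β j) * Polynomial.X)).map (starRingEnd ℂ) =
      ∏ j, (1 - Polynomial.C (β j) * Polynomial.X)) (k : ℕ) : (∑ j, β j ^ k).im = 0 := by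
  have h1 : ∀ x : ℂ, ∏ j, (1 - conj (β j) * x) = ∏ j, (1 - β j * x) := by
    intro x
    have := congrArg (Polynomial.eval x) h
    rw [Polynomial.map_prod, Polynomial.eval_prod, Polynomial.eval_prod] at this
    simpa using this
  have h2 : ∀ y : ℂ, y ≠ 0 → ∏ j, (y - conj (β j)) = ∏ j, (y - β j) := by
    intro y hy
    have h3 := h1 y⁻¹
    have e : ∀ b : Fin n → ℂ, ∏ j, (y - b j) = y ^ n * ∏ j, (1 - b j * y⁻¹) := by
      intro b
      have : ∀ j, y - b j = y * (1 - b j * y⁻¹) := by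
        intro j
        field_simp
      simp only [this]
      rw [Finset.prod_mul_distrib, Finset.prod_const, Finset.card_univ, Fintype.card_fin]
    rw [e, e, h3]
  have h3 : ∏ j, (Polynomial.X - Polynomial.C (conj (β j))) =
      ∏ j, (Polynomial.X - Polynomial.C (β j)) := by
    refine Polynomial.eq_of_infinite_eval_eq _ _ (Set.Infinite.mono (s := {0}ᶜ) ?_ ?_)
    · intro y hy
      have := h2 y hy
      show Polynomial.eval y _ = Polynomial.eval y _
      rw [Polynomial.eval_prod, Polynomial.eval_prod]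
      simpa using this
    · exact (Set.finite_singleton (0 : ℂ)).infinite_compl
  have h4 := congrArg Polynomial.roots h3
  rw [Polynomial.roots_prod _ _ (Finset.prod_ne_zero_iff.2 fun j _ => Polynomial.X_sub_C_ne_zero _),
    Polynomial.roots_prod _ _ (Finset.prod_ne_zero_iff.2 fun j _ => Polynomial.X_sub_C_ne_zero _)] at h4
  simp only [Polynomial.roots_X_sub_C] at h4
  have h5 := congrArg (fun s : Multiset ℂ => (s.map fun z => z ^ k).sum) h4
  simp only [Multiset.bind_singleton, Multiset.map_map, Function.comp_def] at h5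
  have h6 : ∑ j, conj (β j) ^ k = ∑ j, β j ^ k := h5
  have h7 : conj (∑ j, β j ^ k) = ∑ j, β j ^ k := by
    rw [map_sum, ← h6]
    simp
  exact Complex.conj_eq_iff_im.1 h7

/-- the value of a real Euler product: absolute value and sign -/
theorem Eul.real_value {P : Type} {n : ℕ} {q : P → ℝ} {α : P → Fin n → ℂ} {θ d : ℝ}
    (E : Eul n q α θ d) (hr : RealSums α) {F : ℂ → ℂ} {s₀ : ℝ} (hs₀ : s₀ < θ + d)
    (hmer : ∀ x : ℝ, s₀ ≤ x → x ≤ θ + d → MeromorphicAt F (x : ℂ))
    (hF : ∀ s : ℂ, θ + d < s.re → HasProd (fun v => ∏ j, (1 - α v j * (q v : ℂ) ^ (-s))⁻¹) (F s))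
    (hA : AnalyticAt ℂ F s₀) {γ : ℝ} (hγ : Real.pi / 2 < γ) :
    F s₀ = (-1) ^ (excess F s₀) * (‖F s₀‖ : ℂ) ∧
    (fun T : ℝ => (-1) ^ (excess F s₀) * (Real.exp (smooth q α s₀ γ T).re : ℂ) - F s₀) =O[atTop]
      (fun T : ℝ => 1 / T) ∧
    List.TFAE [F s₀ = 0,
      Tendsto (fun T : ℝ => (smooth q α s₀ γ T).re) atTop atBot,
      ∃ t : ℕ → ℝ, Tendsto t atTop atTop ∧
        Tendsto (fun i => (smooth q α s₀ γ (t i)).re) atTop atBot] := by
  obtain ⟨m, r, h1, h2, h3, h4⟩ := E.law hr hs₀ hmer hF hγ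
  have hv := value_rate hA h1 h2 h4
  set N := excess F s₀ with hN
  have hexp : Complex.exp r = (-1) ^ N * (Real.exp r.re : ℂ) := by
    have e1 : r = (r.re : ℂ) + (N : ℂ) * (-(Real.pi * Complex.I)) := by
      apply Complex.ext
      · simp
      · rw [h3]
        simp
        ring
    have e2 : Complex.exp (-(Real.pi * Complex.I)) = -1 := by
      rw [Complex.exp_neg, Complex.exp_pi_mul_I]
      norm_num
    conv_lhs => rw [e1]
    rw [Complex.exp_add, Complex.exp_int_mul, e2, Complex.ofReal_exp]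
    ring
  have hsign : F s₀ = (-1) ^ N * (‖F s₀‖ : ℂ) := by
    by_cases hz : F s₀ = 0
    · rw [hz]; simp
    · have h5 := hA.meromorphicTrailingCoeffAt_of_ne_zero hz
      rw [← h5, ← h2, hexp]
      rw [norm_mul, norm_zpow, norm_neg, norm_one, one_zpow, one_mul, Complex.norm_real,
        Real.norm_eq_abs, abs_of_pos (Real.exp_pos _)]
  have hnorm1 : ‖((-1 : ℂ)) ^ N‖ = 1 := by
    rw [norm_zpow, norm_neg, norm_one, one_zpow]
  have hrate : (fun T : ℝ => (-1) ^ N * (Real.exp (smooth q α s₀ γ T).re : ℂ) - F s₀) =O[atTop]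
      (fun T : ℝ => 1 / T) := by
    refine IsBigO.trans ?_ hv
    refine IsBigO.of_bound 1 (Eventually.of_forall fun T => ?_)
    have e1 : (-1) ^ N * (Real.exp (smooth q α s₀ γ T).re : ℂ) - F s₀ =
        (-1) ^ N * ((Real.exp (smooth q α s₀ γ T).re : ℂ) - (‖F s₀‖ : ℂ)) := by
      rw [mul_sub, ← hsign]
    rw [e1, norm_mul, hnorm1, one_mul, one_mul, ← Complex.ofReal_sub, Complex.norm_real,
      Real.norm_eq_abs, ← Complex.norm_exp]
    exact abs_norm_sub_norm_le _ _
  refine ⟨hsign, hrate, ?_⟩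
  have hlim : Tendsto (fun T : ℝ => Real.exp (smooth q α s₀ γ T).re) atTop (𝓝 ‖F s₀‖) := by
    have h5 := (tendsto_of_rate hv).norm
    simpa [Complex.norm_exp] using h5
  tfae_have 1 → 2 := by
    intro h
    rw [h, norm_zero] at hlim
    exact Real.tendsto_exp_comp_nhds_zero.1 hlim
  tfae_have 2 → 3 := fun h =>
    ⟨fun n => n, tendsto_natCast_atTop_atTop, h.comp tendsto_natCast_atTop_atTop⟩
  tfae_have 3 → 1 := by
    rintro ⟨t, ht, h⟩
    have h5 := Real.tendsto_exp_comp_nhds_zero.2 h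
    have h6 := tendsto_nhds_unique (hlim.comp ht) h5
    exact norm_eq_zero.1 h6
  tfae_finish

end Pool.Agent.Q45.ML
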