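import Pool.Agent.Q45.ML.FE

/-!
# Families of twisted `L`-functions: all entire if and only if one-sided smoothed sums in the critical strip
-/

set_option autoImplicit false

namespace Pool.Agent.Q45.ML

open Filter Topology Set Asymptotics
open Pool.Agent.W187.UR

variable {P : Type} {n : ℕ} {q : P → ℝ} {θ d : ℝ}

/-- the order and the criterion at one point -/
theorem Eul.point {α : P → Fin n → ℂ} (E : Eul n q α θ d) {F : ℂ → ℂ} (hmer : ∀ z, MeromorphicAt F z)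
    (hF : ∀ s : ℂ, θ + d < s.re → HasProd (fun v => ∏ j, (1 - α v j * (q v : ℂ) ^ (-s))⁻¹) (F s))
    {γ : ℝ} (hγ : Real.pi / 2 < γ) (ρ : ℂ) :
    ∃ (m : ℤ) (r : ℂ), meromorphicOrderAt F ρ = m ∧ Complex.exp r = meromorphicTrailingCoeffAt F ρ ∧
      (fun T : ℝ => csum q α ρ γ T - (r - m * (Real.log T - Lam γ))) =O[atTop] (fun T : ℝ => 1 / T) ∧
      List.TFAE [0 ≤ m, ∃ M : ℝ, ∀ᶠ T : ℝ in atTop, (csum q α ρ γ T).re ≤ M,
        ∃ ε > 0, ∃ t : ℕ → ℝ, Tendsto t atTop atTop ∧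
          ∀ i, (csum q α ρ γ (t i)).re ≤ (1 - ε) * Real.log (t i)] := by
  obtain ⟨m, r, h1, h2, h3⟩ := E.claw ρ (fun x _ => hmer _) hF hγ
  exact ⟨m, r, h1, h2, h3, pole_tfae (S := fun T => csum q α ρ γ T) h3⟩

theorem twists_tfae {X : Type} {α : X → P → Fin n → ℂ} (E : ∀ x, Eul n q (α x) θ d) {L : X → ℂ → ℂ}
    (hmer : ∀ x z, MeromorphicAt (L x) z)
    (hF : ∀ x, ∀ s : ℂ, θ + d < s.re → HasProd (fun v => ∏ j, (1 - α x v j * (q v : ℂ) ^ (-s))⁻¹) (L x s))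
    {w : ℝ} (bar : X → X) {A A' : X → ℂ → ℂ} (hA : ∀ x z, MeromorphicAt (A x) z)
    (hA' : ∀ x z, MeromorphicAt (A' x) z) {z₀ : ℂ}
    (hfe : ∀ x, ∀ᶠ s in 𝓝[≠] z₀, A x s * L x s = A' x (w - s) * L (bar x) (w - s))
    (hA0 : ∀ x z, meromorphicOrderAt (A x) z ≤ 0)
    (hA1 : ∀ x z, w / 2 ≤ z.re → 0 ≤ meromorphicOrderAt (A' x) z)
    {γ : ℝ} (hγ : Real.pi / 2 < γ) :
    List.TFAE [∀ x, ∃ g : ℂ → ℂ, Differentiable ℂ g ∧ ∀ s : ℂ, θ + d < s.re → g s = L x s,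
      ∀ x, ∀ ρ : ℂ, ∃ M : ℝ, ∀ᶠ T : ℝ in atTop, (csum q (α x) ρ γ T).re ≤ M,
      ∀ x, ∀ ρ : ℂ, w / 2 ≤ ρ.re → ρ.re ≤ θ + d → ∃ ε > 0, ∃ t : ℕ → ℝ, Tendsto t atTop atTop ∧
        ∀ i, (csum q (α x) ρ γ (t i)).re ≤ (1 - ε) * Real.log (t i)] := by
  have key := fun x ρ => (E x).point (hmer x) (hF x) hγ ρ
  have hne : ∀ x, ∀ s : ℂ, θ + d < s.re → AnalyticAt ℂ (L x) s := fun x s hs =>
    ((E x).euler_analytic (hF x) hs).1
  tfae_have 1 → 2 := by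
    intro h x ρ
    obtain ⟨g, hg, hgs⟩ := h x
    obtain ⟨m, r, h1, h2, h3, h4⟩ := key x ρ
    have h5 := order_eq_of_halfplane (F := g) (G := L x) (fun z => (hg.analyticAt z).meromorphicAt) (hmer x)
      (σ := θ + d) (fun s hs => hgs s hs) ρ
    have h6 := (hg.analyticAt ρ).meromorphicOrderAt_nonneg
    rw [h5, h1] at h6
    exact (h4.out 0 1).1 (by exact_mod_cast h6)
  tfae_have 2 → 3 := by
    intro h x ρ _ _
    obtain ⟨m, r, h1, h2, h3, h4⟩ := key x ρ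
    exact (h4.out 1 2).1 (h x ρ)
  tfae_have 3 → 1 := by
    intro h x
    have hstrip : ∀ x, ∀ ρ : ℂ, w / 2 ≤ ρ.re → 0 ≤ meromorphicOrderAt (L x) ρ := by
      intro x ρ hρ
      rcases le_or_gt ρ.re (θ + d) with h1 | h1
      · obtain ⟨m, r, g1, g2, g3, g4⟩ := key x ρ
        rw [g1]
        exact_mod_cast (g4.out 0 2).2 (h x ρ hρ h1)
      · exact (hne x ρ h1).meromorphicOrderAt_nonneg
    have hall : ∀ ρ : ℂ, 0 ≤ meromorphicOrderAt (L x) ρ := by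
      intro ρ
      rcases le_or_gt (w / 2) ρ.re with h1 | h1
      · exact hstrip x ρ h1
      · exact order_ge_of_fe (hmer x) (hmer (bar x)) (hA x) (hA' x) (hfe x) (hA0 x ρ)
          (hA1 x _ (by simp; linarith)) (hstrip (bar x) _ (by simp; linarith))
    obtain ⟨G, hG1, hG2⟩ := exists_entire (hmer x) hall
    exact ⟨G, hG1, fun s hs => hG2 s (hne x s hs)⟩
  tfae_finish

end Pool.Agent.Q45.ML
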