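import Pool.Agent.Q45.ML.Stark

/-! Families of conjugate units with absolute value one at the other embeddings form a locally finite set. -/

set_option autoImplicit false
set_option linter.unusedSectionVars false

namespace Pool.Agent.Q45.ML

open Filter Topology Set Asymptotics NumberField

variable {K H : Type} [Field K] [NumberField K] [Field H] [NumberField H] [Algebra K H]

/-- a unit of the ring of integers -/
def IsIntUnit (x : H) : Prop := x ≠ 0 ∧ IsIntegral ℤ x ∧ IsIntegral ℤ x⁻¹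

/-- the values `x A` at the embedding `τ` are those of units `ε A` of `H` with `Art(B)(ε A) = ε (A B)` and
`|g(ε A)| = 1` for all embeddings `g` of `H` which differ from `τ` on `K` -/
def StarkUnits {G : Type} [CommGroup G] (Art : G ≃* (H ≃ₐ[K] H)) (τ : H →+* ℂ) (x : G → ℂ) : Prop :=
  ∃ ε : G → H, (∀ A, IsIntUnit (ε A)) ∧ (∀ A, τ (ε A) = x A) ∧ (∀ A B, Art B (ε A) = ε (A * B)) ∧
    ∀ A (g : H →+* ℂ), g.comp (algebraMap K H) ≠ τ.comp (algebraMap K H) → ‖g (ε A)‖ = 1

theorem exists_aut [IsGalois K H] {g τ : H →+* ℂ}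
    (h : g.comp (algebraMap K H) = τ.comp (algebraMap K H)) : ∃ σ : H ≃ₐ[K] H, ∀ y, g y = τ (σ y) := by
  let _ : Algebra H ℂ := τ.toAlgebra
  let _ : Algebra K ℂ := (τ.comp (algebraMap K H)).toAlgebra
  have : IsScalarTower K H ℂ := IsScalarTower.of_algebraMap_eq fun x => rfl
  have hc : ∀ r : K, g (algebraMap K H r) = algebraMap K ℂ r := fun r =>
    congrArg (fun f : K →+* ℂ => f r) h
  let g' : H →ₐ[K] ℂ := { g with commutes' := hc }
  refine ⟨Normal.algHomEquivAut K ℂ H g', fun y => ?_⟩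
  have h1 := (Normal.algHomEquivAut K ℂ H).symm_apply_apply g'
  have h2 := congrArg (fun f : H →ₐ[K] ℂ => f y) h1
  simp only [Normal.algHomEquivAut_symm_apply] at h2
  exact h2.symm

theorem starkUnits_finite [IsGalois K H] {G : Type} [CommGroup G] [Fintype G]
    (Art : G ≃* (H ≃ₐ[K] H)) (τ : H →+* ℂ) (r : ℝ) :
    ({x : G → ℂ | StarkUnits Art τ x} ∩ Metric.closedBall 0 r).Finite := by
  refine Set.Finite.subset ((Embeddings.finite_of_norm_le H ℂ (max r 1)).image
    (fun y : H => fun A : G => τ (Art A y))) ?_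
  rintro x ⟨⟨ε, h1, h2, h3, h4⟩, hx⟩
  have hxr : ∀ B, ‖x B‖ ≤ r := fun B => by
    rw [mem_closedBall_zero_iff] at hx
    exact (norm_le_pi_norm x B).trans hx
  refine ⟨ε 1, ⟨(h1 1).2.1, fun g => ?_⟩, ?_⟩
  · by_cases hg : g.comp (algebraMap K H) = τ.comp (algebraMap K H)
    · obtain ⟨σ, hσ⟩ := exists_aut hg
      obtain ⟨B, rfl⟩ := Art.surjective σ
      rw [hσ, h3 1 B, one_mul, h2]
      exact (hxr B).trans (le_max_left _ _)
    · rw [h4 1 g hg]
      exact le_max_right _ _
  · funext A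
    show τ (Art A (ε 1)) = x A
    rw [h3 1 A, one_mul, h2]

theorem starkUnits_one {G : Type} [CommGroup G] (Art : G ≃* (H ≃ₐ[K] H)) (τ : H →+* ℂ) :
    StarkUnits Art τ (fun _ => 1) :=
  ⟨fun _ => 1, fun _ => ⟨one_ne_zero, isIntegral_one, by rw [inv_one]; exact isIntegral_one⟩,
    fun _ => map_one _, fun _ _ => map_one _, fun _ _ _ => by rw [map_one, norm_one]⟩

end Pool.Agent.Q45.ML
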