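import Pool.Agent.Q45.ML.Euler
import Pool.Agent.H921R2.TatePole.Dedekind

/-!
# Values at the point; number fields and the rational numbers

If `F` is analytic at `s₀`, then `F(s₀) = lim exp S(T)`, with error `O(1/T)`.
-/

set_option autoImplicit false

namespace Pool.Agent.Q45.ML

open Filter Topology Set Asymptotics NumberField IsDedekindDomain
open Pool.Agent.W189.ML Pool.Agent.W189.LC Pool.Agent.W187.UR

variable {S : ℝ → ℂ} {γ : ℝ} {m : ℤ} {r : ℂ} {F : ℂ → ℂ} {s₀ : ℝ}

/-- `exp S(T) T^m → e^{mΛ} · (leading coefficient)` with error `O(1/T)` -/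
theorem prod_rate
    (hO : (fun T : ℝ => S T - (r - m * (Real.log T - Lam γ))) =O[atTop] (fun T : ℝ => 1 / T)) :
    (fun T : ℝ => Complex.exp (S T) * (T : ℂ) ^ m - Complex.exp r * Complex.exp (m * Lam γ)) =O[atTop]
      (fun T : ℝ => 1 / T) := by
  have h0 := diff_tendsto hO
  have h1 : (fun T : ℝ => Complex.exp (S T - (r - m * (Real.log T - Lam γ))) - 1) =O[atTop]
      (fun T : ℝ => S T - (r - m * (Real.log T - Lam γ))) := by
    have h2 : (fun z : ℂ => Complex.exp z - 1) =O[𝓝 0] fun z => z := by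
      have := (Complex.hasDerivAt_exp 0).isBigO_sub
      simpa using this
    exact h2.comp_tendsto h0
  have h2 := (h1.trans hO).const_mul_left (Complex.exp r * Complex.exp (m * Lam γ))
  refine h2.congr' ?_ EventuallyEq.rfl
  filter_upwards [eventually_gt_atTop 0] with T hT
  have h3 : (T : ℂ) ^ m = Complex.exp (m * Real.log T) := by
    rw [Complex.exp_int_mul, ← Complex.ofReal_exp, Real.exp_log hT]
  rw [mul_sub, mul_one, h3]
  congr 1
  rw [← Complex.exp_add, ← Complex.exp_add, ← Complex.exp_add]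
  congr 1
  ring

theorem ord_nat {s : ℂ} (hF : AnalyticAt ℂ F s) (hm : meromorphicOrderAt F s = m) :
    ∃ n : ℕ, m = n ∧ analyticOrderAt F s = n := by
  rw [hF.meromorphicOrderAt_eq] at hm
  by_cases ht : analyticOrderAt F s = ⊤
  · rw [ht] at hm
    simp at hm
  · obtain ⟨n, hn⟩ := ENat.ne_top_iff_exists.1 ht
    rw [← hn] at hm
    refine ⟨n, ?_, hn.symm⟩
    have h1 : (((n : ℤ)) : WithTop ℤ) = (m : WithTop ℤ) := by simpa using hm
    exact (WithTop.coe_inj.1 h1).symm

/-- the value as a limit, with rate -/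
theorem value_rate (hF : AnalyticAt ℂ F s₀) (hm : meromorphicOrderAt F s₀ = m)
    (hr : Complex.exp r = meromorphicTrailingCoeffAt F s₀)
    (hO : (fun T : ℝ => S T - (r - m * (Real.log T - Lam γ))) =O[atTop] (fun T : ℝ => 1 / T)) :
    (fun T : ℝ => Complex.exp (S T) - F s₀) =O[atTop] (fun T : ℝ => 1 / T) := by
  have h1 := prod_rate hO
  obtain ⟨n, rfl, hn⟩ := ord_nat hF hm
  rcases Nat.eq_zero_or_pos n with h0 | h0
  · subst h0
    have hne : F s₀ ≠ 0 := hF.analyticOrderAt_eq_zero.1 hn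
    rw [hr, hF.meromorphicTrailingCoeffAt_of_ne_zero hne] at h1
    simpa using h1
  · have hz : F s₀ = 0 := by
      by_contra hne
      rw [hF.analyticOrderAt_eq_zero.2 hne] at hn
      have : n = 0 := by exact_mod_cast hn.symm
      omega
    rw [hz]
    simp only [sub_zero]
    -- `exp S = (exp S · T^m) · T^{-m}`
    have h2 : (fun T : ℝ => Complex.exp (S T) * (T : ℂ) ^ (n : ℤ)) =O[atTop] fun _ => (1 : ℝ) :=
      (tendsto_prod hO).isBigO_one ℝ
    have h3 : (fun T : ℝ => (T : ℂ) ^ (-(n : ℤ))) =O[atTop] fun T : ℝ => 1 / T := by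
      refine IsBigO.of_bound 1 ?_
      filter_upwards [eventually_ge_atTop 1] with T hT
      have hT0 : 0 < T := by linarith
      rw [norm_zpow, Complex.norm_real, Real.norm_eq_abs, abs_of_pos hT0, one_mul, Real.norm_eq_abs,
        abs_of_pos (by positivity : 0 < 1 / T), one_div, ← zpow_neg_one]
      exact zpow_le_zpow_right₀ hT (by omega)
    have h4 := h2.mul h3
    refine h4.congr' ?_ ?_
    · filter_upwards [eventually_gt_atTop 0] with T hT
      have hTc : (T : ℂ) ≠ 0 := by exact_mod_cast hT.ne'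
      rw [mul_assoc, ← zpow_add₀ hTc, add_neg_cancel, zpow_zero, mul_one]
    · filter_upwards with T
      rw [one_mul]

/-- the derivative as a limit, with rate, if the value is zero -/
theorem deriv_tendsto (hF : AnalyticAt ℂ F s₀) (hF0 : F s₀ = 0) (hm : meromorphicOrderAt F s₀ = m)
    (hr : Complex.exp r = meromorphicTrailingCoeffAt F s₀)
    (hO : (fun T : ℝ => S T - (r - m * (Real.log T - Lam γ))) =O[atTop] (fun T : ℝ => 1 / T)) :
    Tendsto (fun T : ℝ => Complex.exp (S T) * T) atTop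
      (𝓝 (deriv F s₀ * Complex.exp (Lam γ))) := by
  obtain ⟨n, rfl, hn⟩ := ord_nat hF hm
  have hn1 : 1 ≤ n := by
    by_contra h
    have h0 : n = 0 := by omega
    rw [h0] at hn
    exact hF.analyticOrderAt_eq_zero.1 hn hF0
  obtain ⟨g, hg, hg0, hFg⟩ := (hF.analyticOrderAt_eq_natCast).1 hn
  have hcoef : meromorphicTrailingCoeffAt F s₀ = g s₀ := by
    refine hg.meromorphicTrailingCoeffAt_of_ne_zero_of_eq_nhdsNE (n := (n : ℤ)) hg0 ?_
    filter_upwards [hFg.filter_mono nhdsWithin_le_nhds] with z hz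
    rw [hz, zpow_natCast]
  have h1 := tendsto_prod hO
  rw [hr, hcoef] at h1
  rcases hn1.eq_or_lt with h2 | h2
  · subst h2
    have hder : deriv F s₀ = g s₀ := by
      have h3 : HasDerivAt (fun z : ℂ => (z - s₀) ^ 1 • g z) (g s₀) (s₀ : ℂ) := by
        have h4 := ((hasDerivAt_id (s₀ : ℂ)).sub_const (s₀ : ℂ)).mul hg.differentiableAt.hasDerivAt
        simp only [id, sub_self, zero_mul, one_mul, add_zero] at h4
        refine h4.congr_of_eventuallyEq (Eventually.of_forall fun z => ?_)
        simp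
      exact (h3.congr_of_eventuallyEq hFg).deriv
    rw [hder]
    simpa using h1
  · have hder : deriv F s₀ = 0 := by
      have h3 : HasDerivAt (fun z : ℂ => (z - s₀) ^ n • g z) 0 (s₀ : ℂ) := by
        have h4 := (((hasDerivAt_id (s₀ : ℂ)).sub_const (s₀ : ℂ)).pow n).mul
          hg.differentiableAt.hasDerivAt
        have h5 : (n - 1 : ℕ) ≠ 0 := by omega
        have h6 : n ≠ 0 := by omega
        have e0 : (0 : ℂ) + ((fun x : ℂ => x - (s₀ : ℂ)) ^ n) (s₀ : ℂ) * deriv g s₀ = 0 := by
          simp [h6]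
        simp only [id, sub_self, zero_pow h5, mul_zero, zero_mul] at h4
        rw [e0] at h4
        exact h4.congr_of_eventuallyEq (Eventually.of_forall fun z => by simp)
      exact (h3.congr_of_eventuallyEq hFg).deriv
    rw [hder, zero_mul]
    have h3 : Tendsto (fun T : ℝ => (T : ℂ) ^ (1 - (n : ℤ))) atTop (𝓝 0) := by
      rw [tendsto_zero_iff_norm_tendsto_zero]
      have h4 : Tendsto (fun T : ℝ => T ^ (1 - (n : ℤ))) atTop (𝓝 0) := by
        have := tendsto_const_nhds (x := (1 : ℝ)).div_atTop (tendsto_pow_atTop (α := ℝ) (n := n - 1) (by omega))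
        refine this.congr' ?_
        filter_upwards [eventually_gt_atTop 0] with T hT
        have h5 : (1 : ℤ) - n = -((n - 1 : ℕ) : ℤ) := by
          have : 1 ≤ n := by omega
          push_cast [Nat.cast_sub this]
          ring
        rw [h5, zpow_neg, zpow_natCast, one_div]
      refine h4.congr' ?_
      filter_upwards [eventually_gt_atTop 0] with T hT
      rw [norm_zpow, Complex.norm_real, Real.norm_eq_abs, abs_of_pos hT]
    have h4 := h1.mul h3
    rw [mul_zero] at h4
    refine h4.congr' ?_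
    filter_upwards [eventually_gt_atTop 0] with T hT
    have hTc : (T : ℂ) ≠ 0 := by exact_mod_cast hT.ne'
    rw [mul_assoc, ← zpow_add₀ hTc, add_sub_cancel, zpow_one]

/-! ### number fields -/

section NF

variable {K : Type} [Field K] [NumberField K] {n : ℕ}

/-- the norm of a finite place -/
noncomputable def nrm (v : HeightOneSpectrum (𝓞 K)) : ℝ := Ideal.absNorm v.asIdeal

theorem two_le_nrm (v : HeightOneSpectrum (𝓞 K)) : 2 ≤ nrm v := by
  have h2 : (2 : ℝ) ≤ (Pool.Agent.H921R2.TatePole.nm v : ℝ) := by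
    exact_mod_cast Pool.Agent.H921R2.TatePole.two_le_nm v
  exact h2

theorem nrm_summable {σ : ℝ} (hσ : 1 < σ) :
    Summable fun v : HeightOneSpectrum (𝓞 K) => nrm v ^ (-σ) :=
  Pool.Agent.H921R2.TatePole.nm_summable hσ

/-- Euler products over the places outside `S` of a number field -/
theorem eul_nf (S : Finset (HeightOneSpectrum (𝓞 K))) {α : HeightOneSpectrum (𝓞 K) → Fin n → ℂ}
    {θ : ℝ} (hα : ∀ v ∉ S, ∀ j, ‖α v j‖ ≤ nrm v ^ θ) :
    Eul n (fun v : {v : HeightOneSpectrum (𝓞 K) // v ∉ S} => nrm v.1) (fun v => α v.1) θ 1 :=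
  ⟨zero_le_one, fun v => two_le_nrm v.1, fun _ hσ => (nrm_summable hσ).subtype _,
    fun v j => hα v.1 v.2 j⟩

end NF

/-! ### the rational numbers -/

theorem eul_q {n : ℕ} {α : Nat.Primes → Fin n → ℂ} {θ : ℝ} (hα : ∀ p j, ‖α p j‖ ≤ (p : ℝ) ^ θ) :
    Eul n (fun p : Nat.Primes => (p : ℝ)) α θ 1 :=
  ⟨zero_le_one, fun p => by exact_mod_cast p.2.two_le, fun σ hσ =>
    Nat.Primes.summable_rpow.2 (by linarith), hα⟩

end Pool.Agent.Q45.ML
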